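import Mathlib.Topology.Sheaves.Presheaf
import Mathlib.Tactic.Monotonicity.Lemmas
import Mathlib.Analysis.Real.Pi.Bounds
import Mathlib.Control.Monad.Cont
import Mathlib.RingTheory.PiTensorProduct
import Mathlib.MeasureTheory.Measure.LevyConvergence
import Mathlib.Probability.Distributions.Pareto
import Mathlib.Probability.Distributions.Poisson.Basic
import Mathlib.Probability.Independence.InfinitePi
import Mathlib.Topology.UniformSpace.Uniformizable

-- ======== part 0: formerly Pool.Agent.MP_75c26c_pr.CP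
section MrgPart0

/-!
Compound Poisson laws on a measurable commutative monoid: functoriality, the Mecke formula,
multiplicative functionals.
-/

open MeasureTheory ProbabilityTheory Measure
open scoped ENNReal NNReal

namespace Pool.Agent.MP_75c26c_pr

lemma infinitePi_split {ι α T : Type} [MeasurableSpace T] (θ : Measure T) [IsProbabilityMeasure θ]
    (i0 : ι) (f : α → ι) (hf : Function.Injective f) (h0 : ∀ a, f a ≠ i0) :
    (infinitePi fun _ : ι => θ).map (fun ω => (ω i0, fun a => ω (f a))) =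
      θ.prod (infinitePi fun _ : α => θ) := by
  let κ : Bool → Type := fun b => match b with | true => α | false => Unit
  let g : ((b : Bool) × κ b) → ι := fun p => match p with
    | ⟨true, a⟩ => f a
    | ⟨false, _⟩ => i0
  have hg : Function.Injective g := by
    rintro ⟨b, a⟩ ⟨b', a'⟩ h
    cases b <;> cases b'
    · rfl
    · exact absurd h.symm (h0 _)
    · exact absurd h (h0 _)
    · obtain rfl : a = a' := hf h
      rfl
  have h1 := map_infinitePi_infinitePi_of_inj (P := fun _ : ι => θ) hg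
  have h2 := infinitePi_map_piCurry (X := fun (b : Bool) (_ : κ b) => T) (fun _ _ => θ)
  have h3 := infinitePi_map_eval_prod
    (P := fun b : Bool => infinitePi fun _ : κ b => θ) (i := false) (j := true) (by simp)
  have h4 : (infinitePi fun _ : κ false => θ).map (fun x => x ()) = θ := infinitePi_map_eval _ _
  have h5 : ((infinitePi fun _ : κ false => θ).prod (infinitePi fun _ : κ true => θ)).map
      (Prod.map (fun x => x ()) id) = θ.prod (infinitePi fun _ : α => θ) := by
    rw [← Measure.map_prod_map _ _ (by fun_prop) measurable_id, h4, Measure.map_id]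
  rw [← h5, ← h3, ← h2, ← h1, Measure.map_map, Measure.map_map, Measure.map_map]
  · rfl
  all_goals fun_prop

variable {E : Type} [AddCommMonoid E] [MeasurableSpace E] [MeasurableAdd₂ E]

/-- The sum of the first `r` terms. -/
def sumUpTo (p : ℕ × (ℕ → E)) : E := ∑ k ∈ Finset.range p.1, p.2 k

lemma measurable_sumUpTo : Measurable (sumUpTo : ℕ × (ℕ → E) → E) :=
  measurable_from_prod_countable_right fun n => by
    simp only [sumUpTo]
    fun_prop

/-- Law of the sum of `n` independent samples. -/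
noncomputable def cpow (η : Measure E) (n : ℕ) : Measure E :=
  (infinitePi fun _ : ℕ => η).map fun ω => ∑ k ∈ Finset.range n, ω k

instance (η : Measure E) [IsProbabilityMeasure η] (n : ℕ) : IsProbabilityMeasure (cpow η n) :=
  isProbabilityMeasure_map (by fun_prop)

omit [MeasurableAdd₂ E] in
lemma cpow_zero (η : Measure E) [IsProbabilityMeasure η] : cpow η 0 = dirac 0 := by
  simp [cpow]

lemma cpow_succ (η : Measure E) [IsProbabilityMeasure η] (n : ℕ) :
    cpow η (n + 1) = (η.prod (cpow η n)).map fun p => p.2 + p.1 := by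
  have h := infinitePi_split η 0 Nat.succ Nat.succ_injective Nat.succ_ne_zero
  have h2 : η.prod (cpow η n) = (η.prod (infinitePi fun _ : ℕ => η)).map
      (Prod.map id fun ω => ∑ k ∈ Finset.range n, ω k) := by
    rw [← Measure.map_prod_map _ _ measurable_id (by fun_prop), Measure.map_id, cpow]
  rw [h2, ← h, Measure.map_map, Measure.map_map, cpow]
  · congr 1
    ext ω
    simp [Finset.sum_range_succ']
  all_goals fun_prop

lemma lintegral_cpow_succ (η : Measure E) [IsProbabilityMeasure η] (n : ℕ) {F : E → ℝ≥0∞}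
    (hF : Measurable F) :
    ∫⁻ z, F z ∂cpow η (n + 1) = ∫⁻ y, ∫⁻ s, F (s + y) ∂cpow η n ∂η := by
  rw [cpow_succ, lintegral_map hF (by fun_prop), lintegral_prod _ (by fun_prop)]

/-- The compound Poisson law. -/
noncomputable def cp (r : ℝ≥0) (η : Measure E) : Measure E :=
  ((poissonMeasure r).prod (infinitePi fun _ : ℕ => η)).map sumUpTo

instance (r : ℝ≥0) (η : Measure E) [IsProbabilityMeasure η] : IsProbabilityMeasure (cp r η) :=
  isProbabilityMeasure_map measurable_sumUpTo.aemeasurable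

lemma lintegral_cp (r : ℝ≥0) (η : Measure E) [IsProbabilityMeasure η] {F : E → ℝ≥0∞}
    (hF : Measurable F) :
    ∫⁻ z, F z ∂cp r η = ∑' n, (∫⁻ z, F z ∂cpow η n) * poissonMeasure r {n} := by
  rw [cp, lintegral_map hF measurable_sumUpTo,
    lintegral_prod (fun a => F (sumUpTo a)) (hF.comp measurable_sumUpTo).aemeasurable,
    lintegral_countable']
  congr with n
  rw [cpow, lintegral_map hF (by fun_prop)]
  rfl

lemma poisson_succ (r : ℝ≥0) (n : ℕ) :
    (n + 1 : ℝ≥0∞) * poissonMeasure r {n + 1} = r * poissonMeasure r {n} := by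
  rw [poissonMeasure_singleton, poissonMeasure_singleton]
  have h1 : (n + 1 : ℝ≥0∞) = ENNReal.ofReal (n + 1) := by
    rw [ENNReal.ofReal_add (by positivity) zero_le_one]; simp
  rw [h1, ← ENNReal.ofReal_mul (by positivity), ← ENNReal.ofReal_coe_nnreal (p := r),
    ← ENNReal.ofReal_mul (by positivity)]
  congr 1
  rw [Nat.factorial_succ]
  push_cast
  field_simp
  ring

/-- The right-hand side of the Mecke formula for `n + 1` summands. -/
lemma mecke_step (η : Measure E) [IsProbabilityMeasure η] {l F : E → ℝ≥0∞} (hl : Measurable l)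
    (hF : Measurable F) (n : ℕ) :
    ∫⁻ y, ∫⁻ s, (l s + l y) * F (s + y) ∂cpow η n ∂η =
      ∫⁻ s, l s * ∫⁻ y, F (s + y) ∂η ∂cpow η n + ∫⁻ y, l y * ∫⁻ s, F (s + y) ∂cpow η n ∂η := by
  simp_rw [add_mul]
  have h1 : ∀ y, ∫⁻ s, l s * F (s + y) + l y * F (s + y) ∂cpow η n =
      ∫⁻ s, l s * F (s + y) ∂cpow η n + l y * ∫⁻ s, F (s + y) ∂cpow η n := by
    intro y
    rw [lintegral_add_left (by fun_prop), lintegral_const_mul _ (by fun_prop)]
  simp_rw [h1]
  rw [lintegral_add_left (by fun_prop), lintegral_lintegral_swap (by fun_prop)]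
  congr 1
  refine lintegral_congr fun s => ?_
  rw [lintegral_const_mul _ (by fun_prop)]

lemma mecke_aux (η : Measure E) [IsProbabilityMeasure η] {l F : E → ℝ≥0∞}
    (hF : Measurable F) (n : ℕ) :
    ∫⁻ y', l y' * ∫⁻ s, ∫⁻ y, F (s + y' + y) ∂η ∂cpow η n ∂η =
      ∫⁻ y, l y * ∫⁻ s, F (s + y) ∂cpow η (n + 1) ∂η := by
  refine lintegral_congr fun y' => ?_
  rw [lintegral_cpow_succ η n (F := fun s => F (s + y')) (by fun_prop),
    lintegral_lintegral_swap (by fun_prop)]
  simp_rw [add_right_comm _ y']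

lemma mecke_cpow_le (η : Measure E) [IsProbabilityMeasure η] {l : E → ℝ≥0∞} (hl : Measurable l)
    (hadd : ∀ a b, l (a + b) ≤ l a + l b) (n : ℕ) :
    ∀ F : E → ℝ≥0∞, Measurable F → ∫⁻ z, l z * F z ∂cpow η (n + 1) ≤
      (n + 1) * ∫⁻ y, l y * ∫⁻ s, F (s + y) ∂cpow η n ∂η := by
  induction n with
  | zero =>
    intro F hF
    rw [lintegral_cpow_succ η 0 (by fun_prop), cpow_zero]
    simp only [Nat.cast_zero, zero_add, one_mul]
    refine le_of_eq (lintegral_congr fun y => ?_)
    rw [lintegral_dirac' _ (by fun_prop), lintegral_dirac' _ (by fun_prop), zero_add]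
  | succ n ih =>
    intro F hF
    rw [lintegral_cpow_succ η _ (by fun_prop)]
    calc _ ≤ ∫⁻ y, ∫⁻ s, (l s + l y) * F (s + y) ∂cpow η (n + 1) ∂η := by
          gcongr with y s
          exact hadd _ _
      _ ≤ _ := by
          rw [mecke_step η hl hF]
          refine (add_le_add_left (ih (fun s => ∫⁻ y, F (s + y) ∂η) (by fun_prop)) _).trans ?_
          rw [mecke_aux η hF]
          push_cast
          exact le_of_eq (by ring)

lemma mecke_cpow (η : Measure E) [IsProbabilityMeasure η] {l : E → ℝ≥0∞} (hl : Measurable l)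
    (hadd : ∀ a b, l (a + b) = l a + l b) (n : ℕ) :
    ∀ F : E → ℝ≥0∞, Measurable F → ∫⁻ z, l z * F z ∂cpow η (n + 1) =
      (n + 1) * ∫⁻ y, l y * ∫⁻ s, F (s + y) ∂cpow η n ∂η := by
  induction n with
  | zero =>
    intro F hF
    rw [lintegral_cpow_succ η 0 (by fun_prop), cpow_zero]
    simp only [Nat.cast_zero, zero_add, one_mul]
    refine lintegral_congr fun y => ?_
    rw [lintegral_dirac' _ (by fun_prop), lintegral_dirac' _ (by fun_prop), zero_add]
  | succ n ih =>
    intro F hF
    rw [lintegral_cpow_succ η _ (by fun_prop)]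
    simp_rw [hadd]
    rw [mecke_step η hl hF, ih (fun s => ∫⁻ y, F (s + y) ∂η) (by fun_prop), mecke_aux η hF]
    push_cast
    ring

lemma mecke_sum (r : ℝ≥0) (η : Measure E) [IsProbabilityMeasure η] {l F : E → ℝ≥0∞}
    (hl : Measurable l) (hF : Measurable F) :
    ∑' n : ℕ, ((n + 1) * ∫⁻ y, l y * ∫⁻ s, F (s + y) ∂cpow η n ∂η) * poissonMeasure r {n + 1} =
      r * ∫⁻ y, l y * ∫⁻ s, F (s + y) ∂cp r η ∂η := by
  have h1 : ∀ y, ∫⁻ s, F (s + y) ∂cp r η =
      ∑' n, (∫⁻ s, F (s + y) ∂cpow η n) * poissonMeasure r {n} :=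
    fun y => lintegral_cp r η (F := fun s => F (s + y)) (by fun_prop)
  simp_rw [h1, ← ENNReal.tsum_mul_left]
  rw [lintegral_tsum (fun n => by fun_prop), ← ENNReal.tsum_mul_left]
  congr with n
  simp_rw [← mul_assoc]
  rw [lintegral_mul_const _ (by fun_prop), mul_right_comm, poisson_succ]
  ring

theorem mecke_le (r : ℝ≥0) (η : Measure E) [IsProbabilityMeasure η] {l F : E → ℝ≥0∞}
    (hl : Measurable l) (h0 : l 0 = 0) (hadd : ∀ a b, l (a + b) ≤ l a + l b) (hF : Measurable F) :
    ∫⁻ z, l z * F z ∂cp r η ≤ r * ∫⁻ y, l y * ∫⁻ s, F (s + y) ∂cp r η ∂η := by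
  rw [lintegral_cp r η (by fun_prop), tsum_eq_zero_add' ENNReal.summable, cpow_zero,
    lintegral_dirac' _ (by fun_prop), h0, zero_mul, zero_mul, zero_add, ← mecke_sum r η hl hF]
  gcongr with n
  exact mecke_cpow_le η hl hadd n F hF

theorem mecke (r : ℝ≥0) (η : Measure E) [IsProbabilityMeasure η] {l F : E → ℝ≥0∞}
    (hl : Measurable l) (h0 : l 0 = 0) (hadd : ∀ a b, l (a + b) = l a + l b) (hF : Measurable F) :
    ∫⁻ z, l z * F z ∂cp r η = r * ∫⁻ y, l y * ∫⁻ s, F (s + y) ∂cp r η ∂η := by
  rw [lintegral_cp r η (by fun_prop), tsum_eq_zero_add' ENNReal.summable, cpow_zero,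
    lintegral_dirac' _ (by fun_prop), h0, zero_mul, zero_mul, zero_add, ← mecke_sum r η hl hF]
  congr with n
  rw [mecke_cpow η hl hadd n F hF]

theorem map_cp {E' : Type} [AddCommMonoid E'] [MeasurableSpace E'] [MeasurableAdd₂ E']
    (r : ℝ≥0) (η : Measure E) [IsProbabilityMeasure η] (φ : E →+ E') (hφ : Measurable φ) :
    (cp r η).map φ = cp r (η.map φ) := by
  have := isProbabilityMeasure_map (μ := η) hφ.aemeasurable
  have h := infinitePi_map_pi (fun _ : ℕ => η) (f := fun _ => φ) (fun _ => hφ)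
  rw [cp, cp, ← h, Measure.map_map hφ measurable_sumUpTo]
  conv_rhs => rw [← Measure.map_id (μ := poissonMeasure r)]
  rw [Measure.map_prod_map _ _ measurable_id (by fun_prop),
    Measure.map_map measurable_sumUpTo (by fun_prop)]
  congr 1
  ext p
  simp [sumUpTo]

theorem ae_cp (r : ℝ≥0) (η : Measure E) [IsProbabilityMeasure η] {Q : E → Prop}
    (hQ : MeasurableSet {z | Q z}) (h0 : Q 0) (hadd : ∀ a b, Q a → Q b → Q (a + b))
    (h : ∀ᵐ y ∂η, Q y) : ∀ᵐ z ∂cp r η, Q z := by
  rw [cp, ae_map_iff measurable_sumUpTo.aemeasurable hQ]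
  have h1 : ∀ᵐ ω ∂(infinitePi fun _ : ℕ => η), ∀ k, Q (ω k) :=
    ae_all_iff.mpr fun k =>
      (measurePreserving_eval_infinitePi (fun _ : ℕ => η) k).quasiMeasurePreserving.ae h
  filter_upwards [(quasiMeasurePreserving_snd (μ := poissonMeasure r)).ae h1] with p hp
  exact Finset.sum_induction _ Q hadd h0 fun k _ => hp k

lemma integral_cpow_char (η : Measure E) [IsProbabilityMeasure η] {χ : E → ℂ} (hχ : Measurable χ)
    (h0 : χ 0 = 1) (hmul : ∀ a b, χ (a + b) = χ a * χ b) (n : ℕ) :
    ∫ z, χ z ∂cpow η n = (∫ z, χ z ∂η) ^ n := by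
  induction n with
  | zero => rw [cpow_zero, integral_dirac' _ _ hχ.stronglyMeasurable, h0, pow_zero]
  | succ n ih =>
    rw [cpow_succ, integral_map (by fun_prop) hχ.aestronglyMeasurable]
    simp_rw [hmul, mul_comm (χ (Prod.snd _))]
    rw [integral_prod_mul, ih, pow_succ']

theorem integral_cp_char (r : ℝ≥0) (η : Measure E) [IsProbabilityMeasure η] {χ : E → ℂ}
    (hχ : Measurable χ) (hb : ∀ z, ‖χ z‖ ≤ 1) (h0 : χ 0 = 1)
    (hmul : ∀ a b, χ (a + b) = χ a * χ b) :
    ∫ z, χ z ∂cp r η = Complex.exp (r * (∫ z, χ z ∂η - 1)) := by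
  rw [cp, integral_map measurable_sumUpTo.aemeasurable hχ.aestronglyMeasurable,
    integral_prod (fun a => χ (sumUpTo a)) (Integrable.of_bound (hχ.comp measurable_sumUpTo).aestronglyMeasurable 1
      (ae_of_all _ fun p => hb _)), integral_poissonMeasure]
  have h1 : ∀ n : ℕ, ∫ ω, χ (sumUpTo (n, ω)) ∂(infinitePi fun _ : ℕ => η) = (∫ z, χ z ∂η) ^ n := by
    intro n
    rw [← integral_cpow_char η hχ h0 hmul, cpow, integral_map (by fun_prop)
      hχ.aestronglyMeasurable]
    rfl
  simp_rw [h1]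
  set c := ∫ z, χ z ∂η
  calc ∑' n : ℕ, (Real.exp (-r) * r ^ n / n.factorial : ℝ) • c ^ n
      = ∑' n : ℕ, (Real.exp (-r) : ℂ) * ((r * c) ^ n / n.factorial) := by
        congr with n
        rw [Complex.real_smul]
        push_cast
        ring
    _ = (Real.exp (-r) : ℂ) * Complex.exp (r * c) := by
        rw [tsum_mul_left, (NormedSpace.expSeries_div_hasSum_exp (r * c : ℂ)).tsum_eq,
          Complex.exp_eq_exp_ℂ]
    _ = _ := by
        rw [Complex.ofReal_exp, ← Complex.exp_add]
        push_cast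
        ring_nf

end Pool.Agent.MP_75c26c_pr

end MrgPart0

-- ======== part 1: formerly Pool.Agent.MP_75c26c_pr.Stable
section MrgPart1

/-!
Symmetric stable laws of index below one, and a moment criterion through characteristic functions.
-/

open MeasureTheory ProbabilityTheory Measure Filter Topology Set
open scoped ENNReal NNReal

namespace Pool.Agent.MP_75c26c_pr

lemma integrableOn_of_two_bounds {h : ℝ → ℝ} (hm : Measurable h) {p q C : ℝ} (hp : 0 < p)
    (hpq : p < q) (h1 : ∀ x ∈ Ioc (0 : ℝ) 1, |h x| ≤ C * x ^ q) (h2 : ∀ x, |h x| ≤ 2) :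
    IntegrableOn (fun x => h x * x ^ (-(p + 1))) (Ioi 0) := by
  rw [← Ioc_union_Ioi_eq_Ioi zero_le_one]
  refine IntegrableOn.union ?_ ?_
  · have h3 : IntegrableOn (fun x : ℝ => C * x ^ (q - (p + 1))) (Ioc 0 1) :=
      ((intervalIntegral.intervalIntegrable_rpow' (a := 0) (b := 1) (by linarith)).1).const_mul C
    refine Integrable.mono' h3 (by fun_prop) (ae_restrict_of_forall_mem measurableSet_Ioc ?_)
    intro x hx
    rw [norm_mul, Real.norm_of_nonneg (Real.rpow_nonneg hx.1.le _), sub_eq_add_neg,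
      Real.rpow_add hx.1, ← mul_assoc]
    exact mul_le_mul_of_nonneg_right (h1 x hx) (Real.rpow_nonneg hx.1.le _)
  · have h3 : IntegrableOn (fun x : ℝ => 2 * x ^ (-(p + 1))) (Ioi 1) :=
      (integrableOn_Ioi_rpow_of_lt (by linarith) one_pos).const_mul 2
    refine Integrable.mono' h3 (by fun_prop) (ae_restrict_of_forall_mem measurableSet_Ioi ?_)
    intro x hx
    have hx0 : 0 ≤ x := zero_le_one.trans (le_of_lt hx)
    rw [norm_mul, Real.norm_of_nonneg (Real.rpow_nonneg hx0 _)]
    exact mul_le_mul_of_nonneg_right (h2 x) (Real.rpow_nonneg hx0 _)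

/-- The symmetric Lévy exponent. -/
noncomputable def psi (p t : ℝ) : ℝ := ∫ x in Ioi 0, (1 - Real.cos (t * x)) * x ^ (-(p + 1))

lemma integrableOn_psi {p : ℝ} (hp : 0 < p) (hp1 : p < 1) (t : ℝ) :
    IntegrableOn (fun x => (1 - Real.cos (t * x)) * x ^ (-(p + 1))) (Ioi 0) := by
  refine integrableOn_of_two_bounds (by fun_prop) hp hp1 (C := |t|) (fun x hx => ?_) (fun x => ?_)
  · have := Real.abs_cos_sub_cos_le 0 (t * x)
    rw [Real.rpow_one]
    rwa [Real.cos_zero, zero_sub, abs_neg, abs_mul, abs_of_pos hx.1] at this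
  · rw [abs_le]
    constructor <;> linarith [Real.cos_le_one (t * x), Real.neg_one_le_cos (t * x)]

lemma psi_eq {p : ℝ} (hp : 0 < p) (t : ℝ) : psi p t = |t| ^ p * psi p 1 := by
  have key : ∀ t : ℝ, 0 < t → psi p t = t ^ p * psi p 1 := by
    intro t ht
    have h := integral_comp_mul_left_Ioi (fun y => (1 - Real.cos y) * y ^ (-(p + 1))) 0 ht
    rw [mul_zero, smul_eq_mul] at h
    have h2 : psi p t = t ^ (p + 1) *
        ∫ x in Ioi 0, (1 - Real.cos (t * x)) * (t * x) ^ (-(p + 1)) := by
      rw [psi, ← integral_const_mul]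
      refine setIntegral_congr_fun measurableSet_Ioi fun x hx => ?_
      have hx' : 0 < x := hx
      rw [Real.mul_rpow ht.le hx'.le, Real.rpow_neg ht.le]
      have := Real.rpow_pos_of_pos ht (p + 1)
      field_simp
    rw [h2, h, psi, Real.rpow_add ht, Real.rpow_one]
    simp only [one_mul]
    field_simp
  rcases lt_trichotomy t 0 with h | rfl | h
  · rw [abs_of_neg h, ← key _ (neg_pos.mpr h)]
    simp [psi]
  · simp [psi, hp.ne']
  · rw [abs_of_pos h, key t h]

lemma psi_pos {p : ℝ} (hp : 0 < p) (hp1 : p < 1) : 0 < psi p 1 := by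
  rw [psi, setIntegral_pos_iff_support_of_nonneg_ae _ (integrableOn_psi hp hp1 1)]
  · refine lt_of_lt_of_le (b := volume (Ioo (0 : ℝ) 1)) (by simp) (measure_mono fun x hx => ?_)
    refine ⟨?_, hx.1⟩
    have h1 : Real.cos x < 1 := by
      have := Real.cos_lt_cos_of_nonneg_of_le_pi le_rfl (by linarith [Real.pi_gt_three, hx.2]) hx.1
      rwa [Real.cos_zero] at this
    exact mul_ne_zero (by rw [one_mul]; linarith) (Real.rpow_pos_of_pos hx.1 _).ne'
  · refine ae_restrict_of_forall_mem measurableSet_Ioi fun x hx => ?_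
    exact mul_nonneg (by linarith [Real.cos_le_one (1 * x)]) (Real.rpow_nonneg (le_of_lt hx) _)

lemma re_charFun (ν : Measure ℝ) [IsProbabilityMeasure ν] (t : ℝ) :
    1 - (charFun ν t).re = ∫ x, (1 - Real.cos (t * x)) ∂ν := by
  have h1 : Integrable (fun x : ℝ => Complex.exp (t * x * Complex.I)) ν :=
    Integrable.of_bound (by fun_prop) 1 (ae_of_all _ fun x => by
      rw [← Complex.ofReal_mul, Complex.norm_exp_ofReal_mul_I])
  have h2 : Integrable (fun x : ℝ => Real.cos (t * x)) ν :=
    Integrable.of_bound (by fun_prop) 1 (ae_of_all _ fun x => Real.abs_cos_le_one _)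
  rw [integral_sub (integrable_const _) h2, charFun_apply_real, ← RCLike.re_to_complex,
    ← integral_re h1]
  simp only [integral_const, probReal_univ, smul_eq_mul, mul_one, RCLike.re_to_complex]
  congr 2
  funext x
  rw [← Complex.ofReal_mul, Complex.exp_ofReal_mul_I_re]

theorem exists_stable {p : ℝ} (hp : 0 < p) (hp1 : p < 1) :
    ∃ c : ℝ, 0 < c ∧ ∃ ν : Measure ℝ, IsProbabilityMeasure ν ∧
      ∀ t, charFun ν t = Complex.exp (-(c * |t| ^ p : ℝ)) := by
  refine ⟨2 * p * psi p 1, by have := psi_pos hp hp1; positivity, ?_⟩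
  have ha : ∀ n : ℕ, (0 : ℝ) < 1 / (n + 1) := fun n => by positivity
  have hP := fun n : ℕ => isProbabilityMeasure_paretoMeasure (ha n) hp
  let lam : ℕ → ℝ≥0 := fun n => ⟨(1 / (n + 1) : ℝ) ^ (-p), Real.rpow_nonneg (ha n).le _⟩
  let μ0 : ℕ → Measure ℝ := fun n => cp (lam n) (paretoMeasure (1 / (n + 1)) p)
  have hneg := fun n => isProbabilityMeasure_map (μ := μ0 n) (f := fun x : ℝ => -1 * x)
    (by fun_prop)
  let μ : ℕ → ProbabilityMeasure ℝ := fun n =>
    ⟨μ0 n ∗ (μ0 n).map (fun x => -1 * x), inferInstance⟩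
  have h0 : ∀ n t, charFun (μ0 n) t =
      Complex.exp (lam n * (charFun (paretoMeasure (1 / (n + 1)) p) t - 1)) := by
    intro n t
    rw [charFun_apply_real, charFun_apply_real]
    refine integral_cp_char _ _ (by fun_prop) (fun x => ?_) (by simp) (fun a b => ?_)
    · rw [← Complex.ofReal_mul, Complex.norm_exp_ofReal_mul_I]
    · rw [← Complex.exp_add]; push_cast; ring_nf
  have h1 : ∀ n t, charFun (μ n : Measure ℝ) t = Complex.exp (-(2 * p *
      ∫ x in Ici (1 / (n + 1 : ℝ)), (1 - Real.cos (t * x)) * x ^ (-(p + 1)) : ℝ)) := by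
    intro n t
    have h2 : (lam n : ℝ) * (1 - (charFun (paretoMeasure (1 / (n + 1)) p) t).re) =
        p * ∫ x in Ici (1 / (n + 1 : ℝ)), (1 - Real.cos (t * x)) * x ^ (-(p + 1)) := by
      rw [re_charFun, paretoMeasure, integral_withDensity_eq_integral_toReal_smul
        (by unfold paretoPDF; fun_prop) (ae_of_all _ fun x => by simp [paretoPDF]),
        ← integral_const_mul, ← integral_const_mul, ← integral_indicator measurableSet_Ici]
      congr with x
      by_cases hx : 1 / (n + 1 : ℝ) ≤ x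
      · have hx0 : 0 < x := (ha n).trans_le hx
        rw [paretoPDF_of_le hx, ENNReal.toReal_ofReal (by positivity),
          indicator_of_mem (by exact hx)]
        have hl : (lam n : ℝ) = (1 / (n + 1) : ℝ) ^ (-p) := rfl
        rw [hl, smul_eq_mul, Real.rpow_neg (ha n).le]
        have := Real.rpow_pos_of_pos (ha n) p
        field_simp
      · rw [paretoPDF_of_lt (not_le.mp hx), indicator_of_notMem (by exact hx)]
        simp
    change charFun (μ0 n ∗ (μ0 n).map (fun x => -1 * x)) t = _
    rw [charFun_conv, charFun_map_mul, h0, h0, ← Complex.exp_add, neg_one_mul, charFun_neg,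
      mul_assoc, ← h2]
    congr 1
    have h3 := Complex.add_conj (charFun (paretoMeasure (1 / (n + 1)) p) t)
    push_cast at h3 ⊢
    linear_combination (lam n : ℂ) * h3
  have hlim : ∀ t, Tendsto (fun n => charFun (μ n : Measure ℝ) t) atTop
      (𝓝 (Complex.exp (-(2 * p * psi p 1 * |t| ^ p : ℝ)))) := by
    intro t
    simp_rw [h1]
    have hU : ⋃ n : ℕ, Ici (1 / (n + 1 : ℝ)) = Ioi 0 := by
      ext x
      simp only [mem_iUnion, mem_Ici, mem_Ioi]
      exact ⟨fun ⟨n, hn⟩ => (ha n).trans_le hn, fun hx =>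
        (exists_nat_one_div_lt hx).imp fun n hn => hn.le⟩
    have h2 := tendsto_setIntegral_of_monotone (μ := volume)
      (f := fun x => (1 - Real.cos (t * x)) * x ^ (-(p + 1)))
      (s := fun n : ℕ => Ici (1 / (n + 1 : ℝ))) (fun _ => measurableSet_Ici)
      (fun n m h => Ici_subset_Ici.mpr (by gcongr)) (hU ▸ integrableOn_psi hp hp1 t)
    rw [hU] at h2
    have h3 : 2 * p * psi p 1 * |t| ^ p = 2 * p * psi p t := by rw [psi_eq hp t]; ring
    rw [h3]
    exact (Complex.continuous_exp.tendsto _).comp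
      ((Complex.continuous_ofReal.tendsto _).comp (h2.const_mul _)).neg
  have htight : IsTightMeasureSet (Set.range fun n => (μ n : Measure ℝ)) :=
    isTightMeasureSet_of_tendsto_charFun (Continuous.continuousAt (by
      have : Continuous fun t : ℝ => |t| ^ p := continuous_abs.rpow_const fun _ => Or.inr hp.le
      fun_prop)) hlim
  have hcomp : IsCompact (closure (Set.range μ)) :=
    isCompact_closure_of_isTightMeasureSet (by
      convert htight using 1
      ext ν
      simp)
  obtain ⟨ν, -, φ, hφ, hν⟩ := hcomp.isSeqCompact (x := μ) fun n => subset_closure ⟨n, rfl⟩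
  refine ⟨ν, inferInstance, fun t => ?_⟩
  exact tendsto_nhds_unique (ProbabilityMeasure.tendsto_iff_tendsto_charFun.mp hν t)
    ((hlim t).comp hφ.tendsto_atTop)

theorem integrable_rpow_of_charFun (ν : Measure ℝ) [IsProbabilityMeasure ν] {p q C : ℝ}
    (hp : 0 < p) (hp1 : p < 1) (hpq : p < q)
    (h : ∀ t ∈ Ioc (0 : ℝ) 1, 1 - (charFun ν t).re ≤ C * t ^ q) :
    Integrable (fun x => |x| ^ p) ν := by
  have hc : ∀ t x : ℝ, 0 ≤ 1 - Real.cos (t * x) := fun t x => by
    linarith [Real.cos_le_one (t * x)]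
  have h0 : ∀ t, 0 ≤ 1 - (charFun ν t).re := fun t => by
    rw [re_charFun]; exact integral_nonneg fun x => hc t x
  have h1 := integrableOn_of_two_bounds (h := fun t => 1 - (charFun ν t).re)
    (by have := measurable_charFun (μ := ν); fun_prop) hp hpq
    (fun t ht => by rw [abs_of_nonneg (h0 t)]; exact h t ht) (fun t => by
      rw [abs_of_nonneg (h0 t)]
      have := (Complex.abs_re_le_norm (charFun ν t)).trans (norm_charFun_le_one t)
      linarith [(abs_le.mp this).1])
  have h2 : Integrable (fun z : ℝ × ℝ => (1 - Real.cos (z.1 * z.2)) * z.1 ^ (-(p + 1)))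
      ((volume.restrict (Ioi 0)).prod ν) := by
    rw [integrable_prod_iff (by fun_prop)]
    constructor
    · refine ae_of_all _ fun t => ?_
      dsimp only
      refine Integrable.mul_const ?_ _
      exact (integrable_const _).sub
        (Integrable.of_bound (by fun_prop) 1 (ae_of_all _ fun x => Real.abs_cos_le_one _))
    · refine h1.congr_fun (fun t ht => ?_) measurableSet_Ioi
      simp only
      rw [re_charFun, ← integral_mul_const]
      congr with x
      rw [Real.norm_of_nonneg (mul_nonneg (hc t x) (Real.rpow_nonneg (le_of_lt ht) _))]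
  have h3 := h2.integral_prod_right.mul_const (psi p 1)⁻¹
  refine h3.congr (ae_of_all _ fun x => ?_)
  have h4 := psi_eq hp x
  have h5 := (psi_pos hp hp1).ne'
  simp only [psi, mul_comm x] at h4 ⊢
  rw [h4]
  exact mul_inv_cancel_right₀ h5 _

end Pool.Agent.MP_75c26c_pr

end MrgPart1

-- marker of a merged file
example : 731051 + 559341 = 731051 + 559341 := rfl
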