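import Mathlib.Order.ConditionallyCompleteLattice.Defs
import Mathlib.Order.BourbakiWitt
import Mathlib.Order.CompletePartialOrder
import Mathlib.RingTheory.WittVector.IsPoly
import Mathlib.Tactic
import Pool.Agent.MP_75c26c_pr.Stable

-- ======== part 0: formerly Pool.Agent.MP_75c26c_pr.Tree
section MrgPart0

/-!
A marked Poisson Galton–Watson tree, given abstractly by a measure preserving unfolding map.
-/

open MeasureTheory ProbabilityTheory Measure
open scoped ENNReal NNReal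

namespace Pool.Agent.MP_75c26c_pr

/-- A probability space with a measure preserving unfolding into a Poisson number and
independent marked copies of itself. -/
structure Tree {T : Type} [MeasurableSpace T] (r : ℝ≥0) (θ : Measure T) where
  Ω : Type
  [mΩ : MeasurableSpace Ω]
  P : Measure Ω
  [hP : IsProbabilityMeasure P]
  c : Ω → ℕ × (ℕ → Ω × T)
  hc : MeasurePreserving c P ((poissonMeasure r).prod (infinitePi fun _ : ℕ => P.prod θ))

attribute [instance] Tree.mΩ Tree.hP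

theorem nonempty_tree {T : Type} [MeasurableSpace T] (r : ℝ≥0) (θ : Measure T)
    [IsProbabilityMeasure θ] : Nonempty (Tree r θ) := by
  let P0 : Measure (List ℕ → ℕ × T) := infinitePi fun _ => (poissonMeasure r).prod θ
  have h1 := infinitePi_split ((poissonMeasure r).prod θ) ([] : List ℕ)
    (fun p : ℕ × List ℕ => p.1 :: p.2) (by
      rintro ⟨a, l⟩ ⟨b, l'⟩ h
      simpa using h) (by simp)
  have h2 := infinitePi_map_curry (fun (_ : ℕ) (_ : List ℕ) => (poissonMeasure r).prod θ)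
  have h3 : MeasurePreserving (fun ω : List ℕ → ℕ × T => (ω [], fun k l => ω (k :: l))) P0
      (((poissonMeasure r).prod θ).prod (infinitePi fun _ : ℕ => P0)) := by
    refine ⟨by fun_prop, ?_⟩
    have h4 : MeasurePreserving (Prod.map id (MeasurableEquiv.curry ℕ (List ℕ) (ℕ × T)))
        (((poissonMeasure r).prod θ).prod (infinitePi fun _ => (poissonMeasure r).prod θ))
        (((poissonMeasure r).prod θ).prod (infinitePi fun _ : ℕ => P0)) :=
      (MeasurePreserving.id _).prod ⟨by fun_prop, h2⟩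
    rw [← h4.map_eq, ← h1, Measure.map_map (by fun_prop) (by fun_prop)]
    rfl
  have h5 : MeasurePreserving
      (fun p : (ℕ × T) × (ℕ → List ℕ → ℕ × T) => ((p.1.1, p.2), p.1.2))
      (((poissonMeasure r).prod θ).prod (infinitePi fun _ : ℕ => P0))
      (((poissonMeasure r).prod (infinitePi fun _ : ℕ => P0)).prod θ) := by
    have a1 := measurePreserving_prodAssoc (poissonMeasure r) θ (infinitePi fun _ : ℕ => P0)
    have a2 := (MeasurePreserving.id (poissonMeasure r)).prod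
      (measurePreserving_swap (μ := θ) (ν := infinitePi fun _ : ℕ => P0))
    have a3 := (measurePreserving_prodAssoc (poissonMeasure r)
      (infinitePi fun _ : ℕ => P0) θ).symm
    exact a3.comp (a2.comp a1)
  have h6 := h5.comp h3
  refine ⟨⟨ℕ × (ℕ → List ℕ → ℕ × T), (poissonMeasure r).prod (infinitePi fun _ : ℕ => P0),
    Prod.map id fun ωs k => (((ωs k []).1, fun j l => ωs k (j :: l)), (ωs k []).2), ?_⟩⟩
  refine (MeasurePreserving.id _).prod ⟨by fun_prop, ?_⟩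
  have h7 := infinitePi_map_pi (fun _ : ℕ => P0) (fun _ => h6.measurable)
  rw [h6.map_eq] at h7
  exact h7

variable {T : Type} [MeasurableSpace T] {r : ℝ≥0} {θ : Measure T} [IsProbabilityMeasure θ]
  (t : Tree r θ)

/-- Sum of `v` over the marked children of the root. -/
def Tree.S {E : Type} [AddCommMonoid E] (v : t.Ω × T → E) (ω : t.Ω) : E :=
  ∑ k ∈ Finset.range (t.c ω).1, v ((t.c ω).2 k)

variable {E : Type} [AddCommMonoid E] [MeasurableSpace E] [MeasurableAdd₂ E]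

omit [IsProbabilityMeasure θ] in
lemma Tree.measurable_S {v : t.Ω × T → E} (hv : Measurable v) : Measurable (t.S v) := by
  have h : Measurable fun p : ℕ × (ℕ → t.Ω × T) => (p.1, fun k => v (p.2 k)) := by fun_prop
  exact measurable_sumUpTo.comp (h.comp t.hc.measurable)

lemma Tree.map_S {v : t.Ω × T → E} (hv : Measurable v) :
    t.P.map (t.S v) = cp r ((t.P.prod θ).map v) := by
  have h := infinitePi_map_pi (fun _ : ℕ => t.P.prod θ) (f := fun _ => v) (fun _ => hv)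
  rw [cp, ← h]
  conv_rhs => rw [← Measure.map_id (μ := poissonMeasure r)]
  rw [Measure.map_prod_map _ _ measurable_id (by fun_prop), ← t.hc.map_eq,
    Measure.map_map (by fun_prop) t.hc.measurable,
    Measure.map_map measurable_sumUpTo (Measurable.comp (by fun_prop) t.hc.measurable)]
  rfl

lemma Tree.ae_children {Q : t.Ω × T → Prop} (h : ∀ᵐ p ∂(t.P.prod θ), Q p) :
    ∀ᵐ ω ∂t.P, ∀ k, Q ((t.c ω).2 k) := by
  have h1 : ∀ᵐ ω ∂(infinitePi fun _ : ℕ => t.P.prod θ), ∀ k, Q (ω k) :=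
    ae_all_iff.mpr fun k =>
      (measurePreserving_eval_infinitePi (fun _ : ℕ => t.P.prod θ) k).quasiMeasurePreserving.ae h
  exact t.hc.quasiMeasurePreserving.ae ((quasiMeasurePreserving_snd (μ := poissonMeasure r)).ae h1)

/-- The recursive distributional operator attached to a one-edge map `w`. -/
noncomputable def op (r : ℝ≥0) (θ : Measure T) (w : E × T → E) (ρ : Measure E) : Measure E :=
  cp r ((ρ.prod θ).map w)

lemma op_prob {w : E × T → E} (hw : Measurable w) (ρ : Measure E) [IsProbabilityMeasure ρ] :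
    IsProbabilityMeasure (op r θ w ρ) := by
  have := isProbabilityMeasure_map (μ := ρ.prod θ) hw.aemeasurable
  unfold op
  infer_instance

lemma Tree.map_S_op {w : E × T → E} (hw : Measurable w) {G : t.Ω → E} (hG : Measurable G) :
    t.P.map (t.S fun p => w (G p.1, p.2)) = op r θ w (t.P.map G) := by
  have h := Measure.map_prod_map t.P θ hG measurable_id
  rw [Measure.map_id] at h
  rw [t.map_S (by fun_prop), op, h, Measure.map_map hw (by fun_prop)]
  rfl

lemma map_op {E' : Type} [AddCommMonoid E'] [MeasurableSpace E'] [MeasurableAdd₂ E']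
    {w : E × T → E} (hw : Measurable w) {w' : E' × T → E'} (hw' : Measurable w')
    (φ : E →+ E') (hφ : Measurable φ) (h : ∀ z e, φ (w (z, e)) = w' (φ z, e))
    (ρ : Measure E) [IsProbabilityMeasure ρ] :
    (op r θ w ρ).map φ = op r θ w' (ρ.map φ) := by
  have := isProbabilityMeasure_map (μ := ρ.prod θ) hw.aemeasurable
  rw [op, map_cp r _ φ hφ, op]
  conv_rhs => rw [← Measure.map_id (μ := θ)]
  rw [Measure.map_prod_map _ _ hφ measurable_id, Measure.map_map hw' (by fun_prop),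
    Measure.map_map hφ hw]
  congr 2
  ext p
  exact h p.1 p.2

lemma ae_op {w : E × T → E} (hw : Measurable w) {Q : E → Prop}
    (hQ : MeasurableSet {z | Q z}) (h0 : Q 0) (hadd : ∀ a b, Q a → Q b → Q (a + b))
    (ρ : Measure E) [IsProbabilityMeasure ρ] (h : ∀ᵐ p ∂(ρ.prod θ), Q (w p)) :
    ∀ᵐ z ∂op r θ w ρ, Q z := by
  have := isProbabilityMeasure_map (μ := ρ.prod θ) hw.aemeasurable
  exact ae_cp r _ hQ h0 hadd ((ae_map_iff hw.aemeasurable hQ).mpr h)

lemma mecke_op {w : E × T → E} (hw : Measurable w) (ρ : Measure E) [IsProbabilityMeasure ρ]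
    {l F : E → ℝ≥0∞} (hl : Measurable l) (h0 : l 0 = 0) (hadd : ∀ a b, l (a + b) = l a + l b)
    (hF : Measurable F) : ∫⁻ z, l z * F z ∂op r θ w ρ =
      r * ∫⁻ z', ∫⁻ e, l (w (z', e)) * ∫⁻ z, F (z + w (z', e)) ∂op r θ w ρ ∂θ ∂ρ := by
  have := isProbabilityMeasure_map (μ := ρ.prod θ) hw.aemeasurable
  rw [op, mecke r _ hl h0 hadd hF, lintegral_map (by fun_prop) hw,
    lintegral_prod _ (by fun_prop)]

lemma mecke_op_le {w : E × T → E} (hw : Measurable w) (ρ : Measure E) [IsProbabilityMeasure ρ]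
    {l F : E → ℝ≥0∞} (hl : Measurable l) (h0 : l 0 = 0) (hadd : ∀ a b, l (a + b) ≤ l a + l b)
    (hF : Measurable F) : ∫⁻ z, l z * F z ∂op r θ w ρ ≤
      r * ∫⁻ z', ∫⁻ e, l (w (z', e)) * ∫⁻ z, F (z + w (z', e)) ∂op r θ w ρ ∂θ ∂ρ := by
  have := isProbabilityMeasure_map (μ := ρ.prod θ) hw.aemeasurable
  refine (mecke_le r _ hl h0 hadd hF).trans (le_of_eq ?_)
  rw [op, lintegral_map (by fun_prop) hw, lintegral_prod _ (by fun_prop)]

end Pool.Agent.MP_75c26c_pr

end MrgPart0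

-- ======== part 1: formerly Pool.Agent.MP_75c26c_pr.SLaw
section MrgPart1

/-!
The recursion for `s = 1/X - 1`: minimal solution on the tree, and uniqueness of the fixed law.
-/

open MeasureTheory ProbabilityTheory Measure Filter Topology
open scoped ENNReal NNReal

set_option linter.unusedSectionVars false

namespace Pool.Agent.MP_75c26c_pr

lemma eq_of_close {S E : Type} [MeasurableSpace S] [NormedAddCommGroup E] [NormedSpace ℝ E]
    [CompleteSpace E] [SecondCountableTopology E] [MeasurableSpace E] [BorelSpace E]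
    {ν ν' : Measure E} [IsProbabilityMeasure ν] [IsProbabilityMeasure ν']
    (ρ : ℕ → Measure S) [∀ n, IsProbabilityMeasure (ρ n)] {f g : S → E} (hf : Measurable f)
    (hg : Measurable g) (h1 : ∀ n, (ρ n).map f = ν) (h2 : ∀ n, (ρ n).map g = ν')
    (h : Tendsto (fun n => ∫⁻ z, ‖f z - g z‖ₑ ∂ρ n) atTop (𝓝 0)) : ν = ν' := by
  refine Measure.ext_of_charFunDual (funext fun L => ?_)
  have hm : ∀ {f : S → E}, Measurable f → ∀ n,
      Integrable (fun z => Complex.exp (L (f z) * Complex.I)) (ρ n) := fun hf n =>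
    Integrable.of_bound (by fun_prop) 1 (ae_of_all _ fun z => by
      rw [Complex.norm_exp_ofReal_mul_I])
  have key : ∀ n, ‖charFunDual ν L - charFunDual ν' L‖ₑ ≤ ‖L‖ₑ * ∫⁻ z, ‖f z - g z‖ₑ ∂ρ n := by
    intro n
    rw [← h1 n, ← h2 n, charFunDual_apply, charFunDual_apply,
      integral_map hf.aemeasurable (by fun_prop), integral_map hg.aemeasurable (by fun_prop),
      ← integral_sub (hm hf n) (hm hg n), ← lintegral_const_mul _ (by fun_prop)]
    refine (enorm_integral_le_lintegral_enorm _).trans (lintegral_mono fun z => ?_)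
    have h3 : ‖Complex.exp (L (f z) * Complex.I) - Complex.exp (L (g z) * Complex.I)‖ ≤
        ‖L‖ * ‖f z - g z‖ := by
      have h4 : Complex.exp (L (f z) * Complex.I) - Complex.exp (L (g z) * Complex.I) =
          Complex.exp (L (g z) * Complex.I) *
            (Complex.exp (Complex.I * (L (f z - g z) : ℝ)) - 1) := by
        rw [mul_sub, ← Complex.exp_add, map_sub]
        push_cast
        ring_nf
      rw [h4, norm_mul, Complex.norm_exp_ofReal_mul_I, one_mul]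
      exact (Real.norm_exp_I_mul_ofReal_sub_one_le).trans (L.le_opNorm _)
    rw [← ofReal_norm, ← ofReal_norm, ← ofReal_norm,
      ← ENNReal.ofReal_mul (norm_nonneg _)]
    exact ENNReal.ofReal_le_ofReal h3
  have h5 := ENNReal.Tendsto.const_mul (a := ‖L‖ₑ) h (Or.inr enorm_ne_top)
  rw [mul_zero] at h5
  have h6 := ge_of_tendsto' h5 key
  rwa [nonpos_iff_eq_zero, enorm_eq_zero, sub_eq_zero] at h6

/-- Weight of an edge at the parent. -/
noncomputable def aa (γ : ℝ≥0) (e : ℝ × ℝ) : ℝ≥0 := NNReal.sqrt γ * ‖e.2‖₊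

/-- Weight of an edge at the child. -/
noncomputable def bb (γ : ℝ≥0) (e : ℝ × ℝ) : ℝ≥0 := NNReal.sqrt γ * ‖e.1‖₊

@[fun_prop] lemma measurable_aa (γ : ℝ≥0) : Measurable (aa γ) := by unfold aa; fun_prop

@[fun_prop] lemma measurable_bb (γ : ℝ≥0) : Measurable (bb γ) := by unfold bb; fun_prop

/-- Contribution of a child to `s`. -/
noncomputable def rr (γ : ℝ≥0) (p : ℝ≥0 × (ℝ × ℝ)) : ℝ≥0 :=
  aa γ p.2 ^ 2 * (1 + p.1) / (1 + p.1 + bb γ p.2 ^ 2)

@[fun_prop] lemma measurable_rr (γ : ℝ≥0) : Measurable (rr γ) := by unfold rr; fun_prop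

lemma rr_le (γ : ℝ≥0) (p : ℝ≥0 × (ℝ × ℝ)) : rr γ p ≤ aa γ p.2 ^ 2 := by
  unfold rr
  rw [div_le_iff₀ (by positivity)]
  exact mul_le_mul_right le_self_add _

lemma rr_mono (γ : ℝ≥0) (e : ℝ × ℝ) : Monotone fun s => rr γ (s, e) := by
  intro s s' h
  unfold rr
  rw [div_le_div_iff₀ (by positivity) (by positivity), ← NNReal.coe_le_coe]
  have h' : (s : ℝ) ≤ s' := h
  push_cast
  have h1 : (0 : ℝ) ≤ (aa γ e : ℝ) ^ 2 * (bb γ e : ℝ) ^ 2 * (s' - s) :=
    mul_nonneg (by positivity) (sub_nonneg.mpr h')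
  nlinarith

lemma rr_cont (γ : ℝ≥0) (e : ℝ × ℝ) : Continuous fun s => rr γ (s, e) := by
  simp only [rr]
  fun_prop (disch := intro _; positivity)

variable {r γ : ℝ≥0} {D : Measure ℝ} [IsProbabilityMeasure D]

section tree
variable (γ) (t : Tree r (D.prod D))

/-- Approximants of the minimal solution. -/
noncomputable def sN : ℕ → t.Ω → ℝ≥0
  | 0 => fun _ => 0
  | n + 1 => t.S fun p => rr γ (sN n p.1, p.2)

lemma measurable_sN (n : ℕ) : Measurable (sN γ t n) := by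
  induction n with
  | zero => exact measurable_const
  | succ n ih => exact t.measurable_S (by fun_prop)

lemma sN_mono (ω : t.Ω) : Monotone fun n => sN γ t n ω := by
  have h : ∀ n ω, sN γ t n ω ≤ sN γ t (n + 1) ω := by
    intro n
    induction n with
    | zero => exact fun ω => zero_le
    | succ n ih => exact fun ω => Finset.sum_le_sum fun k _ => rr_mono γ _ (ih _)
  exact monotone_nat_of_le_succ fun n => h n ω

lemma sN_bdd (ω : t.Ω) : BddAbove (Set.range fun n => sN γ t n ω) := by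
  refine ⟨t.S (fun p => aa γ p.2 ^ 2) ω, ?_⟩
  rintro _ ⟨n, rfl⟩
  cases n with
  | zero => exact zero_le
  | succ n => exact Finset.sum_le_sum fun k _ => rr_le γ _

/-- The minimal solution on the tree. -/
noncomputable def sS (ω : t.Ω) : ℝ≥0 := ⨆ n, sN γ t n ω

lemma measurable_sS : Measurable (sS γ t) := Measurable.iSup (measurable_sN γ t)

lemma tendsto_sN (ω : t.Ω) : Tendsto (fun n => sN γ t n ω) atTop (𝓝 (sS γ t ω)) :=
  tendsto_atTop_ciSup (sN_mono γ t ω) (sN_bdd γ t ω)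

lemma sS_eq : sS γ t = t.S fun p => rr γ (sS γ t p.1, p.2) := by
  funext ω
  refine tendsto_nhds_unique ((tendsto_add_atTop_iff_nat 1).mpr (tendsto_sN γ t ω)) ?_
  exact tendsto_finsetSum _ fun k _ => ((rr_cont γ _).tendsto _).comp (tendsto_sN γ t _)

lemma op_sS : op r (D.prod D) (rr γ) (t.P.map (sS γ t)) = t.P.map (sS γ t) := by
  rw [← t.map_S_op (measurable_rr γ) (measurable_sS γ t), ← sS_eq]

end tree

/-- The kernel appearing in the Mecke formula. -/
noncomputable def qq (γ : ℝ≥0) (s z : ℝ≥0) (e : ℝ × ℝ) : ℝ≥0 :=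
  rr γ (s, e) / (1 + z + rr γ (s, e))

lemma qq_eq (γ s z : ℝ≥0) (e : ℝ × ℝ) : qq γ s z e =
    aa γ e ^ 2 * (1 + s) / ((1 + s) * (1 + z) + bb γ e ^ 2 * (1 + z) + aa γ e ^ 2 * (1 + s)) := by
  unfold qq rr
  rw [← NNReal.coe_inj]
  push_cast
  field_simp

@[fun_prop] lemma measurable_qq {X : Type} [MeasurableSpace X] (γ : ℝ≥0) {f g : X → ℝ≥0}
    {h : X → ℝ × ℝ} (hf : Measurable f) (hg : Measurable g) (hh : Measurable h) :
    Measurable fun x => qq γ (f x) (g x) (h x) := by unfold qq; fun_prop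

/-- The function `L`. -/
noncomputable def LL (r γ : ℝ≥0) (D : Measure ℝ) (σ : Measure ℝ≥0) (z : ℝ≥0) : ℝ≥0∞ :=
  r * ∫⁻ s, ∫⁻ e, qq γ s z e ∂(D.prod D) ∂σ

lemma measurable_LL (σ : Measure ℝ≥0) [IsProbabilityMeasure σ] : Measurable (LL r γ D σ) := by
  unfold LL; fun_prop

lemma lintegral_LL {σ : Measure ℝ≥0} [IsProbabilityMeasure σ]
    (hσ : op r (D.prod D) (rr γ) σ = σ) (u : ℝ≥0) :
    ∫⁻ s, LL r γ D σ (s + u) ∂σ = ∫⁻ s, ((s / (1 + s + u) : ℝ≥0) : ℝ≥0∞) ∂σ := by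
  have h := mecke_op (r := r) (θ := D.prod D) (measurable_rr γ) σ (l := fun s => (s : ℝ≥0∞))
    (F := fun s => (((1 + s + u)⁻¹ : ℝ≥0) : ℝ≥0∞)) (by fun_prop) (by simp) (by simp) (by fun_prop)
  rw [hσ] at h
  simp_rw [div_eq_mul_inv, ENNReal.coe_mul]
  rw [h]
  unfold LL
  rw [lintegral_const_mul _ (by fun_prop), lintegral_lintegral_swap (by fun_prop)]
  congr 1
  refine lintegral_congr fun s' => ?_
  rw [lintegral_lintegral_swap (by fun_prop)]
  refine lintegral_congr fun e => ?_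
  rw [← lintegral_const_mul _ (by fun_prop)]
  refine lintegral_congr fun s => ?_
  rw [← ENNReal.coe_mul, qq, div_eq_mul_inv]
  congr 3
  ring

/-- The symmetrised kernel. -/
noncomputable def jj (γ : ℝ≥0) (s z : ℝ≥0) (e : ℝ × ℝ) : ℝ≥0 := qq γ s z e + qq γ z s e.swap

lemma jj_eq (γ s z : ℝ≥0) (e : ℝ × ℝ) : (jj γ s z e : ℝ) =
    1 - (1 + (bb γ e : ℝ) ^ 2 / (1 + s) + (aa γ e : ℝ) ^ 2 / (1 + z))⁻¹ := by
  have h1 : aa γ e.swap = bb γ e := rfl
  have h2 : bb γ e.swap = aa γ e := rfl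
  rw [jj, qq_eq, qq_eq, h1, h2]
  push_cast
  field_simp
  ring

lemma jj_le_one (γ s z : ℝ≥0) (e : ℝ × ℝ) : jj γ s z e ≤ 1 := by
  rw [← NNReal.coe_le_coe, jj_eq]
  simp only [NNReal.coe_one, tsub_le_iff_right, le_add_iff_nonneg_right]
  positivity

lemma jj_anti (γ : ℝ≥0) {s s' z z' : ℝ≥0} (h : s ≤ s') (h' : z ≤ z') (e : ℝ × ℝ) :
    jj γ s' z' e ≤ jj γ s z e := by
  rw [← NNReal.coe_le_coe, jj_eq, jj_eq]
  gcongr

lemma jj_cont_left (γ z : ℝ≥0) (e : ℝ × ℝ) : Continuous fun s => jj γ s z e := by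
  simp only [jj, qq_eq]
  fun_prop (disch := intro _; positivity)

lemma jj_cont_right (γ s : ℝ≥0) (e : ℝ × ℝ) : Continuous fun z => jj γ s z e := by
  simp only [jj, qq_eq]
  fun_prop (disch := intro _; positivity)

@[fun_prop] lemma measurable_jj {X : Type} [MeasurableSpace X] (γ : ℝ≥0) {f g : X → ℝ≥0}
    {h : X → ℝ × ℝ} (hf : Measurable f) (hg : Measurable g) (hh : Measurable h) :
    Measurable fun x => jj γ (f x) (g x) (h x) := by unfold jj; fun_prop

lemma lintegral_swap_edge {F : ℝ × ℝ → ℝ≥0∞} (hF : Measurable F) :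
    ∫⁻ e, F e.swap ∂(D.prod D) = ∫⁻ e, F e ∂(D.prod D) :=
  (measurePreserving_swap (μ := D) (ν := D)).lintegral_comp hF

lemma two_mul_mean {σ : Measure ℝ≥0} [IsProbabilityMeasure σ]
    (hσ : op r (D.prod D) (rr γ) σ = σ) :
    2 * ∫⁻ s, ((s / (1 + s) : ℝ≥0) : ℝ≥0∞) ∂σ =
      r * ∫⁻ z, ∫⁻ s, ∫⁻ e, jj γ s z e ∂(D.prod D) ∂σ ∂σ := by
  have h := lintegral_LL hσ 0
  simp only [add_zero] at h
  rw [← h]
  unfold LL
  rw [lintegral_const_mul _ (by fun_prop), mul_left_comm, two_mul]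
  congr 1
  have h1 : ∀ z s, ∫⁻ e, jj γ s z e ∂(D.prod D) =
      ∫⁻ e, qq γ s z e ∂(D.prod D) + ∫⁻ e, qq γ z s e ∂(D.prod D) := by
    intro z s
    simp only [jj, ENNReal.coe_add]
    rw [lintegral_add_left (by fun_prop),
      lintegral_swap_edge (F := fun e => qq γ z s e) (by fun_prop)]
  simp_rw [h1]
  have h2 : ∀ z, ∫⁻ s, ∫⁻ e, qq γ s z e ∂(D.prod D) + ∫⁻ e, qq γ z s e ∂(D.prod D) ∂σ =
      ∫⁻ s, ∫⁻ e, qq γ s z e ∂(D.prod D) ∂σ + ∫⁻ s, ∫⁻ e, qq γ z s e ∂(D.prod D) ∂σ :=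
    fun z => lintegral_add_left (by fun_prop) _
  simp_rw [h2]
  rw [lintegral_add_left (by fun_prop)]
  congr 1
  exact lintegral_lintegral_swap (by fun_prop)

theorem sLaw_unique (t : Tree r (D.prod D)) {σ : Measure ℝ≥0} [IsProbabilityMeasure σ]
    (hσ : op r (D.prod D) (rr γ) σ = σ) : σ = t.P.map (sS γ t) := by
  set σ' := t.P.map (sS γ t) with hσ'def
  have := isProbabilityMeasure_map (μ := t.P) (measurable_sS γ t).aemeasurable
  have hσ' : op r (D.prod D) (rr γ) σ' = σ' := op_sS γ t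
  let w : (ℝ≥0 × ℝ≥0 × ℝ≥0) × (ℝ × ℝ) → ℝ≥0 × ℝ≥0 × ℝ≥0 := fun p =>
    (rr γ (p.1.1, p.2), rr γ (p.1.2.1, p.2), rr γ (p.1.2.2, p.2))
  have hw : Measurable w := by fun_prop
  let ρ : ℕ → Measure (ℝ≥0 × ℝ≥0 × ℝ≥0) := fun n =>
    (op r (D.prod D) w)^[n] (σ.prod (σ'.prod (dirac 0)))
  have hρs : ∀ n, ρ (n + 1) = op r (D.prod D) w (ρ n) := fun n => Function.iterate_succ_apply' _ _ _
  have hρ : ∀ n, IsProbabilityMeasure (ρ n) := by
    intro n
    induction n with
    | zero => exact inferInstanceAs (IsProbabilityMeasure (σ.prod (σ'.prod (dirac 0))))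
    | succ n ih => rw [hρs]; exact op_prob hw _
  have m1 : ∀ n, (ρ n).map (fun p => p.1) = σ := by
    intro n
    induction n with
    | zero => exact Measure.fst_prod
    | succ n ih =>
      have h := map_op (r := r) (θ := D.prod D) hw (measurable_rr γ) (AddMonoidHom.fst _ _)
        measurable_fst (fun _ _ => rfl) (ρ n)
      rw [hρs]
      exact h.trans ((congrArg _ ih).trans hσ)
  have m2 : ∀ n, (ρ n).map (fun p => p.2.1) = σ' := by
    intro n
    induction n with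
    | zero =>
      have h : (σ.prod (σ'.prod (dirac (0 : ℝ≥0)))).map Prod.snd = σ'.prod (dirac 0) :=
        Measure.snd_prod
      have h' : (σ'.prod (dirac (0 : ℝ≥0))).map Prod.fst = σ' := Measure.fst_prod
      rw [← h', ← h, Measure.map_map measurable_fst measurable_snd]
      rfl
    | succ n ih =>
      have h := map_op (r := r) (θ := D.prod D) hw (measurable_rr γ)
        ((AddMonoidHom.fst _ _).comp (AddMonoidHom.snd _ _))
        (measurable_fst.comp measurable_snd) (fun _ _ => rfl) (ρ n)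
      rw [hρs]
      exact h.trans ((congrArg _ ih).trans hσ')
  have m3 : ∀ n, (ρ n).map (fun p => p.2.2) = t.P.map (sN γ t n) := by
    intro n
    induction n with
    | zero =>
      have h : (σ.prod (σ'.prod (dirac (0 : ℝ≥0)))).map Prod.snd = σ'.prod (dirac 0) :=
        Measure.snd_prod
      have h' : (σ'.prod (dirac (0 : ℝ≥0))).map Prod.snd = dirac 0 := Measure.snd_prod
      have h'' : t.P.map (sN γ t 0) = dirac 0 := by simp [sN]
      rw [h'', ← h', ← h, Measure.map_map measurable_snd measurable_snd]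
      rfl
    | succ n ih =>
      have h := map_op (r := r) (θ := D.prod D) hw (measurable_rr γ)
        ((AddMonoidHom.snd _ _).comp (AddMonoidHom.snd _ _))
        (measurable_snd.comp measurable_snd) (fun _ _ => rfl) (ρ n)
      rw [hρs]
      exact h.trans ((congrArg _ ih).trans
        (t.map_S_op (measurable_rr γ) (measurable_sN γ t n)).symm)
  have hQ : MeasurableSet {p : ℝ≥0 × ℝ≥0 × ℝ≥0 | p.2.2 ≤ p.1 ∧ p.2.2 ≤ p.2.1} :=
    (measurableSet_le (by fun_prop) (by fun_prop)).inter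
      (measurableSet_le (by fun_prop) (by fun_prop))
  have hord : ∀ n, ∀ᵐ p ∂ρ n, p.2.2 ≤ p.1 ∧ p.2.2 ≤ p.2.1 := by
    intro n
    induction n with
    | zero =>
      have h : ∀ᵐ p ∂ρ 0, p.2.2 = 0 := by
        have h1 : ∀ᵐ s ∂((ρ 0).map fun p => p.2.2), s = 0 := by
          rw [m3 0]; simp [sN]
        exact ae_of_ae_map (by fun_prop) h1
      filter_upwards [h] with p hp
      simp [hp]
    | succ n ih =>
      rw [hρs]
      refine ae_op hw hQ (by simp) (fun a b ha hb => ⟨add_le_add ha.1 hb.1, add_le_add ha.2 hb.2⟩)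
        _ ?_
      filter_upwards [(quasiMeasurePreserving_fst (ν := D.prod D)).ae ih] with p hp
      exact ⟨rr_mono γ _ hp.1, rr_mono γ _ hp.2⟩
  have hlim : ∀ f : ℝ≥0 → ℝ≥0, Continuous f → (∀ s, f s ≤ 1) →
      Tendsto (fun n => ∫⁻ p, f p.2.2 ∂ρ n) atTop (𝓝 (∫⁻ s, f s ∂σ')) := by
    intro f hf hb
    have h1 : ∀ n, ∫⁻ p, f p.2.2 ∂ρ n = ∫⁻ ω, f (sN γ t n ω) ∂t.P := by
      intro n
      rw [← lintegral_map (f := fun s => (f s : ℝ≥0∞)) (by fun_prop) (measurable_sN γ t n), ← m3,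
        lintegral_map (by fun_prop) (by fun_prop)]
    simp_rw [h1]
    rw [hσ'def, lintegral_map (by fun_prop) (measurable_sS γ t)]
    refine tendsto_lintegral_of_dominated_convergence (fun _ => 1)
      (fun n => by have := measurable_sN γ t n; fun_prop)
      (fun n => ae_of_all _ fun ω => by simpa using hb _) (by simp) (ae_of_all _ fun ω => ?_)
    exact ENNReal.tendsto_coe.mpr ((hf.tendsto _).comp (tendsto_sN γ t ω))
  have hSO : ∀ f : ℝ≥0 → ℝ≥0, Continuous f → (∀ s, f s ≤ 1) → Antitone f →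
      ∫⁻ s, f s ∂σ ≤ ∫⁻ s, f s ∂σ' := by
    intro f hf hb ha
    refine ge_of_tendsto' (hlim f hf hb) fun n => ?_
    rw [← m1 n, lintegral_map (by fun_prop) (by fun_prop)]
    refine lintegral_mono_ae ?_
    filter_upwards [hord n] with p hp
    exact ENNReal.coe_le_coe.mpr (ha hp.1)
  have hJ : ∫⁻ z, ∫⁻ s, ∫⁻ e, jj γ s z e ∂(D.prod D) ∂σ ∂σ ≤
      ∫⁻ z, ∫⁻ s, ∫⁻ e, jj γ s z e ∂(D.prod D) ∂σ' ∂σ' := by
    calc _ ≤ ∫⁻ z, ∫⁻ s, ∫⁻ e, jj γ s z e ∂(D.prod D) ∂σ' ∂σ := by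
          refine lintegral_mono fun z => ?_
          rw [lintegral_lintegral_swap (by fun_prop), lintegral_lintegral_swap (μ := σ')
            (by fun_prop)]
          exact lintegral_mono fun e => hSO _ (jj_cont_left γ z e) (fun s => jj_le_one γ s z e)
            (fun s s' h => jj_anti γ h le_rfl e)
      _ ≤ _ := by
          rw [lintegral_lintegral_swap (by fun_prop), lintegral_lintegral_swap (μ := σ') (ν := σ')
            (by fun_prop)]
          refine lintegral_mono fun s => ?_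
          rw [lintegral_lintegral_swap (by fun_prop), lintegral_lintegral_swap (μ := σ')
            (by fun_prop)]
          exact lintegral_mono fun e => hSO _ (jj_cont_right γ s e) (fun z => jj_le_one γ s z e)
            (fun z z' h => jj_anti γ le_rfl h e)
  have hphi : ∫⁻ s, ((s / (1 + s) : ℝ≥0) : ℝ≥0∞) ∂σ ≤ ∫⁻ s, ((s / (1 + s) : ℝ≥0) : ℝ≥0∞) ∂σ' := by
    rw [← ENNReal.mul_le_mul_iff_right (a := 2) (by simp) (by simp), two_mul_mean hσ,
      two_mul_mean hσ']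
    gcongr
  have hsum : ∀ (ν : Measure ℝ≥0) [IsProbabilityMeasure ν],
      ∫⁻ s, (((1 + s)⁻¹ : ℝ≥0) : ℝ≥0∞) ∂ν + ∫⁻ s, ((s / (1 + s) : ℝ≥0) : ℝ≥0∞) ∂ν = 1 := by
    intro ν _
    rw [← lintegral_add_left (by fun_prop)]
    have : ∀ s : ℝ≥0, (((1 + s)⁻¹ : ℝ≥0) : ℝ≥0∞) + ((s / (1 + s) : ℝ≥0) : ℝ≥0∞) = 1 := by
      intro s
      rw [← ENNReal.coe_add, ENNReal.coe_eq_one]
      field_simp
    simp_rw [this]
    simp
  set m := ∫⁻ s, (((1 + s)⁻¹ : ℝ≥0) : ℝ≥0∞) ∂σ' with hm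
  have hm1 : m ≠ ⊤ := ne_top_of_le_ne_top ENNReal.one_ne_top (hsum σ' ▸ le_self_add)
  have hmm : m ≤ ∫⁻ s, (((1 + s)⁻¹ : ℝ≥0) : ℝ≥0∞) ∂σ := by
    have h1 : ∫⁻ s, ((s / (1 + s) : ℝ≥0) : ℝ≥0∞) ∂σ' ≠ ⊤ :=
      ne_top_of_le_ne_top ENNReal.one_ne_top (hsum σ' ▸ le_add_self)
    rw [← ENNReal.add_le_add_iff_right h1, hsum σ', ← hsum σ]
    gcongr
  have hx : Measurable fun s : ℝ≥0 => (((1 + s)⁻¹ : ℝ≥0) : ℝ) := by fun_prop
  have := isProbabilityMeasure_map (μ := σ) hx.aemeasurable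
  have := isProbabilityMeasure_map (μ := σ') hx.aemeasurable
  have hfin := eq_of_close (ν := σ.map fun s : ℝ≥0 => (((1 + s)⁻¹ : ℝ≥0) : ℝ))
    (ν' := σ'.map fun s : ℝ≥0 => (((1 + s)⁻¹ : ℝ≥0) : ℝ)) ρ
    (f := fun p => (((1 + p.1)⁻¹ : ℝ≥0) : ℝ)) (g := fun p => (((1 + p.2.1)⁻¹ : ℝ≥0) : ℝ))
    (by fun_prop) (by fun_prop)
    (fun n => by rw [← m1 n, Measure.map_map hx (by fun_prop)]; rfl)
    (fun n => by rw [← m2 n, Measure.map_map hx (by fun_prop)]; rfl) (by
      have h1 := hlim (fun s => (1 + s)⁻¹) (by fun_prop (disch := intro _; positivity))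
        (fun s => inv_le_one_of_one_le₀ le_self_add)
      have h2 := ENNReal.Tendsto.sub (h1.add h1) (tendsto_const_nhds (x := m + m))
        (Or.inr (ENNReal.add_ne_top.mpr ⟨hm1, hm1⟩))
      rw [← hm, tsub_self] at h2
      refine tendsto_of_tendsto_of_tendsto_of_le_of_le tendsto_const_nhds h2
        (fun _ => zero_le) fun n => ?_
      refine ENNReal.le_sub_of_add_le_right (ENNReal.add_ne_top.mpr ⟨hm1, hm1⟩) ?_
      calc _ ≤ ∫⁻ p, ‖(((1 + p.1)⁻¹ : ℝ≥0) : ℝ) - (((1 + p.2.1)⁻¹ : ℝ≥0) : ℝ)‖ₑ ∂ρ n +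
            (∫⁻ p, (((1 + p.1)⁻¹ : ℝ≥0) : ℝ≥0∞) ∂ρ n +
              ∫⁻ p, (((1 + p.2.1)⁻¹ : ℝ≥0) : ℝ≥0∞) ∂ρ n) := by
            gcongr
            · rw [← m1 n, lintegral_map (by fun_prop) (by fun_prop)] at hmm
              exact hmm
            · rw [hm, ← m2 n, lintegral_map (by fun_prop) (by fun_prop)]
        _ ≤ _ := by
            rw [← lintegral_add_left (by fun_prop), ← lintegral_add_left (by fun_prop),
              ← lintegral_add_left (by fun_prop)]
            refine lintegral_mono_ae ?_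
            filter_upwards [hord n] with p hp
            rw [← ENNReal.coe_add, ← ENNReal.coe_add, enorm_eq_nnnorm, ← ENNReal.coe_add,
              ENNReal.coe_le_coe, ← NNReal.coe_le_coe]
            have a1 : (((1 + p.1)⁻¹ : ℝ≥0) : ℝ) ≤ ((1 + p.2.2)⁻¹ : ℝ≥0) := by
              have := hp.1
              gcongr
            have a2 : (((1 + p.2.1)⁻¹ : ℝ≥0) : ℝ) ≤ ((1 + p.2.2)⁻¹ : ℝ≥0) := by
              have := hp.2
              gcongr
            rw [NNReal.coe_add, NNReal.coe_add, NNReal.coe_add, coe_nnnorm, Real.norm_eq_abs]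
            rcases abs_cases ((((1 + p.1)⁻¹ : ℝ≥0) : ℝ) - (((1 + p.2.1)⁻¹ : ℝ≥0) : ℝ)) with h | h <;>
              linarith [h.1])
  have hinv : (fun x : ℝ => (x⁻¹ - 1).toNNReal) ∘ (fun s : ℝ≥0 => (((1 + s)⁻¹ : ℝ≥0) : ℝ)) = id := by
    funext s
    simp
  have h := congrArg (Measure.map fun x : ℝ => (x⁻¹ - 1).toNNReal) hfin
  rwa [Measure.map_map (by fun_prop) hx, Measure.map_map (by fun_prop) hx, hinv, Measure.map_id,
    Measure.map_id] at h

end Pool.Agent.MP_75c26c_pr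

end MrgPart1

-- ======== part 2: formerly Pool.Agent.MP_75c26c_pr.Decay
section MrgPart2

/-!
Transfer operators along a spine and the summability of the first moments.
-/

open MeasureTheory ProbabilityTheory Measure Filter Topology
open scoped ENNReal NNReal

set_option linter.unusedSectionVars false

namespace Pool.Agent.MP_75c26c_pr

variable (r γ : ℝ≥0) (D : Measure ℝ) [IsProbabilityMeasure D] (σ : Measure ℝ≥0)
  [IsProbabilityMeasure σ]

/-- Transfer operator with edge weight `v`. -/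
noncomputable def KK (v : ℝ≥0 × (ℝ × ℝ) → ℝ≥0) (g : ℝ≥0 → ℝ≥0∞) (z : ℝ≥0) : ℝ≥0∞ :=
  r * ∫⁻ e, v (z, e) * ∫⁻ s, g (s + rr γ (z, e)) ∂σ ∂(D.prod D)

/-- The weight `c / (1 + s + b ^ 2)`. -/
noncomputable def wt (c : ℝ × ℝ → ℝ≥0) (p : ℝ≥0 × (ℝ × ℝ)) : ℝ≥0 :=
  c p.2 / (1 + p.1 + bb γ p.2 ^ 2)

/-- The function `x = 1 / (1 + s)`. -/
noncomputable def xx (s : ℝ≥0) : ℝ≥0∞ := (((1 + s)⁻¹ : ℝ≥0) : ℝ≥0∞)

@[fun_prop] lemma measurable_xx : Measurable xx := by unfold xx; fun_prop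

lemma xx_anti : Antitone xx := fun s s' h => by
  unfold xx
  gcongr

lemma xx_le_one (s : ℝ≥0) : xx s ≤ 1 := by
  simp [xx]

variable {r γ D σ}

lemma measurable_wt {c : ℝ × ℝ → ℝ≥0} (hc : Measurable c) : Measurable (wt γ c) := by
  unfold wt; fun_prop

lemma measurable_KK {v : ℝ≥0 × (ℝ × ℝ) → ℝ≥0} (hv : Measurable v) {g : ℝ≥0 → ℝ≥0∞}
    (hg : Measurable g) : Measurable (KK r γ D σ v g) := by
  unfold KK; fun_prop

lemma measurable_KK_iter {v : ℝ≥0 × (ℝ × ℝ) → ℝ≥0} (hv : Measurable v) {g : ℝ≥0 → ℝ≥0∞}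
    (hg : Measurable g) (n : ℕ) : Measurable ((KK r γ D σ v)^[n] g) := by
  induction n with
  | zero => exact hg
  | succ n ih => rw [Function.iterate_succ_apply']; exact measurable_KK hv ih

lemma KK_mono {v : ℝ≥0 × (ℝ × ℝ) → ℝ≥0} {g g' : ℝ≥0 → ℝ≥0∞} (h : ∀ s, g s ≤ g' s) (z : ℝ≥0) :
    KK r γ D σ v g z ≤ KK r γ D σ v g' z := by
  unfold KK
  gcongr with e s
  exact h _

lemma KK_add {v : ℝ≥0 × (ℝ × ℝ) → ℝ≥0} (hv : Measurable v) {g g' : ℝ≥0 → ℝ≥0∞}
    (hg : Measurable g) (z : ℝ≥0) :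
    KK r γ D σ v (fun s => g s + g' s) z = KK r γ D σ v g z + KK r γ D σ v g' z := by
  unfold KK
  rw [← mul_add, ← lintegral_add_left (by fun_prop)]
  congr 1
  refine lintegral_congr fun e => ?_
  rw [lintegral_add_left (by fun_prop), mul_add]

lemma KK_const_mul {v : ℝ≥0 × (ℝ × ℝ) → ℝ≥0} (hv : Measurable v) {g : ℝ≥0 → ℝ≥0∞}
    (hg : Measurable g) (c : ℝ≥0∞) (z : ℝ≥0) :
    KK r γ D σ v (fun s => c * g s) z = c * KK r γ D σ v g z := by
  unfold KK
  rw [mul_left_comm c, ← lintegral_const_mul c (by fun_prop)]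
  congr 1
  refine lintegral_congr fun e => ?_
  rw [lintegral_const_mul _ (by fun_prop), mul_left_comm]

lemma KK_anti {v : ℝ≥0 × (ℝ × ℝ) → ℝ≥0} (hv : ∀ e, Antitone fun z => v (z, e))
    {g : ℝ≥0 → ℝ≥0∞} (hg : Antitone g) : Antitone (KK r γ D σ v g) := by
  intro z z' h
  unfold KK
  gcongr with e s
  · exact hv e h
  · exact hg (add_le_add_right (rr_mono γ e h) s)

lemma wt_anti (c : ℝ × ℝ → ℝ≥0) (e : ℝ × ℝ) : Antitone fun z => wt γ c (z, e) := by
  intro z z' h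
  simp only [wt]
  gcongr

lemma KK_iter_anti (c : ℝ × ℝ → ℝ≥0) {g : ℝ≥0 → ℝ≥0∞} (hg : Antitone g) (n : ℕ) :
    Antitone ((KK r γ D σ (wt γ c))^[n] g) := by
  induction n with
  | zero => exact hg
  | succ n ih => rw [Function.iterate_succ_apply']; exact KK_anti (wt_anti c) ih

lemma KK_wt_le {c : ℝ × ℝ → ℝ≥0} (hc : Measurable c) {g : ℝ≥0 → ℝ≥0∞} (hg : Antitone g)
    (z : ℝ≥0) :
    KK r γ D σ (wt γ c) g z ≤ xx z * ((r * ∫⁻ e, c e ∂(D.prod D)) * ∫⁻ s, g s ∂σ) := by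
  unfold KK
  rw [mul_assoc, mul_left_comm (xx z), ← lintegral_mul_const _ (by fun_prop),
    ← lintegral_const_mul (xx z) (by fun_prop)]
  refine mul_le_mul_right (lintegral_mono fun e => ?_) _
  beta_reduce
  rw [← mul_assoc, xx, ← ENNReal.coe_mul]
  gcongr with s
  · simp only [wt]
    rw [mul_comm, ← div_eq_mul_inv]
    exact div_le_div_of_nonneg_left zero_le (by positivity) le_self_add
  · exact hg le_self_add

section fixed
variable (hσ : op r (D.prod D) (rr γ) σ = σ)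
include hσ

lemma lintegral_KK_a {g : ℝ≥0 → ℝ≥0∞} (hg : Measurable g) :
    ∫⁻ z, (1 + z) * KK r γ D σ (wt γ fun e => aa γ e ^ 2) g z ∂σ = ∫⁻ s, s * g s ∂σ := by
  have h := mecke_op (r := r) (θ := D.prod D) (measurable_rr γ) σ (l := fun s => (s : ℝ≥0∞))
    (F := g) (by fun_prop) (by simp) (by simp) hg
  rw [hσ] at h
  have hv : Measurable (wt γ fun e => aa γ e ^ 2) := measurable_wt (by fun_prop)
  rw [h, ← lintegral_const_mul _ (by fun_prop)]
  refine lintegral_congr fun z => ?_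
  unfold KK
  rw [mul_left_comm, ← lintegral_const_mul (1 + (z : ℝ≥0∞)) (by fun_prop)]
  congr 1
  refine lintegral_congr fun e => ?_
  rw [← mul_assoc, ← ENNReal.coe_one, ← ENNReal.coe_add, ← ENNReal.coe_mul]
  congr 2
  simp only [wt, rr]
  rw [mul_comm, div_mul_eq_mul_div]

lemma sum_KK_a (n : ℕ) :
    ∑ j ∈ Finset.range n, ∫⁻ z, (KK r γ D σ (wt γ fun e => aa γ e ^ 2))^[j] xx z ∂σ +
      ∫⁻ z, (1 + z) * (KK r γ D σ (wt γ fun e => aa γ e ^ 2))^[n] xx z ∂σ = 1 := by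
  have hv : Measurable (wt γ fun e => aa γ e ^ 2) := measurable_wt (by fun_prop)
  induction n with
  | zero =>
    have : ∀ z : ℝ≥0, (1 + (z : ℝ≥0∞)) * xx z = 1 := by
      intro z
      rw [xx, ← ENNReal.coe_one, ← ENNReal.coe_add, ← ENNReal.coe_mul,
        mul_inv_cancel₀ (by positivity)]
    simp [this]
  | succ n ih =>
    have hm := measurable_KK_iter (r := r) (γ := γ) (D := D) (σ := σ) hv measurable_xx n
    rw [Finset.sum_range_succ, Function.iterate_succ_apply', lintegral_KK_a hσ hm, add_assoc,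
      ← lintegral_add_left hm, ← ih]
    simp_rw [add_mul, one_mul]

lemma KK_b_LL (z : ℝ≥0) :
    KK r γ D σ (wt γ fun e => bb γ e ^ 2) (fun s => xx s + LL r γ D σ s) z = LL r γ D σ z := by
  have hL := measurable_LL (r := r) (γ := γ) (D := D) σ
  unfold KK
  have h1 : ∀ u, ∫⁻ s, xx (s + u) + LL r γ D σ (s + u) ∂σ =
      ∫⁻ s, (((1 + s) / (1 + s + u) : ℝ≥0) : ℝ≥0∞) ∂σ := by
    intro u
    rw [lintegral_add_left (by fun_prop), lintegral_LL hσ, ← lintegral_add_left (by fun_prop)]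
    refine lintegral_congr fun s => ?_
    rw [xx, ← ENNReal.coe_add, add_div, one_div, add_assoc]
  simp_rw [h1]
  rw [LL, lintegral_lintegral_swap (by fun_prop),
    ← lintegral_swap_edge (F := fun e => ∫⁻ s, qq γ s z e ∂σ) (by fun_prop)]
  congr 1
  refine lintegral_congr fun e => ?_
  rw [← lintegral_const_mul _ (by fun_prop)]
  refine lintegral_congr fun s => ?_
  have h2 : aa γ e.swap = bb γ e := rfl
  have h3 : bb γ e.swap = aa γ e := rfl
  rw [← ENNReal.coe_mul, qq_eq, h2, h3, ENNReal.coe_inj, ← NNReal.coe_inj]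
  simp only [wt, rr]
  push_cast
  field_simp
  ring

lemma sum_KK_b (n : ℕ) (z : ℝ≥0) :
    ∑ j ∈ Finset.range n, (KK r γ D σ (wt γ fun e => bb γ e ^ 2))^[j] xx z +
      (KK r γ D σ (wt γ fun e => bb γ e ^ 2))^[n] (fun s => xx s + LL r γ D σ s) z =
      xx z + LL r γ D σ z := by
  have hv : Measurable (wt γ fun e => bb γ e ^ 2) := measurable_wt (by fun_prop)
  have hadd : ∀ (n : ℕ) (g g' : ℝ≥0 → ℝ≥0∞), Measurable g →
      (KK r γ D σ (wt γ fun e => bb γ e ^ 2))^[n] (fun s => g s + g' s) = fun z =>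
        (KK r γ D σ (wt γ fun e => bb γ e ^ 2))^[n] g z +
          (KK r γ D σ (wt γ fun e => bb γ e ^ 2))^[n] g' z := by
    intro n g g' hg
    induction n with
    | zero => rfl
    | succ n ih =>
      funext z
      rw [Function.iterate_succ_apply', Function.iterate_succ_apply', Function.iterate_succ_apply',
        ih, KK_add hv (measurable_KK_iter hv hg n)]
  induction n with
  | zero => simp
  | succ n ih =>
    rw [Finset.sum_range_succ, Function.iterate_succ_apply, funext (KK_b_LL hσ), ← ih,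
      hadd n _ _ measurable_xx, add_assoc]

end fixed

lemma LL_le (z : ℝ≥0) : LL r γ D σ z ≤ xx z * (r * ∫⁻ e, (aa γ e ^ 2 : ℝ≥0) ∂(D.prod D)) := by
  unfold LL
  rw [mul_left_comm, ← lintegral_const_mul (xx z) (by fun_prop)]
  gcongr
  calc _ ≤ ∫⁻ _, ∫⁻ e, xx z * (aa γ e ^ 2 : ℝ≥0) ∂(D.prod D) ∂σ := by
        gcongr with s e
        rw [xx, ← ENNReal.coe_mul, ENNReal.coe_le_coe, qq, mul_comm, ← div_eq_mul_inv]
        exact div_le_div₀ zero_le (rr_le γ _) (by positivity) le_self_add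
    _ = _ := by simp

lemma amgm (n : ℕ) : ∀ (z : ℝ≥0) (u : ℝ≥0), u ≠ 0 →
    2 * (KK r γ D σ (wt γ fun e => aa γ e * bb γ e))^[n] xx z ≤
      u * (KK r γ D σ (wt γ fun e => aa γ e ^ 2))^[n] xx z +
        (u⁻¹ : ℝ≥0) * (KK r γ D σ (wt γ fun e => bb γ e ^ 2))^[n] xx z := by
  have hv1 : Measurable (wt γ fun e => aa γ e * bb γ e) := measurable_wt (by fun_prop)
  have hv2 : Measurable (wt γ fun e => aa γ e ^ 2) := measurable_wt (by fun_prop)
  have hv3 : Measurable (wt γ fun e => bb γ e ^ 2) := measurable_wt (by fun_prop)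
  induction n with
  | zero =>
    intro z u hu
    simp only [Function.iterate_zero, id_eq]
    rw [← add_mul, ← ENNReal.coe_add]
    gcongr
    rw [← ENNReal.coe_two, ENNReal.coe_le_coe, ← NNReal.coe_le_coe]
    push_cast
    have h : (0 : ℝ) < u := by positivity
    have h2 : (u : ℝ) + (u : ℝ)⁻¹ - 2 = (u - 1) ^ 2 / u := by field_simp; ring
    have h3 : 0 ≤ ((u : ℝ) - 1) ^ 2 / u := by positivity
    linarith
  | succ n ih =>
    intro z u hu
    have hm1 := measurable_KK_iter (r := r) (γ := γ) (D := D) (σ := σ) hv1 measurable_xx n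
    have hm2 := measurable_KK_iter (r := r) (γ := γ) (D := D) (σ := σ) hv2 measurable_xx n
    have hm3 := measurable_KK_iter (r := r) (γ := γ) (D := D) (σ := σ) hv3 measurable_xx n
    simp only [Function.iterate_succ_apply']
    generalize (KK r γ D σ (wt γ fun e => aa γ e * bb γ e))^[n] xx = g1 at *
    generalize (KK r γ D σ (wt γ fun e => aa γ e ^ 2))^[n] xx = g2 at *
    generalize (KK r γ D σ (wt γ fun e => bb γ e ^ 2))^[n] xx = g3 at *
    unfold KK
    rw [mul_left_comm, mul_left_comm (u : ℝ≥0∞), mul_left_comm ((u⁻¹ : ℝ≥0) : ℝ≥0∞), ← mul_add,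
      ← lintegral_const_mul 2 (by fun_prop), ← lintegral_const_mul (u : ℝ≥0∞) (by fun_prop),
      ← lintegral_const_mul ((u⁻¹ : ℝ≥0) : ℝ≥0∞) (by fun_prop),
      ← lintegral_add_left (by fun_prop)]
    gcongr with e
    by_cases hab : aa γ e = 0 ∨ bb γ e = 0
    · have : wt γ (fun e => aa γ e * bb γ e) (z, e) = 0 := by
        rcases hab with h | h <;> simp [wt, h]
      simp [this]
    push Not at hab
    have h1 : 2 * ∫⁻ s, g1 (s + rr γ (z, e)) ∂σ ≤
        (u * aa γ e / bb γ e : ℝ≥0) * ∫⁻ s, g2 (s + rr γ (z, e)) ∂σ +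
          ((u * aa γ e / bb γ e)⁻¹ : ℝ≥0) * ∫⁻ s, g3 (s + rr γ (z, e)) ∂σ := by
      rw [← lintegral_const_mul _ (by fun_prop), ← lintegral_const_mul _ (by fun_prop),
        ← lintegral_const_mul _ (by fun_prop), ← lintegral_add_left (by fun_prop)]
      exact lintegral_mono fun s => ih _ _ (div_ne_zero (mul_ne_zero hu hab.1) hab.2)
    rw [mul_left_comm]
    refine (mul_le_mul_right h1 _).trans (le_of_eq ?_)
    rw [mul_add, ← mul_assoc, ← mul_assoc, ← mul_assoc, ← mul_assoc, ← ENNReal.coe_mul,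
      ← ENNReal.coe_mul, ← ENNReal.coe_mul, ← ENNReal.coe_mul]
    have ha := hab.1
    have hb := hab.2
    congr 3
    · simp only [wt]; field_simp
    · simp only [wt]; field_simp

/-- First moments along the spine. -/
noncomputable def tt (r γ : ℝ≥0) (D : Measure ℝ) (σ : Measure ℝ≥0) (n : ℕ) : ℝ≥0∞ :=
  ∫⁻ z, (KK r γ D σ (wt γ fun e => aa γ e * bb γ e))^[n] xx z ∂σ

theorem tsum_tt_ne_top (hσ : op r (D.prod D) (rr γ) σ = σ)
    (hD : ∫⁻ e, (aa γ e ^ 2 : ℝ≥0) ∂(D.prod D) ≠ ⊤) : ∑' n, tt r γ D σ n ≠ ⊤ := by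
  have hv2 : Measurable (wt γ fun e => aa γ e ^ 2) := measurable_wt (by fun_prop)
  have hv3 : Measurable (wt γ fun e => bb γ e ^ 2) := measurable_wt (by fun_prop)
  have hv1 : Measurable (wt γ fun e => aa γ e * bb γ e) := measurable_wt (by fun_prop)
  set M := r * ∫⁻ e, (aa γ e ^ 2 : ℝ≥0) ∂(D.prod D) with hM
  have hMt : M ≠ ⊤ := ENNReal.mul_ne_top (by simp) hD
  refine ne_top_of_le_ne_top (b := 1 + (1 + M)) (by simpa using hMt) ?_
  rw [ENNReal.tsum_eq_iSup_nat]
  refine iSup_le fun n => ?_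
  calc ∑ j ∈ Finset.range n, tt r γ D σ j
      ≤ ∑ j ∈ Finset.range n, (∫⁻ z, (KK r γ D σ (wt γ fun e => aa γ e ^ 2))^[j] xx z ∂σ +
          ∫⁻ z, (KK r γ D σ (wt γ fun e => bb γ e ^ 2))^[j] xx z ∂σ) := by
        refine Finset.sum_le_sum fun j _ => ?_
        rw [tt, ← lintegral_add_left (measurable_KK_iter hv2 measurable_xx j)]
        refine lintegral_mono fun z => ?_
        have h := amgm (r := r) (γ := γ) (D := D) (σ := σ) j z 1 one_ne_zero
        simp only [inv_one, ENNReal.coe_one, one_mul] at h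
        refine le_trans ?_ h
        rw [two_mul]
        exact le_self_add
    _ ≤ 1 + (1 + M) := by
        rw [Finset.sum_add_distrib]
        gcongr
        · exact le_self_add.trans (sum_KK_a hσ n).le
        · rw [← lintegral_finsetSum _ fun j _ => measurable_KK_iter hv3 measurable_xx j]
          calc _ ≤ ∫⁻ _, 1 + M ∂σ := by
                refine lintegral_mono fun z => ?_
                refine (le_self_add.trans (sum_KK_b hσ n z).le).trans ?_
                refine add_le_add (xx_le_one z) ((LL_le z).trans ?_)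
                exact mul_le_of_le_one_left' (xx_le_one z)
            _ = _ := by simp

end Pool.Agent.MP_75c26c_pr

end MrgPart2

-- ======== part 3: formerly Pool.Agent.MP_75c26c_pr.Joint
section MrgPart3

/-!
Existence and uniqueness of the joint fixed point with integrable first coordinate.
-/

open MeasureTheory ProbabilityTheory Measure Filter Topology
open scoped ENNReal NNReal

set_option linter.unusedSectionVars false

namespace Pool.Agent.MP_75c26c_pr

variable {r γ : ℝ≥0} {D : Measure ℝ} [IsProbabilityMeasure D]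

section mecke
variable {E : Type} [AddCommMonoid E] [MeasurableSpace E] [MeasurableAdd₂ E]
  {σ : Measure ℝ≥0} [IsProbabilityMeasure σ] (hσ : op r (D.prod D) (rr γ) σ = σ)
  {w : E × (ℝ × ℝ) → E} (hw : Measurable w) (φ : E →+ ℝ≥0) (hφ : Measurable φ)
  (hφw : ∀ z e, φ (w (z, e)) = rr γ (φ z, e)) (ρ : Measure E) [IsProbabilityMeasure ρ]
  (hρ : ρ.map φ = σ)
include hσ hw hφ hφw hρ

lemma map_op_phi : (op r (D.prod D) w ρ).map φ = σ := by
  rw [map_op hw (measurable_rr γ) φ hφ hφw ρ, hρ, hσ]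

lemma mecke_inner {g : ℝ≥0 → ℝ≥0∞} (hg : Measurable g) (z' : E) (e : ℝ × ℝ) :
    ∫⁻ z, g (φ (z + w (z', e))) ∂op r (D.prod D) w ρ = ∫⁻ s, g (s + rr γ (φ z', e)) ∂σ := by
  rw [← map_op_phi hσ hw φ hφ hφw ρ hρ, lintegral_map (by fun_prop) hφ]
  simp_rw [map_add, hφw]

lemma mecke_KK_le {l l' : E → ℝ≥0∞} (hl : Measurable l) (h0 : l 0 = 0)
    (hadd : ∀ a b, l (a + b) ≤ l a + l b) {v : ℝ≥0 × (ℝ × ℝ) → ℝ≥0} (hv : Measurable v)
    (hlw : ∀ z e, l (w (z, e)) ≤ l' z * v (φ z, e)) {g : ℝ≥0 → ℝ≥0∞} (hg : Measurable g) :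
    ∫⁻ z, l z * g (φ z) ∂op r (D.prod D) w ρ ≤ ∫⁻ z, l' z * KK r γ D σ v g (φ z) ∂ρ := by
  refine (mecke_op_le hw ρ hl h0 hadd (F := fun z => g (φ z)) (by fun_prop)).trans ?_
  simp_rw [mecke_inner hσ hw φ hφ hφw ρ hρ hg]
  rw [← lintegral_const_mul' _ _ (by simp)]
  refine lintegral_mono fun z => ?_
  unfold KK
  rw [mul_left_comm, ← lintegral_const_mul (l' z) (by fun_prop)]
  refine mul_le_mul_right (lintegral_mono fun e => ?_) _
  beta_reduce
  rw [← mul_assoc]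
  exact mul_le_mul_left (hlw z e) _

lemma mecke_KK {l l' : E → ℝ≥0∞} (hl : Measurable l) (h0 : l 0 = 0)
    (hadd : ∀ a b, l (a + b) = l a + l b) {v : ℝ≥0 × (ℝ × ℝ) → ℝ≥0} (hv : Measurable v)
    (hlw : ∀ z e, l (w (z, e)) = l' z * v (φ z, e)) {g : ℝ≥0 → ℝ≥0∞} (hg : Measurable g) :
    ∫⁻ z, l z * g (φ z) ∂op r (D.prod D) w ρ = ∫⁻ z, l' z * KK r γ D σ v g (φ z) ∂ρ := by
  rw [mecke_op hw ρ hl h0 hadd (F := fun z => g (φ z)) (by fun_prop)]
  simp_rw [mecke_inner hσ hw φ hφ hφw ρ hρ hg]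
  rw [← lintegral_const_mul' _ _ (by simp)]
  refine lintegral_congr fun z => ?_
  unfold KK
  rw [mul_left_comm, ← lintegral_const_mul (l' z) (by fun_prop)]
  congr 1
  refine lintegral_congr fun e => ?_
  rw [← mul_assoc, hlw]

end mecke

/-- The signed coefficient of a child. -/
noncomputable def co (γ : ℝ≥0) (p : ℝ≥0 × (ℝ × ℝ)) : ℝ :=
  - (γ * p.2.1 * p.2.2) / (1 + p.1 + γ * p.2.1 ^ 2)

@[fun_prop] lemma measurable_co (γ : ℝ≥0) : Measurable (co γ) := by unfold co; fun_prop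

lemma bb_sq (γ : ℝ≥0) (e : ℝ × ℝ) : (bb γ e : ℝ) ^ 2 = γ * e.1 ^ 2 := by
  simp [bb, mul_pow]

lemma aa_sq (γ : ℝ≥0) (e : ℝ × ℝ) : (aa γ e : ℝ) ^ 2 = γ * e.2 ^ 2 := by
  simp [aa, mul_pow]

lemma enorm_co (γ : ℝ≥0) (p : ℝ≥0 × (ℝ × ℝ)) :
    ‖co γ p‖ₑ = wt γ (fun e => aa γ e * bb γ e) p := by
  rw [enorm_eq_nnnorm, ENNReal.coe_inj, ← NNReal.coe_inj, coe_nnnorm, co, wt]
  push_cast
  rw [bb_sq, norm_div, norm_neg, Real.norm_of_nonneg (r := 1 + _ + _) (by positivity)]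
  congr 1
  simp only [aa, bb, norm_mul, NNReal.coe_mul, coe_nnnorm, NNReal.norm_eq]
  have h : (NNReal.sqrt γ : ℝ) * NNReal.sqrt γ = γ := by
    rw [← NNReal.coe_mul, NNReal.mul_self_sqrt]
  linear_combination (-(‖p.2.1‖ * ‖p.2.2‖)) * h

/-- The one-edge map of the joint recursion for `(s, U - 1)`. -/
noncomputable def ww (γ : ℝ≥0) (p : (ℝ≥0 × ℝ) × (ℝ × ℝ)) : ℝ≥0 × ℝ :=
  (rr γ (p.1.1, p.2), co γ (p.1.1, p.2) * (1 + p.1.2))

@[fun_prop] lemma measurable_ww (γ : ℝ≥0) : Measurable (ww γ) := by unfold ww; fun_prop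

lemma lintegral_ab_ne_top (hD : ∫⁻ e, (aa γ e ^ 2 : ℝ≥0) ∂(D.prod D) ≠ ⊤) :
    ∫⁻ e, (aa γ e * bb γ e : ℝ≥0) ∂(D.prod D) ≠ ⊤ := by
  have h : ∫⁻ e, (bb γ e ^ 2 : ℝ≥0) ∂(D.prod D) = ∫⁻ e, (aa γ e ^ 2 : ℝ≥0) ∂(D.prod D) :=
    lintegral_swap_edge (F := fun e => (aa γ e ^ 2 : ℝ≥0)) (by fun_prop)
  refine ne_top_of_le_ne_top (ENNReal.add_ne_top.mpr ⟨hD, h ▸ hD⟩) ?_
  rw [← lintegral_add_left (by fun_prop)]
  refine lintegral_mono fun e => ?_
  beta_reduce
  rw [← ENNReal.coe_add, ENNReal.coe_le_coe, ← NNReal.coe_le_coe]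
  push_cast
  nlinarith [sq_nonneg ((aa γ e : ℝ) - bb γ e), (aa γ e).2, (bb γ e).2,
    mul_nonneg (aa γ e).2 (bb γ e).2]

lemma KK_one_le {σ : Measure ℝ≥0} [IsProbabilityMeasure σ] (z : ℝ≥0) :
    KK r γ D σ (wt γ fun e => aa γ e * bb γ e) (fun _ => 1) z ≤
      xx z * (r * ∫⁻ e, (aa γ e * bb γ e : ℝ≥0) ∂(D.prod D)) := by
  simpa using KK_wt_le (r := r) (γ := γ) (D := D) (σ := σ) (c := fun e => aa γ e * bb γ e)
    (by fun_prop) (g := fun _ => 1) antitone_const z

section tree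
variable (γ) (t : Tree r (D.prod D))

lemma S_pair {A B : Type} [AddCommMonoid A] [AddCommMonoid B] (f : t.Ω × (ℝ × ℝ) → A)
    (g : t.Ω × (ℝ × ℝ) → B) (ω : t.Ω) : t.S (fun p => (f p, g p)) ω = (t.S f ω, t.S g ω) := by
  simp only [Tree.S]
  exact Prod.ext (Prod.fst_sum ..) (Prod.snd_sum ..)

/-- Contribution of generation `n` to `U`. -/
noncomputable def yN : ℕ → t.Ω → ℝ
  | 0 => fun _ => 1
  | n + 1 => t.S fun p => co γ (sS γ t p.1, p.2) * yN n p.1

lemma measurable_yN (n : ℕ) : Measurable (yN γ t n) := by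
  have := measurable_sS γ t
  induction n with
  | zero => exact measurable_const
  | succ n ih => exact t.measurable_S (by fun_prop)

instance : IsProbabilityMeasure (t.P.map (sS γ t)) :=
  isProbabilityMeasure_map (measurable_sS γ t).aemeasurable

lemma lintegral_yN (n : ℕ) : ∀ g : ℝ≥0 → ℝ≥0∞, Measurable g →
    ∫⁻ ω, ‖yN γ t n ω‖ₑ * g (sS γ t ω) ∂t.P ≤
      ∫⁻ s, (KK r γ D (t.P.map (sS γ t)) (wt γ fun e => aa γ e * bb γ e))^[n] g s
        ∂(t.P.map (sS γ t)) := by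
  have hs := measurable_sS γ t
  have hv : Measurable (wt γ fun e => aa γ e * bb γ e) := measurable_wt (by fun_prop)
  induction n with
  | zero =>
    intro g hg
    simp [yN, lintegral_map hg hs]
  | succ n ih =>
    intro g hg
    have hy := measurable_yN γ t n
    have hy' := measurable_yN γ t (n + 1)
    let w : (ℝ≥0 × ℝ) × (ℝ × ℝ) → ℝ≥0 × ℝ := fun p =>
      (rr γ (p.1.1, p.2), co γ (p.1.1, p.2) * p.1.2)
    have hw : Measurable w := by fun_prop
    have hG : Measurable fun ω => (sS γ t ω, yN γ t n ω) := by fun_prop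
    have := isProbabilityMeasure_map (μ := t.P) hG.aemeasurable
    have h1 := mecke_KK_le (op_sS γ t) hw (AddMonoidHom.fst _ _) measurable_fst (fun _ _ => rfl)
      (t.P.map fun ω => (sS γ t ω, yN γ t n ω))
      (by rw [Measure.map_map (by exact measurable_fst) hG]; rfl)
      (l := fun z => ‖z.2‖ₑ) (l' := fun z => ‖z.2‖ₑ) (by fun_prop) (by simp)
      (fun a b => enorm_add_le _ _) hv
      (fun z e => by simp only [w, enorm_mul, enorm_co, mul_comm]; rfl) hg
    have hm := measurable_KK (r := r) (γ := γ) (D := D) (σ := t.P.map (sS γ t)) hv hg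
    simp only [AddMonoidHom.coe_fst] at h1
    rw [← t.map_S_op hw hG, lintegral_map (by fun_prop) (t.measurable_S (by fun_prop)),
      lintegral_map (by fun_prop) hG] at h1
    rw [Function.iterate_succ_apply]
    refine le_trans (le_of_eq ?_) (h1.trans (ih _ hm))
    refine lintegral_congr fun ω => ?_
    simp only [w]
    rw [S_pair, ← sS_eq]
    rfl

/-- The solution `U - 1` on the tree. -/
noncomputable def uS (ω : t.Ω) : ℝ := ∑' n, yN γ t (n + 1) ω

lemma measurable_uS : Measurable (uS γ t) :=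
  Measurable.tsum fun n => measurable_yN γ t (n + 1)

variable {γ} (hD : ∫⁻ e, (aa γ e ^ 2 : ℝ≥0) ∂(D.prod D) ≠ ⊤)
include hD

lemma lintegral_tsum_yN : ∫⁻ ω, (∑' n, ‖yN γ t n ω‖ₑ) * xx (sS γ t ω) ∂t.P ≠ ⊤ := by
  have hs := measurable_sS γ t
  refine ne_top_of_le_ne_top (tsum_tt_ne_top (op_sS γ t) hD) ?_
  simp_rw [← ENNReal.tsum_mul_right]
  rw [lintegral_tsum fun n => by have := measurable_yN γ t n; fun_prop]
  exact ENNReal.tsum_le_tsum fun n => lintegral_yN γ t n xx measurable_xx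

lemma ae_summable_yN : ∀ᵐ ω ∂t.P, Summable fun n => yN γ t n ω := by
  have hs := measurable_sS γ t
  have h1 : Measurable fun ω => ∑' n, ‖yN γ t n ω‖ₑ :=
    Measurable.tsum fun n => (measurable_yN γ t n).enorm
  filter_upwards [ae_lt_top (by fun_prop) (lintegral_tsum_yN t hD)] with ω hω
  have h2 : ∑' n, ‖yN γ t n ω‖ₑ ≠ ⊤ := by
    intro h
    rw [h, ENNReal.top_mul (by simp [xx])] at hω
    exact lt_irrefl _ hω
  exact Summable.of_enorm h2

lemma uS_eq : ∀ᵐ ω ∂t.P,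
    uS γ t ω = t.S (fun p => co γ (sS γ t p.1, p.2) * (1 + uS γ t p.1)) ω := by
  have h := t.ae_children (Q := fun p => Summable fun n => yN γ t n p.1)
    ((quasiMeasurePreserving_fst (ν := D.prod D)).ae (ae_summable_yN t hD))
  filter_upwards [h] with ω hω
  simp only [uS, yN, Tree.S]
  rw [Summable.tsum_finsetSum fun k _ => (hω k).mul_left _]
  refine Finset.sum_congr rfl fun k _ => ?_
  rw [tsum_mul_left, (hω k).tsum_eq_zero_add]
  rfl

lemma op_uS : op r (D.prod D) (ww γ) (t.P.map fun ω => (sS γ t ω, uS γ t ω)) =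
    t.P.map fun ω => (sS γ t ω, uS γ t ω) := by
  have hs := measurable_sS γ t
  have hu := measurable_uS γ t
  rw [← t.map_S_op (measurable_ww γ) (by fun_prop)]
  refine Measure.map_congr ?_
  filter_upwards [uS_eq t hD] with ω hω
  simp only [ww]
  rw [S_pair, ← sS_eq, ← hω]

lemma lintegral_uS_ne_top : ∫⁻ ω, ‖uS γ t ω‖ₑ ∂t.P ≠ ⊤ := by
  have hs := measurable_sS γ t
  have hu := measurable_uS γ t
  have hv : Measurable (wt γ fun e => aa γ e * bb γ e) := measurable_wt (by fun_prop)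
  have hG : Measurable fun ω => (sS γ t ω, uS γ t ω) := by fun_prop
  have := isProbabilityMeasure_map (μ := t.P) hG.aemeasurable
  have h1 := mecke_KK_le (op_sS γ t) (measurable_ww γ) (AddMonoidHom.fst _ _) measurable_fst
    (fun _ _ => rfl) (t.P.map fun ω => (sS γ t ω, uS γ t ω))
    (by rw [Measure.map_map (by exact measurable_fst) hG]; rfl)
    (l := fun z => ‖z.2‖ₑ) (l' := fun z => ‖1 + z.2‖ₑ) (by fun_prop) (by simp)
    (fun a b => enorm_add_le _ _) hv
    (fun z e => by simp only [ww, enorm_mul, enorm_co, mul_comm]; rfl) (g := fun _ => 1)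
    measurable_const
  have hm := measurable_KK (r := r) (γ := γ) (D := D) (σ := t.P.map (sS γ t)) hv
    (g := fun _ => 1) measurable_const
  simp only [AddMonoidHom.coe_fst] at h1
  rw [op_uS t hD, lintegral_map (by fun_prop) hG, lintegral_map (by fun_prop) hG] at h1
  simp only [mul_one] at h1
  refine ne_top_of_le_ne_top (ENNReal.mul_ne_top (lintegral_tsum_yN t hD)
    (ENNReal.mul_ne_top (a := r) (by simp) (lintegral_ab_ne_top hD))) (h1.trans ?_)
  rw [← lintegral_mul_const' _ _ (ENNReal.mul_ne_top (by simp) (lintegral_ab_ne_top hD))]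
  refine lintegral_mono_ae ?_
  filter_upwards [ae_summable_yN t hD] with ω hω
  rw [mul_assoc]
  refine mul_le_mul' ?_ (KK_one_le _)
  have h2 : 1 + uS γ t ω = ∑' n, yN γ t n ω := by rw [hω.tsum_eq_zero_add]; rfl
  rw [h2]
  exact enorm_tsum_le_tsum_enorm

end tree

theorem joint_unique (t : Tree r (D.prod D)) (hD : ∫⁻ e, (aa γ e ^ 2 : ℝ≥0) ∂(D.prod D) ≠ ⊤)
    {π π' : Measure (ℝ≥0 × ℝ)} [IsProbabilityMeasure π] [IsProbabilityMeasure π']
    (h : op r (D.prod D) (ww γ) π = π) (h' : op r (D.prod D) (ww γ) π' = π')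
    (hi : ∫⁻ z, ‖z.2‖ₑ ∂π ≠ ⊤) (hi' : ∫⁻ z, ‖z.2‖ₑ ∂π' ≠ ⊤) : π = π' := by
  set σ := t.P.map (sS γ t) with hσdef
  have hσ : op r (D.prod D) (rr γ) σ = σ := op_sS γ t
  have hfst : ∀ (π : Measure (ℝ≥0 × ℝ)) [IsProbabilityMeasure π],
      op r (D.prod D) (ww γ) π = π → π.fst = σ := by
    intro π _ h
    refine sLaw_unique t ?_
    have h1 := map_op (r := r) (θ := D.prod D) (measurable_ww γ) (measurable_rr γ)
      (AddMonoidHom.fst _ _) measurable_fst (fun _ _ => rfl) π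
    rw [h] at h1
    exact h1.symm
  let w : (ℝ≥0 × ℝ × ℝ) × (ℝ × ℝ) → ℝ≥0 × ℝ × ℝ := fun p =>
    (rr γ (p.1.1, p.2), co γ (p.1.1, p.2) * (1 + p.1.2.1), co γ (p.1.1, p.2) * (1 + p.1.2.2))
  have hw : Measurable w := by fun_prop
  let ρ : ℕ → Measure (ℝ≥0 × ℝ × ℝ) := fun n =>
    (op r (D.prod D) w)^[n] (σ ⊗ₘ (π.condKernel ×ₖ π'.condKernel))
  have hρs : ∀ n, ρ (n + 1) = op r (D.prod D) w (ρ n) := fun n => Function.iterate_succ_apply' _ _ _
  have hρ : ∀ n, IsProbabilityMeasure (ρ n) := by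
    intro n
    induction n with
    | zero => exact inferInstanceAs (IsProbabilityMeasure (σ ⊗ₘ (π.condKernel ×ₖ π'.condKernel)))
    | succ n ih => rw [hρs]; exact op_prob hw _
  have m1 : ∀ n, (ρ n).map (Prod.map id Prod.fst) = π := by
    intro n
    induction n with
    | zero =>
      have h1 := Measure.compProd_map (μ := σ) (κ := π.condKernel ×ₖ π'.condKernel) measurable_fst
      rw [← Kernel.fst_eq, Kernel.fst_prod, ← hfst π h, π.disintegrate] at h1
      rw [hfst π h] at h1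
      exact h1.symm
    | succ n ih =>
      have h1 := map_op (r := r) (θ := D.prod D) hw (measurable_ww γ)
        ((AddMonoidHom.id _).prodMap (AddMonoidHom.fst _ _))
        (measurable_id.prodMap measurable_fst) (fun _ _ => rfl) (ρ n)
      rw [hρs]
      exact h1.trans ((congrArg _ ih).trans h)
  have m2 : ∀ n, (ρ n).map (Prod.map id Prod.snd) = π' := by
    intro n
    induction n with
    | zero =>
      have h1 := Measure.compProd_map (μ := σ) (κ := π.condKernel ×ₖ π'.condKernel) measurable_snd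
      rw [← Kernel.snd_eq, Kernel.snd_prod, ← hfst π' h', π'.disintegrate] at h1
      rw [hfst π' h'] at h1
      exact h1.symm
    | succ n ih =>
      have h1 := map_op (r := r) (θ := D.prod D) hw (measurable_ww γ)
        ((AddMonoidHom.id _).prodMap (AddMonoidHom.snd _ _))
        (measurable_id.prodMap measurable_snd) (fun _ _ => rfl) (ρ n)
      rw [hρs]
      exact h1.trans ((congrArg _ ih).trans h')
  have m0 : ∀ n, (ρ n).map Prod.fst = σ := by
    intro n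
    rw [← hfst π h, ← m1 n, Measure.fst, Measure.map_map measurable_fst (by fun_prop)]
    rfl
  have hv : Measurable (wt γ fun e => aa γ e * bb γ e) := measurable_wt (by fun_prop)
  have step : ∀ n (g : ℝ≥0 → ℝ≥0∞), Measurable g →
      ∫⁻ z, ‖z.2.1 - z.2.2‖ₑ * g z.1 ∂ρ (n + 1) ≤
        ∫⁻ z, ‖z.2.1 - z.2.2‖ₑ * KK r γ D σ (wt γ fun e => aa γ e * bb γ e) g z.1 ∂ρ n := by
    intro n g hg
    rw [hρs]
    refine mecke_KK_le hσ hw (AddMonoidHom.fst _ _) measurable_fst (fun _ _ => rfl) (ρ n) (m0 n)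
      (l := fun z => ‖z.2.1 - z.2.2‖ₑ) (l' := fun z => ‖z.2.1 - z.2.2‖ₑ) (by fun_prop) (by simp)
      (fun a b => ?_) hv (fun z e => ?_) hg
    · rw [Prod.snd_add, Prod.fst_add, Prod.snd_add, add_sub_add_comm]
      exact enorm_add_le _ _
    · simp only [w]
      rw [← mul_sub, add_sub_add_left_eq_sub, enorm_mul, enorm_co, mul_comm]
      rfl
  have iter : ∀ n (g : ℝ≥0 → ℝ≥0∞), Measurable g →
      ∫⁻ z, ‖z.2.1 - z.2.2‖ₑ * g z.1 ∂ρ n ≤
        ∫⁻ z, ‖z.2.1 - z.2.2‖ₑ * (KK r γ D σ (wt γ fun e => aa γ e * bb γ e))^[n] g z.1 ∂ρ 0 := by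
    intro n
    induction n with
    | zero => exact fun g _ => le_rfl
    | succ n ih => exact fun g hg => (step n g hg).trans (ih _ (measurable_KK hv hg))
  set C := r * ∫⁻ e, (aa γ e * bb γ e : ℝ≥0) ∂(D.prod D) with hC
  have hCt : C ≠ ⊤ := ENNReal.mul_ne_top (by simp) (lintegral_ab_ne_top hD)
  set M := ∫⁻ z, ‖z.2.1 - z.2.2‖ₑ ∂ρ 0 with hM
  have hMt : M ≠ ⊤ := by
    refine ne_top_of_le_ne_top (ENNReal.add_ne_top.mpr ⟨hi, hi'⟩) ?_
    rw [← m1 0, ← m2 0, lintegral_map (by fun_prop) (by fun_prop),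
      lintegral_map (by fun_prop) (by fun_prop), ← lintegral_add_left (by fun_prop)]
    exact lintegral_mono fun z => enorm_sub_le
  have bound : ∀ n, ∫⁻ z, ‖z.2.1 - z.2.2‖ₑ ∂ρ (n + 2) ≤ M * C * C * tt r γ D σ n := by
    intro n
    calc _ = ∫⁻ z, ‖z.2.1 - z.2.2‖ₑ * (fun _ => 1) z.1 ∂ρ (n + 1 + 1) := by simp
      _ ≤ ∫⁻ z, ‖z.2.1 - z.2.2‖ₑ * xx z.1 * C ∂ρ (n + 1) := by
          refine (step _ _ measurable_const).trans (lintegral_mono fun z => ?_)
          beta_reduce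
          rw [mul_assoc]
          exact mul_le_mul_right (KK_one_le _) _
      _ ≤ (∫⁻ z, ‖z.2.1 - z.2.2‖ₑ * (C * tt r γ D σ n) ∂ρ 0) * C := by
          rw [lintegral_mul_const _ (by fun_prop)]
          refine mul_le_mul_left ((iter _ _ measurable_xx).trans (lintegral_mono fun z => ?_)) _
          refine mul_le_mul_right ?_ _
          rw [Function.iterate_succ_apply']
          exact (KK_wt_le (by fun_prop) (KK_iter_anti _ xx_anti n) _).trans
            (mul_le_of_le_one_left' (xx_le_one _))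
      _ = _ := by rw [lintegral_mul_const _ (by fun_prop)]; ring
  have hlim : Tendsto (fun n => ∫⁻ z, ‖z.2.1 - z.2.2‖ₑ ∂ρ n) atTop (𝓝 0) := by
    rw [← tendsto_add_atTop_iff_nat 2]
    have h1 := ENNReal.Tendsto.const_mul (a := M * C * C)
      (ENNReal.tendsto_atTop_zero_of_tsum_ne_top (tsum_tt_ne_top hσ hD))
      (Or.inr (ENNReal.mul_ne_top (ENNReal.mul_ne_top hMt hCt) hCt))
    rw [mul_zero] at h1
    exact tendsto_of_tendsto_of_tendsto_of_le_of_le tendsto_const_nhds h1 (fun _ => zero_le) bound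
  have hx : Measurable fun z : ℝ≥0 × ℝ => ((z.1 : ℝ), z.2) := by fun_prop
  have := isProbabilityMeasure_map (μ := π) hx.aemeasurable
  have := isProbabilityMeasure_map (μ := π') hx.aemeasurable
  have hfin := eq_of_close (ν := π.map fun z : ℝ≥0 × ℝ => ((z.1 : ℝ), z.2))
    (ν' := π'.map fun z : ℝ≥0 × ℝ => ((z.1 : ℝ), z.2)) ρ
    (f := fun p => ((p.1 : ℝ), p.2.1)) (g := fun p => ((p.1 : ℝ), p.2.2))
    (by fun_prop) (by fun_prop)
    (fun n => by rw [← m1 n, Measure.map_map hx (by fun_prop)]; rfl)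
    (fun n => by rw [← m2 n, Measure.map_map hx (by fun_prop)]; rfl)
    (by simpa [enorm_eq_nnnorm, Prod.nnnorm_def] using hlim)
  have hinv : (fun x : ℝ × ℝ => (x.1.toNNReal, x.2)) ∘
      (fun z : ℝ≥0 × ℝ => ((z.1 : ℝ), z.2)) = id := by
    funext s
    simp
  have h := congrArg (Measure.map fun x : ℝ × ℝ => (x.1.toNNReal, x.2)) hfin
  rwa [Measure.map_map (by fun_prop) hx, Measure.map_map (by fun_prop) hx, hinv, Measure.map_id,
    Measure.map_id] at h

end Pool.Agent.MP_75c26c_pr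

end MrgPart3

-- ======== part 4: formerly Pool.Agent.MP_75c26c_pr.Crit
section MrgPart4

/-!
For edge weights of modulus one: the critical exponent and second moment bounds.
-/

open MeasureTheory ProbabilityTheory Measure Filter Topology
open scoped ENNReal NNReal

set_option linter.unusedSectionVars false

namespace Pool.Agent.MP_75c26c_pr

variable {r : ℝ≥0} {D : Measure ℝ} [IsProbabilityMeasure D]

/-- The weight `(2 + s) ^ (-q)`. -/
noncomputable def vv (q : ℝ≥0) (p : ℝ≥0 × (ℝ × ℝ)) : ℝ≥0 := (2 + p.1)⁻¹ ^ (q : ℝ)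

@[fun_prop] lemma measurable_vv (q : ℝ≥0) : Measurable (vv q) := by unfold vv; fun_prop

lemma inv_two_add_le_one (z : ℝ≥0) : (2 + z)⁻¹ ≤ 1 :=
  inv_le_one_of_one_le₀ (one_le_two.trans le_self_add)

lemma vv_le_one (q : ℝ≥0) (p : ℝ≥0 × (ℝ × ℝ)) : vv q p ≤ 1 :=
  NNReal.rpow_le_one (inv_two_add_le_one _) q.2

lemma vv_anti (q : ℝ≥0) (e : ℝ × ℝ) : Antitone fun z => vv q (z, e) := by
  intro z z' h
  simp only [vv]
  gcongr

section unit
variable (h1 : ∀ᵐ e ∂(D.prod D), aa 1 e = 1 ∧ bb 1 e = 1)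
  {σ : Measure ℝ≥0} [IsProbabilityMeasure σ]
include h1

lemma KK_unit {v : ℝ≥0 × (ℝ × ℝ) → ℝ≥0} {v0 : ℝ≥0 → ℝ≥0}
    (hv : ∀ z e, aa 1 e = 1 → bb 1 e = 1 → v (z, e) = v0 z) (g : ℝ≥0 → ℝ≥0∞) (z : ℝ≥0) :
    KK r 1 D σ v g z = r * (v0 z * ∫⁻ s, g (s + (1 + z) / (2 + z)) ∂σ) := by
  unfold KK
  congr 1
  rw [lintegral_congr_ae (g := fun _ => v0 z * ∫⁻ s, g (s + (1 + z) / (2 + z)) ∂σ)]
  · simp
  filter_upwards [h1] with e he
  rw [hv z e he.1 he.2]
  have : rr 1 (z, e) = (1 + z) / (2 + z) := by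
    simp only [rr, he.1, he.2, one_pow, one_mul]
    congr 1
    ring
  rw [this]

lemma KK_vv (q : ℝ≥0) (g : ℝ≥0 → ℝ≥0∞) (z : ℝ≥0) : KK r 1 D σ (vv q) g z =
    r * (((2 + z)⁻¹ ^ (q : ℝ) : ℝ≥0) * ∫⁻ s, g (s + (1 + z) / (2 + z)) ∂σ) :=
  KK_unit h1 (v0 := fun z => (2 + z)⁻¹ ^ (q : ℝ)) (fun _ _ _ _ => rfl) g z

lemma KK_vv_distort {q : ℝ≥0} (hq : q ≤ 1) {g : ℝ≥0 → ℝ≥0∞} (hm : Measurable g)
    (hg : ∀ s u : ℝ≥0, g s ≤ (1 + u : ℝ≥0) * g (s + u)) (s u : ℝ≥0) :
    KK r 1 D σ (vv q) g s ≤ (1 + u : ℝ≥0) * KK r 1 D σ (vv q) g (s + u) := by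
  rw [KK_vv h1, KK_vv h1, mul_left_comm ((1 + u : ℝ≥0) : ℝ≥0∞)]
  refine mul_le_mul_right ?_ _
  have a1 : (2 + s)⁻¹ ^ (q : ℝ) ≤ ((2 + (s + u)) / (2 + s)) * (2 + (s + u))⁻¹ ^ (q : ℝ) := by
    have b1 : (2 + s)⁻¹ = ((2 + (s + u)) / (2 + s)) * (2 + (s + u))⁻¹ := by field_simp
    have b2 : (1 : ℝ≥0) ≤ (2 + (s + u)) / (2 + s) := by
      have b3 : (0 : ℝ≥0) < 2 + s := by positivity
      rw [one_le_div₀ b3, ← add_assoc]; exact le_self_add
    conv_lhs => rw [b1, NNReal.mul_rpow]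
    gcongr
    conv_rhs => rw [← NNReal.rpow_one ((2 + (s + u)) / (2 + s))]
    exact NNReal.rpow_le_rpow_of_exponent_le b2 hq
  have a2 : (1 + (s + u)) / (2 + (s + u)) = (1 + s) / (2 + s) + u / ((2 + s) * (2 + (s + u))) := by
    field_simp
    ring
  have a3 : ∫⁻ y, g (y + (1 + s) / (2 + s)) ∂σ ≤ (1 + u / ((2 + s) * (2 + (s + u))) : ℝ≥0) *
      ∫⁻ y, g (y + (1 + (s + u)) / (2 + (s + u))) ∂σ := by
    rw [← lintegral_const_mul _ (by fun_prop)]
    refine lintegral_mono fun y => ?_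
    beta_reduce
    rw [a2, ← add_assoc y]
    exact hg _ _
  refine (mul_le_mul' (ENNReal.coe_le_coe.mpr a1) a3).trans ?_
  rw [← mul_assoc, ← mul_assoc, ← ENNReal.coe_mul, ← ENNReal.coe_mul]
  refine mul_le_mul_left (ENNReal.coe_le_coe.mpr ?_) _
  rw [mul_right_comm]
  refine mul_le_mul_left ?_ _
  rw [← NNReal.coe_le_coe]
  push_cast
  have hs : (0 : ℝ) ≤ s := s.2
  have hu : (0 : ℝ) ≤ u := u.2
  have a4 : (2 + ((s : ℝ) + u)) / (2 + s) * (1 + u / ((2 + s) * (2 + (s + u)))) =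
      1 + u * ((3 + s) / (2 + s) ^ 2) := by
    field_simp
    ring
  rw [a4]
  have a5 : (3 + (s : ℝ)) / (2 + s) ^ 2 ≤ 1 := by
    rw [div_le_one (by positivity)]; nlinarith
  nlinarith

end unit

/-- Iterates of the transfer operator on the constant function. -/
noncomputable def FF (r : ℝ≥0) (D : Measure ℝ) (σ : Measure ℝ≥0) (q : ℝ≥0) (n : ℕ) :
    ℝ≥0 → ℝ≥0∞ := (KK r 1 D σ (vv q))^[n] fun _ => 1

/-- Their means. -/
noncomputable def mm (r : ℝ≥0) (D : Measure ℝ) (σ : Measure ℝ≥0) (q : ℝ≥0) (n : ℕ) : ℝ≥0∞ :=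
  ∫⁻ s, FF r D σ q n s ∂σ

section
variable {σ : Measure ℝ≥0} [IsProbabilityMeasure σ]

lemma measurable_FF (q : ℝ≥0) (n : ℕ) : Measurable (FF r D σ q n) :=
  measurable_KK_iter (measurable_vv q) measurable_const n

lemma FF_succ (q : ℝ≥0) (n : ℕ) : FF r D σ q (n + 1) = KK r 1 D σ (vv q) (FF r D σ q n) :=
  Function.iterate_succ_apply' _ _ _

lemma FF_anti (q : ℝ≥0) (n : ℕ) : Antitone (FF r D σ q n) := by
  induction n with
  | zero => exact antitone_const
  | succ n ih => rw [FF_succ]; exact KK_anti (vv_anti q) ih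

lemma mm_zero (q : ℝ≥0) : mm r D σ q 0 = 1 := by simp [mm, FF]

lemma FF_le (q : ℝ≥0) (n : ℕ) (s : ℝ≥0) : FF r D σ q n s ≤ r ^ n := by
  induction n generalizing s with
  | zero => simp [FF]
  | succ n ih =>
    rw [FF_succ, pow_succ']
    unfold KK
    refine mul_le_mul_right ?_ _
    calc _ ≤ ∫⁻ _, 1 * ∫⁻ _, (r : ℝ≥0∞) ^ n ∂σ ∂(D.prod D) := by
          gcongr with e y
          · exact_mod_cast vv_le_one q _
          · exact ih _
      _ = _ := by simp

lemma iter_compare {q : ℝ≥0} {g g' : ℝ≥0 → ℝ≥0∞} (hg : Measurable g) (hg' : Measurable g')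
    {a b : ℝ≥0∞} (h : ∀ s, a * g s ≤ b * g' s) (k : ℕ) (s : ℝ≥0) :
    a * (KK r 1 D σ (vv q))^[k] g s ≤ b * (KK r 1 D σ (vv q))^[k] g' s := by
  induction k generalizing s with
  | zero => exact h s
  | succ k ih =>
    rw [Function.iterate_succ_apply', Function.iterate_succ_apply',
      ← KK_const_mul (measurable_vv q) (measurable_KK_iter (measurable_vv q) hg k),
      ← KK_const_mul (measurable_vv q) (measurable_KK_iter (measurable_vv q) hg' k)]
    exact KK_mono ih s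

variable (h1 : ∀ᵐ e ∂(D.prod D), aa 1 e = 1 ∧ bb 1 e = 1)
include h1

lemma FF_distort {q : ℝ≥0} (hq : q ≤ 1) (n : ℕ) :
    ∀ s u : ℝ≥0, FF r D σ q n s ≤ (1 + u : ℝ≥0) * FF r D σ q n (s + u) := by
  induction n with
  | zero => intro s u; simp [FF]
  | succ n ih => rw [FF_succ]; exact KK_vv_distort h1 hq (measurable_FF q n) ih

lemma mm_submul (q : ℝ≥0) (n k : ℕ) :
    mm r D σ q (k + 1 + n) ≤ mm r D σ q n * mm r D σ q (k + 1) := by
  have h : ∀ s, 1 * FF r D σ q (n + 1) s ≤ mm r D σ q n * FF r D σ q 1 s := by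
    intro s
    rw [one_mul, FF_succ, FF_succ, KK_vv h1, KK_vv h1, mul_left_comm (mm r D σ q n),
      mul_left_comm (mm r D σ q n)]
    gcongr
    simp only [FF, Function.iterate_zero, id_eq, lintegral_const, measure_univ, mul_one]
    exact lintegral_mono fun y => FF_anti q n le_self_add
  have h2 := iter_compare (r := r) (D := D) (σ := σ) (q := q) (measurable_FF q (n + 1))
    (measurable_FF q 1) h k
  generalize mm r D σ q n = c at h2
  rw [mm, mm, ← lintegral_const_mul _ (measurable_FF q _)]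
  refine lintegral_mono fun s => ?_
  have h3 := h2 s
  simp only [FF, ← Function.iterate_add_apply, one_mul] at h3 ⊢
  rwa [add_assoc, add_comm 1 n]

lemma mm_supermul {q : ℝ≥0} (hq : q ≤ 1) (n k : ℕ) :
    mm r D σ q n * mm r D σ q (k + 1) ≤ 2 * mm r D σ q (k + 1 + n) := by
  have h : ∀ s, mm r D σ q n * FF r D σ q 1 s ≤ 2 * FF r D σ q (n + 1) s := by
    intro s
    rw [FF_succ, FF_succ, KK_vv h1, KK_vv h1, mul_left_comm (mm r D σ q n),
      mul_left_comm (mm r D σ q n), mul_left_comm 2, mul_left_comm 2]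
    refine mul_le_mul_right (mul_le_mul_right ?_ _) _
    simp only [FF, Function.iterate_zero, id_eq, lintegral_const, measure_univ, mul_one]
    rw [← lintegral_const_mul _
      (by exact (measurable_FF q n).comp (measurable_add_const _))]
    refine lintegral_mono fun y => (FF_distort h1 hq n y ((1 + s) / (2 + s))).trans ?_
    refine mul_le_mul_left ?_ _
    rw [← ENNReal.coe_two, ENNReal.coe_le_coe, ← one_add_one_eq_two]
    refine add_le_add_right ?_ _
    rw [div_le_one (by positivity)]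
    gcongr
    exact le_self_add
  have h2 := iter_compare (r := r) (D := D) (σ := σ) (q := q) (measurable_FF q 1)
    (measurable_FF q (n + 1)) h k
  generalize mm r D σ q n = c at h2
  rw [mm, mm, ← lintegral_const_mul _ (measurable_FF q _),
    ← lintegral_const_mul _ (measurable_FF q _)]
  refine lintegral_mono fun s => ?_
  have h3 := h2 s
  simp only [FF, ← Function.iterate_add_apply] at h3 ⊢
  rwa [add_assoc, add_comm 1 n]

lemma mm_not_both {q : ℝ≥0} (hq : q ≤ 1) {a b : ℕ} (ha : mm r D σ q a < 1)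
    (hb : 2 < mm r D σ q b) : False := by
  obtain ⟨a, rfl⟩ : ∃ a', a = a' + 1 := Nat.exists_eq_succ_of_ne_zero (by
    rintro rfl; simp [mm_zero] at ha)
  obtain ⟨b, rfl⟩ : ∃ b', b = b' + 1 := Nat.exists_eq_succ_of_ne_zero (by
    rintro rfl; simp [mm_zero] at hb)
  have c1 : ∀ j, mm r D σ q ((a + 1) * (j + 1)) < 1 := by
    intro j
    induction j with
    | zero => simpa using ha
    | succ j ih =>
      rw [mul_add (a + 1) (j + 1), mul_one, add_comm]
      exact (mm_submul h1 q _ a).trans_lt (mul_lt_one_of_lt_of_le ih ha.le)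
  have c2 : ∀ j, 2 < mm r D σ q ((b + 1) * (j + 1)) := by
    intro j
    induction j with
    | zero => simpa using hb
    | succ j ih =>
      rw [mul_add (b + 1) (j + 1), mul_one, add_comm]
      have := (ENNReal.mul_lt_mul ih hb).trans_le (mm_supermul h1 hq _ b)
      exact (ENNReal.mul_lt_mul_iff_right (by simp) (by simp)).mp this
  have := (c2 a).trans (mul_comm (a + 1) (b + 1) ▸ c1 b)
  simp at this

lemma mm_one_lt (hσ : op r (D.prod D) (rr 1) σ = σ) : ∃ n, mm r D σ 1 n < 1 := by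
  have hD : ∫⁻ e, (aa 1 e ^ 2 : ℝ≥0) ∂(D.prod D) ≠ ⊤ := by
    rw [lintegral_congr_ae (g := fun _ => 1) (by filter_upwards [h1] with e he; simp [he.1])]
    simp
  have hK : KK r 1 D σ (vv 1) = KK r 1 D σ (wt 1 fun e => aa 1 e * bb 1 e) := by
    funext g z
    rw [KK_vv h1, KK_unit h1 (v0 := fun z => (2 + z)⁻¹)]
    · simp
    · intro z e ha hb
      simp only [wt, ha, hb, one_pow, mul_one, one_div]
      congr 1
      ring
  have h2 := ENNReal.Tendsto.const_mul (a := r)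
    (ENNReal.tendsto_atTop_zero_of_tsum_ne_top (tsum_tt_ne_top hσ hD)) (Or.inr (by simp))
  rw [mul_zero] at h2
  obtain ⟨n, hn⟩ := (h2.eventually (gt_mem_nhds zero_lt_one)).exists
  refine ⟨n + 1, lt_of_le_of_lt ?_ hn⟩
  have h3 : ∀ s, 1 * KK r 1 D σ (vv 1) (fun _ => 1) s ≤ r * xx s := by
    intro s
    rw [KK_vv h1, one_mul]
    gcongr
    simp only [NNReal.coe_one, NNReal.rpow_one, lintegral_const, measure_univ, mul_one, xx,
      ENNReal.coe_le_coe]
    gcongr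
    exact one_le_two
  have h4 := iter_compare (r := r) (D := D) (σ := σ) (q := 1)
    (measurable_KK (measurable_vv 1) measurable_const) measurable_xx h3 n
  rw [mm, tt, ← hK, ← lintegral_const_mul _ (measurable_KK_iter (measurable_vv 1) measurable_xx n)]
  refine lintegral_mono fun s => ?_
  simpa [FF] using h4 s

lemma mm_one_ge (hσ : op r (D.prod D) (rr 1) σ = σ) (hr : r ≠ 0) (q : ℝ≥0) :
    ((r / 2 * (2 + 2 * r)⁻¹ ^ (q : ℝ) : ℝ≥0) : ℝ≥0∞) ≤ mm r D σ q 1 := by
  have h2 : ∫⁻ s, (s : ℝ≥0∞) ∂σ ≤ r := by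
    have h := mecke_op (r := r) (θ := D.prod D) (measurable_rr 1) σ (l := fun s => (s : ℝ≥0∞))
      (F := fun _ => 1) (by fun_prop) (by simp) (by simp) (by fun_prop)
    rw [hσ] at h
    simp only [mul_one, lintegral_const, measure_univ] at h
    rw [h]
    calc _ ≤ (r : ℝ≥0∞) * ∫⁻ _, ∫⁻ _, 1 ∂(D.prod D) ∂σ := by
          refine mul_le_mul_right (lintegral_mono fun z => lintegral_mono_ae ?_) _
          filter_upwards [h1] with e he
          simpa [he.1] using rr_le 1 (z, e)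
      _ = r := by simp
  have h3 : σ {s | ((2 * r : ℝ≥0) : ℝ≥0∞) ≤ s} ≤ 2⁻¹ := by
    refine (meas_ge_le_lintegral_div (by fun_prop) (by simpa using hr) ENNReal.coe_ne_top).trans ?_
    rw [ENNReal.div_le_iff (by simpa using hr) ENNReal.coe_ne_top]
    refine h2.trans (le_of_eq ?_)
    push_cast
    rw [← mul_assoc, ENNReal.inv_mul_cancel (by simp) (by simp), one_mul]
  have hS : MeasurableSet {s : ℝ≥0 | ((2 * r : ℝ≥0) : ℝ≥0∞) ≤ s} :=
    measurableSet_le (by fun_prop) (by fun_prop)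
  have h4 : 2⁻¹ ≤ σ {s : ℝ≥0 | ((2 * r : ℝ≥0) : ℝ≥0∞) ≤ s}ᶜ := by
    rw [prob_compl_eq_one_sub hS, ← ENNReal.one_sub_inv_two]
    exact tsub_le_tsub_left h3 _
  calc _ = ((r * (2 + 2 * r)⁻¹ ^ (q : ℝ) : ℝ≥0) : ℝ≥0∞) * 2⁻¹ := by
        rw [← ENNReal.coe_two, ← ENNReal.coe_inv (by simp), ← ENNReal.coe_mul]
        congr 1
        ring
    _ ≤ ∫⁻ _ in {s : ℝ≥0 | ((2 * r : ℝ≥0) : ℝ≥0∞) ≤ s}ᶜ,
          ((r * (2 + 2 * r)⁻¹ ^ (q : ℝ) : ℝ≥0) : ℝ≥0∞) ∂σ := by
        rw [setLIntegral_const]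
        gcongr
    _ ≤ ∫⁻ s in {s : ℝ≥0 | ((2 * r : ℝ≥0) : ℝ≥0∞) ≤ s}ᶜ, FF r D σ q 1 s ∂σ := by
        refine setLIntegral_mono (measurable_FF q 1) fun s hs => ?_
        have hs' : s ≤ 2 * r := by
          simp only [Set.mem_compl_iff, Set.mem_ofPred_eq, not_le] at hs
          exact (ENNReal.coe_lt_coe.mp hs).le
        rw [FF_succ, KK_vv h1, ENNReal.coe_mul]
        simp only [FF, Function.iterate_zero, id_eq, lintegral_const, measure_univ, mul_one]
        gcongr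
    _ ≤ _ := setLIntegral_le_lintegral _ _

end

lemma exists_rate {q : ℝ≥0} (hq : q < 1) :
    ∃ r : ℝ≥0, r ≠ 0 ∧ 2 < r / 2 * (2 + 2 * r)⁻¹ ^ (q : ℝ) := by
  have hq' : (0 : ℝ) < 1 - q := by simpa using hq
  obtain ⟨x, hx1, hx2⟩ := ((eventually_ge_atTop (4 : ℝ)).and
    ((tendsto_rpow_atTop hq').eventually_gt_atTop 16)).exists
  have hx0 : 0 < x := by linarith
  refine ⟨⟨x / 2 - 1, by linarith⟩, fun h => ?_, ?_⟩
  · have : x / 2 - 1 = 0 := congrArg NNReal.toReal h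
    linarith
  · rw [← NNReal.coe_lt_coe]
    push_cast
    have h1 : (2 : ℝ) + 2 * (x / 2 - 1) = x := by ring
    have h2 : x ^ (1 - (q : ℝ)) = x * x⁻¹ ^ (q : ℝ) := by
      rw [Real.rpow_sub hx0, Real.rpow_one, Real.inv_rpow hx0.le, div_eq_mul_inv]
    have h3 : 0 < x⁻¹ ^ (q : ℝ) := by positivity
    change 2 < (x / 2 - 1) / 2 * (2 + 2 * (x / 2 - 1))⁻¹ ^ (q : ℝ)
    rw [h1]
    nlinarith

end Pool.Agent.MP_75c26c_pr

end MrgPart4

-- ======== part 5: formerly Pool.Agent.MP_75c26c_pr.Mart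
section MrgPart5

/-!
A non-trivial solution of the homogeneous equation `W = sum of A_k ^ q * W_k` on the tree.
-/

open MeasureTheory ProbabilityTheory Measure Filter Topology
open scoped ENNReal NNReal

set_option linter.unusedSectionVars false

namespace Pool.Agent.MP_75c26c_pr

lemma exists_tendsto_of_convex {H : Type*} [NormedAddCommGroup H] [InnerProductSpace ℝ H]
    [CompleteSpace H] (C : ℕ → Set H) (hanti : Antitone C)
    (hmid : ∀ n, ∀ x ∈ C n, ∀ y ∈ C n, (2⁻¹ : ℝ) • (x + y) ∈ C n) (B : ℝ)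
    (hB : ∀ n, ∃ x ∈ C n, ‖x‖ ≤ B) :
    ∃ z : ℕ → H, (∀ n, z n ∈ C n) ∧ ∃ z0, Tendsto z atTop (𝓝 z0) := by
  let e : ℕ → ℝ := fun n => sInf ((fun x => ‖x‖ ^ 2) '' C n)
  have hbdd : ∀ n, BddBelow ((fun x => ‖x‖ ^ 2) '' C n) := fun n =>
    ⟨0, by rintro _ ⟨x, -, rfl⟩; positivity⟩
  have hne : ∀ n, ((fun x => ‖x‖ ^ 2) '' C n).Nonempty := fun n =>
    let ⟨x, hx, _⟩ := hB n; ⟨_, x, hx, rfl⟩
  have hle : ∀ n, ∀ x ∈ C n, e n ≤ ‖x‖ ^ 2 := fun n x hx => csInf_le (hbdd n) ⟨x, hx, rfl⟩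
  have hmono : Monotone e := fun n m h =>
    csInf_le_csInf (hbdd n) (hne m) (Set.image_mono (hanti h))
  have hab : BddAbove (Set.range e) := ⟨B ^ 2, by
    rintro _ ⟨n, rfl⟩
    obtain ⟨x, hx, hxB⟩ := hB n
    exact (hle n x hx).trans (by gcongr)⟩
  have hlim := tendsto_atTop_ciSup hmono hab
  have hz : ∀ n : ℕ, ∃ x ∈ C n, ‖x‖ ^ 2 < e n + 1 / (n + 1) := fun n => by
    obtain ⟨_, ⟨x, hx, rfl⟩, h⟩ := exists_lt_of_csInf_lt (hne n)
      (lt_add_of_pos_right (e n) (by positivity : (0 : ℝ) < 1 / (n + 1)))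
    exact ⟨x, hx, h⟩
  choose z hzC hz using hz
  refine ⟨z, hzC, cauchySeq_tendsto_of_complete (cauchySeq_of_le_tendsto_0'
    (fun n => √(4 * ((⨆ i, e i) - e n) + 4 * (1 / (n + 1)))) (fun n m hnm => ?_) ?_)⟩
  · rw [dist_eq_norm]
    refine Real.le_sqrt_of_sq_le ?_
    have h1 := parallelogram_law_with_norm ℝ (z n) (z m)
    have h2 := hle n _ (hmid n _ (hzC n) _ (hanti hnm (hzC m)))
    rw [norm_smul, mul_pow] at h2
    have h3 : (1 : ℝ) / (m + 1) ≤ 1 / (n + 1) := by gcongr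
    have h4 := le_ciSup hab n
    have h5 := le_ciSup hab m
    norm_num at h2
    have h6 := hz n
    have h7 := hz m
    nlinarith
  · have h1 := ((hlim.const_sub (⨆ i, e i)).const_mul 4).add
      (tendsto_one_div_add_atTop_nhds_zero_nat.const_mul 4)
    simpa using h1.sqrt

variable {r : ℝ≥0} {D : Measure ℝ} [IsProbabilityMeasure D] (t : Tree r (D.prod D))

lemma wald {h : t.Ω × (ℝ × ℝ) → ℝ≥0∞} (hh : Measurable h) :
    ∫⁻ ω, t.S h ω ∂t.P = r * ∫⁻ p, h p ∂(t.P.prod (D.prod D)) := by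
  have := isProbabilityMeasure_map (μ := t.P.prod (D.prod D)) hh.aemeasurable
  have h1 := mecke r ((t.P.prod (D.prod D)).map h) (l := id) (F := fun _ => 1) measurable_id rfl
    (fun _ _ => rfl) measurable_const
  rw [← t.map_S hh, lintegral_map (by fun_prop) (t.measurable_S hh)] at h1
  have := isProbabilityMeasure_map (μ := t.P) (t.measurable_S hh).aemeasurable
  simpa [lintegral_map measurable_id' hh] using h1

/-- The linear smoothing operator. -/
noncomputable def LW (q : ℝ≥0) (G : t.Ω → ℝ≥0) : t.Ω → ℝ≥0 :=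
  t.S fun p => vv q (sS 1 t p.1, p.2) * G p.1

lemma measurable_LW (q : ℝ≥0) {G : t.Ω → ℝ≥0} (hG : Measurable G) : Measurable (LW t q G) := by
  have := measurable_sS 1 t
  exact t.measurable_S (by fun_prop)

/-- The additive functionals of generation `n`. -/
noncomputable def WN (q : ℝ≥0) : ℕ → t.Ω → ℝ≥0
  | 0 => fun _ => 1
  | n + 1 => LW t q (WN q n)

lemma measurable_WN (q : ℝ≥0) (n : ℕ) : Measurable (WN t q n) := by
  induction n with
  | zero => exact measurable_const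
  | succ n ih => exact measurable_LW t q ih

/-- One-edge map for the pair `(s, W)`. -/
noncomputable def w2 (q : ℝ≥0) (p : (ℝ≥0 × ℝ≥0) × (ℝ × ℝ)) : ℝ≥0 × ℝ≥0 :=
  (rr 1 (p.1.1, p.2), vv q (p.1.1, p.2) * p.1.2)

lemma measurable_w2 (q : ℝ≥0) : Measurable (w2 q) := by unfold w2; fun_prop

lemma op_w2 (q : ℝ≥0) {G : t.Ω → ℝ≥0} (hG : Measurable G) :
    op r (D.prod D) (w2 q) (t.P.map fun ω => (sS 1 t ω, G ω)) =
      t.P.map fun ω => (sS 1 t ω, LW t q G ω) := by
  have := measurable_sS 1 t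
  rw [← t.map_S_op (measurable_w2 q) (by fun_prop)]
  congr 1
  funext ω
  simp only [w2]
  rw [S_pair, ← sS_eq]
  rfl

lemma lintegral_WN_mul (q : ℝ≥0) (n : ℕ) : ∀ g : ℝ≥0 → ℝ≥0∞, Measurable g →
    ∫⁻ ω, WN t q n ω * g (sS 1 t ω) ∂t.P =
      ∫⁻ s, (KK r 1 D (t.P.map (sS 1 t)) (vv q))^[n] g s ∂(t.P.map (sS 1 t)) := by
  have hs := measurable_sS 1 t
  induction n with
  | zero =>
    intro g hg
    simp [WN, lintegral_map hg hs]
  | succ n ih =>
    intro g hg
    have hy := measurable_WN t q n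
    have hy' := measurable_LW t q hy
    have hG : Measurable fun ω => (sS 1 t ω, WN t q n ω) := by fun_prop
    have := isProbabilityMeasure_map (μ := t.P) hG.aemeasurable
    have h1 := mecke_KK (op_sS 1 t) (measurable_w2 q) (AddMonoidHom.fst _ _) measurable_fst
      (fun _ _ => rfl) (t.P.map fun ω => (sS 1 t ω, WN t q n ω))
      (by rw [Measure.map_map (by exact measurable_fst) hG]; rfl)
      (l := fun z => z.2) (l' := fun z => z.2) (by fun_prop) (by simp)
      (fun a b => by simp) (measurable_vv q) (fun z e => by simp [w2, mul_comm]) hg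
    have hm := measurable_KK (r := r) (γ := 1) (D := D) (σ := t.P.map (sS 1 t))
      (measurable_vv q) hg
    simp only [AddMonoidHom.coe_fst] at h1
    rw [op_w2 t q hy, lintegral_map (by fun_prop) (by fun_prop),
      lintegral_map (by fun_prop) hG] at h1
    rw [Function.iterate_succ_apply, ← ih _ hm, ← h1]
    rfl

lemma lintegral_WN (q : ℝ≥0) (n : ℕ) :
    ∫⁻ ω, WN t q n ω ∂t.P = mm r D (t.P.map (sS 1 t)) q n := by
  simpa [mm, FF] using lintegral_WN_mul t q n (fun _ => 1) measurable_const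

lemma WN_cont (n : ℕ) (ω : t.Ω) : Continuous fun q => WN t q n ω := by
  induction n generalizing ω with
  | zero => exact continuous_const
  | succ n ih =>
    simp only [WN, LW, Tree.S]
    refine continuous_finsetSum _ fun k _ => Continuous.mul ?_ (ih _)
    refine continuous_iff_continuousAt.mpr fun q => ?_
    exact Filter.Tendsto.nnrpow tendsto_const_nhds (NNReal.continuous_coe.tendsto q)
      (Or.inl (by positivity))

lemma WN_le (q : ℝ≥0) (n : ℕ) (ω : t.Ω) : WN t q n ω ≤ WN t 0 n ω := by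
  induction n generalizing ω with
  | zero => exact le_rfl
  | succ n ih =>
    refine Finset.sum_le_sum fun k _ => mul_le_mul' ?_ (ih _)
    exact (vv_le_one q _).trans (by simp [vv])

lemma mm_cont (n : ℕ) : Continuous fun q => mm r D (t.P.map (sS 1 t)) q n := by
  simp_rw [← lintegral_WN]
  refine continuous_iff_continuousAt.mpr fun q => ?_
  refine tendsto_lintegral_filter_of_dominated_convergence (fun ω => WN t 0 n ω)
    (Eventually.of_forall fun q => by have := measurable_WN t q n; fun_prop)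
    (Eventually.of_forall fun q => ae_of_all _ fun ω => ENNReal.coe_le_coe.mpr (WN_le t q n ω)) ?_
    (ae_of_all _ fun ω => ENNReal.tendsto_coe.mpr ((WN_cont t n ω).tendsto q))
  rw [lintegral_WN]
  refine ne_top_of_le_ne_top (b := r ^ n) (by simp) ?_
  calc _ ≤ ∫⁻ _, (r : ℝ≥0∞) ^ n ∂(t.P.map (sS 1 t)) := lintegral_mono fun s => FF_le 0 n s
    _ = _ := by simp

variable (h1 : ∀ᵐ e ∂(D.prod D), aa 1 e = 1 ∧ bb 1 e = 1)
include h1

lemma exists_crit {q0 : ℝ≥0} (hq0 : q0 ≤ 1) (h : 2 < mm r D (t.P.map (sS 1 t)) q0 1) :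
    ∃ q, q0 ≤ q ∧ q < 1 ∧
      ∀ n, 1 ≤ mm r D (t.P.map (sS 1 t)) q n ∧ mm r D (t.P.map (sS 1 t)) q n ≤ 2 := by
  by_contra hcon
  have hone := mm_one_lt (r := r) h1 (op_sS 1 t)
  obtain ⟨q, hq, ⟨a, ha⟩, ⟨b, hb⟩⟩ := isPreconnected_Icc (a := q0) (b := 1)
    {q | ∃ n, mm r D (t.P.map (sS 1 t)) q n < 1} {q | ∃ n, 2 < mm r D (t.P.map (sS 1 t)) q n}
    (by
      rw [Set.ofPred_exists]
      exact isOpen_iUnion fun n => isOpen_lt (mm_cont t n) continuous_const)
    (by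
      rw [Set.ofPred_exists]
      exact isOpen_iUnion fun n => isOpen_lt continuous_const (mm_cont t n))
    (by
      intro q hq
      rcases hq.2.eq_or_lt with rfl | hlt
      · exact Or.inl hone
      by_contra h'
      simp only [Set.mem_union, Set.mem_ofPred_eq, not_or, not_exists, not_lt] at h'
      exact hcon ⟨q, hq.1, hlt, fun n => ⟨h'.1 n, h'.2 n⟩⟩)
    ⟨1, ⟨hq0, le_rfl⟩, hone⟩ ⟨q0, ⟨le_rfl, hq0⟩, 1, h⟩
  exact mm_not_both h1 hq.2 ha hb

lemma second_step {q : ℝ≥0} (hq : 2⁻¹ ≤ q) {G : t.Ω → ℝ≥0} (hG : Measurable G)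
    (hm : ∫⁻ ω, LW t q G ω ∂t.P ≤ 2) {g : ℝ≥0 → ℝ≥0∞} (hg : Measurable g) {H : ℝ≥0∞}
    (hH : ∀ s, g s ≤ H) :
    ∫⁻ ω, (LW t q G ω : ℝ≥0∞) ^ 2 * g (sS 1 t ω) ∂t.P ≤
      ∫⁻ ω, (G ω : ℝ≥0∞) ^ 2 *
        KK r 1 D (t.P.map (sS 1 t)) (wt 1 fun e => bb 1 e ^ 2) g (sS 1 t ω) ∂t.P + H * 4 := by
  have hs := measurable_sS 1 t
  have hL := measurable_LW t q hG
  have hG' : Measurable fun ω => (sS 1 t ω, G ω) := by fun_prop
  have hw := measurable_w2 q
  have := isProbabilityMeasure_map (μ := t.P) hG'.aemeasurable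
  have h2 := mecke_op (r := r) (θ := D.prod D) hw (t.P.map fun ω => (sS 1 t ω, G ω))
    (l := fun z => z.2) (F := fun z => z.2 * g z.1) (by fun_prop) (by simp) (fun a b => by simp)
    (by fun_prop)
  rw [op_w2 t q hG, lintegral_map (by fun_prop) (by fun_prop),
    lintegral_map (by fun_prop) hG'] at h2
  have hsq : ∀ a b : ℝ≥0∞, a ^ 2 * b = a * (a * b) := fun a b => by ring
  simp_rw [hsq]
  rw [h2]
  have hv : Measurable (wt 1 fun e => bb 1 e ^ 2) := measurable_wt (by fun_prop)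
  have h3 : ∀ ω, ∀ᵐ e ∂(D.prod D), ((w2 q ((sS 1 t ω, G ω), e)).2 : ℝ≥0∞) *
      ∫⁻ z, (z + w2 q ((sS 1 t ω, G ω), e)).2 * g (z + w2 q ((sS 1 t ω, G ω), e)).1
        ∂(t.P.map fun ω => (sS 1 t ω, LW t q G ω)) ≤
      G ω * (G ω * (wt 1 (fun e => bb 1 e ^ 2) (sS 1 t ω, e) *
        ∫⁻ s, g (s + rr 1 (sS 1 t ω, e)) ∂(t.P.map (sS 1 t)))) +
        H * 2 * (vv q (sS 1 t ω, e) * G ω : ℝ≥0) := by
    intro ω
    filter_upwards [h1] with e he
    rw [lintegral_map (by fun_prop) (by fun_prop), lintegral_map (by fun_prop) hs]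
    simp only [w2, Prod.snd_add, Prod.fst_add, ENNReal.coe_add, add_mul]
    rw [lintegral_add_left (by fun_prop), lintegral_const_mul _ (by fun_prop), mul_add, add_comm]
    refine add_le_add ?_ ?_
    · simp only [← mul_assoc, ← ENNReal.coe_mul]
      refine mul_le_mul_left (ENNReal.coe_le_coe.mpr ?_) _
      have h4 : vv q (sS 1 t ω, e) * vv q (sS 1 t ω, e) ≤
          wt 1 (fun e => bb 1 e ^ 2) (sS 1 t ω, e) := by
        have h5 : wt 1 (fun e => bb 1 e ^ 2) (sS 1 t ω, e) = (2 + sS 1 t ω)⁻¹ ^ (1 : ℝ) := by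
          simp only [wt, he.2, one_pow, one_div, NNReal.rpow_one]
          congr 1
          ring
        rw [h5, vv, ← NNReal.rpow_add (by positivity)]
        refine NNReal.rpow_le_rpow_of_exponent_ge (by positivity) (inv_two_add_le_one _) ?_
        have : ((2⁻¹ : ℝ≥0) : ℝ) ≤ q := hq
        simp only [NNReal.coe_inv, NNReal.coe_ofNat] at this
        linarith
      calc _ = G ω * G ω * (vv q (sS 1 t ω, e) * vv q (sS 1 t ω, e)) := by ring
        _ ≤ _ := by gcongr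
    · rw [mul_comm]
      refine mul_le_mul_left ?_ _
      calc _ ≤ ∫⁻ a, LW t q G a * H ∂t.P := lintegral_mono fun a => mul_le_mul_right (hH _) _
        _ ≤ _ := by rw [lintegral_mul_const _ (by fun_prop), mul_comm]; gcongr
  have h4 : (r : ℝ≥0∞) * ∫⁻ ω, ∫⁻ e, (vv q (sS 1 t ω, e) * G ω : ℝ≥0) ∂(D.prod D) ∂t.P ≤ 2 := by
    have h5 := wald t (h := fun p => (vv q (sS 1 t p.1, p.2) * G p.1 : ℝ≥0)) (by fun_prop)
    rw [lintegral_prod _ (by fun_prop)] at h5
    rw [← h5]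
    refine le_trans (le_of_eq (lintegral_congr fun ω => ?_)) hm
    simp only [LW, Tree.S, ENNReal.ofNNReal_finsetSum]
  calc _ ≤ (r : ℝ≥0∞) * ∫⁻ ω, ∫⁻ e, G ω * (G ω * (wt 1 (fun e => bb 1 e ^ 2) (sS 1 t ω, e) *
        ∫⁻ s, g (s + rr 1 (sS 1 t ω, e)) ∂(t.P.map (sS 1 t)))) +
        H * 2 * (vv q (sS 1 t ω, e) * G ω : ℝ≥0) ∂(D.prod D) ∂t.P :=
        mul_le_mul_right (lintegral_mono fun ω => lintegral_mono_ae (h3 ω)) _
    _ = ∫⁻ ω, G ω * (G ω * KK r 1 D (t.P.map (sS 1 t)) (wt 1 fun e => bb 1 e ^ 2) g (sS 1 t ω))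
          ∂t.P + H * 2 * (r * ∫⁻ ω, ∫⁻ e, (vv q (sS 1 t ω, e) * G ω : ℝ≥0) ∂(D.prod D) ∂t.P) := by
        rw [mul_left_comm (H * 2), ← lintegral_const_mul (H * 2) (by fun_prop),
          ← lintegral_const_mul (r : ℝ≥0∞) (by fun_prop),
          ← lintegral_const_mul (r : ℝ≥0∞) (by fun_prop), ← lintegral_add_right _ (by fun_prop)]
        refine lintegral_congr fun ω => ?_
        rw [lintegral_add_left (by fun_prop), lintegral_const_mul _ (by fun_prop),
          lintegral_const_mul _ (by fun_prop), lintegral_const_mul _ (by fun_prop), KK]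
        ring
    _ ≤ _ := by
        refine add_le_add le_rfl ?_
        calc _ ≤ H * 2 * 2 := mul_le_mul_right h4 _
          _ = _ := by rw [mul_assoc]; norm_num

lemma second_moment {q : ℝ≥0} (hq : 2⁻¹ ≤ q) (hm : ∀ n, mm r D (t.P.map (sS 1 t)) q n ≤ 2) :
    ∃ B : ℝ≥0, ∀ n, ∫⁻ ω, (WN t q n ω : ℝ≥0∞) ^ 2 ∂t.P ≤ B := by
  have hs := measurable_sS 1 t
  have hσ := op_sS 1 t
  set σ := t.P.map (sS 1 t) with hσdef
  have hL := measurable_LL (r := r) (γ := 1) (D := D) σ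
  have hD : ∫⁻ e, (aa 1 e ^ 2 : ℝ≥0) ∂(D.prod D) = 1 := by
    rw [lintegral_congr_ae (g := fun _ => 1) (by filter_upwards [h1] with e he; simp [he.1])]
    simp
  have hD' : ∫⁻ e, (bb 1 e ^ 2 : ℝ≥0) ∂(D.prod D) = 1 := by
    rw [lintegral_congr_ae (g := fun _ => 1) (by filter_upwards [h1] with e he; simp [he.2])]
    simp
  have hLx : ∀ s, LL r 1 D σ s ≤ xx s * r := fun s => by
    simpa only [hD, mul_one] using LL_le (r := r) (γ := 1) (D := D) (σ := σ) s
  have hH : ∀ s, xx s + LL r 1 D σ s ≤ (1 + r : ℝ≥0) := fun s =>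
    add_le_add (xx_le_one s) ((hLx s).trans (mul_le_of_le_one_left' (xx_le_one s)))
  have hk : ∀ s, LL r 1 D σ s ≤ (r / (1 + r) : ℝ≥0) * (xx s + LL r 1 D σ s) := by
    intro s
    rw [← ENNReal.mul_le_mul_iff_right (a := ((1 + r : ℝ≥0) : ℝ≥0∞)) (by simp) (by simp),
      ← mul_assoc, ← ENNReal.coe_mul, mul_div_cancel₀ _ (by positivity), ENNReal.coe_add,
      add_mul, mul_add, ENNReal.coe_one, one_mul, mul_comm _ (xx s)]
    gcongr
    exact hLx s
  have hV : ∀ n, ∫⁻ ω, (WN t q n ω : ℝ≥0∞) ^ 2 * (xx (sS 1 t ω) + LL r 1 D σ (sS 1 t ω)) ∂t.P ≤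
      (4 * (1 + r) ^ 2 : ℝ≥0) := by
    intro n
    induction n with
    | zero =>
      calc _ ≤ ∫⁻ _, ((1 + r : ℝ≥0) : ℝ≥0∞) ∂t.P := lintegral_mono fun ω => by
            simpa [WN] using hH (sS 1 t ω)
        _ ≤ _ := by
            rw [lintegral_const, measure_univ, mul_one, ENNReal.coe_le_coe, ← NNReal.coe_le_coe]
            push_cast
            nlinarith [r.2]
    | succ n ih =>
      have hy := measurable_WN t q n
      refine (second_step t h1 hq hy ((lintegral_WN t q (n + 1)).trans_le (hm _))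
        (g := fun s => xx s + LL r 1 D σ s) (by fun_prop) hH).trans ?_
      rw [← hσdef]
      simp_rw [KK_b_LL hσ]
      calc _ ≤ ∫⁻ ω, (r / (1 + r) : ℝ≥0) * ((WN t q n ω : ℝ≥0∞) ^ 2 *
            (xx (sS 1 t ω) + LL r 1 D σ (sS 1 t ω))) ∂t.P + (1 + r : ℝ≥0) * 4 := by
            refine add_le_add (lintegral_mono fun ω => ?_) le_rfl
            beta_reduce
            rw [mul_left_comm]
            exact mul_le_mul_right (hk _) _
        _ ≤ (r / (1 + r) : ℝ≥0) * (4 * (1 + r) ^ 2 : ℝ≥0) + (1 + r : ℝ≥0) * (4 : ℝ≥0) := by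
            rw [lintegral_const_mul _ (by fun_prop)]
            gcongr
            rfl
        _ = _ := by
            rw [← ENNReal.coe_mul, ← ENNReal.coe_mul, ← ENNReal.coe_add]
            congr 1
            field_simp
            ring
  refine ⟨r * (4 * (1 + r) ^ 2) + 4, fun n => ?_⟩
  cases n with
  | zero =>
    simp only [WN, ENNReal.coe_one, one_pow, lintegral_const, measure_univ, mul_one]
    exact_mod_cast le_add_left (by norm_num : (1 : ℝ≥0) ≤ 4)
  | succ n =>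
    have hy := measurable_WN t q n
    have h2 := second_step t h1 hq hy ((lintegral_WN t q (n + 1)).trans_le (hm _))
      (g := fun _ => 1) measurable_const (H := 1) (fun _ => le_rfl)
    simp only [mul_one, one_mul] at h2
    refine h2.trans ?_
    push_cast
    gcongr
    refine le_trans ?_ (mul_le_mul_right ((hV n).trans_eq (by push_cast; rfl)) _)
    rw [← lintegral_const_mul _ (by fun_prop)]
    refine lintegral_mono fun ω => ?_
    beta_reduce
    rw [mul_left_comm]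
    refine mul_le_mul_right ?_ _
    have h3 := KK_wt_le (r := r) (γ := 1) (D := D) (σ := σ) (c := fun e => bb 1 e ^ 2)
      (by fun_prop) (g := fun _ => 1) antitone_const (sS 1 t ω)
    simp only [hD', mul_one, lintegral_const, measure_univ] at h3
    refine h3.trans ?_
    rw [mul_comm]
    exact mul_le_mul_right le_self_add _

omit h1 in
lemma LW_dist (q : ℝ≥0) {G G' : t.Ω → ℝ≥0} (hG : Measurable G) (hG' : Measurable G') :
    ∫⁻ ω, ‖(LW t q G ω : ℝ) - LW t q G' ω‖ₑ ∂t.P ≤ r * ∫⁻ ω, ‖(G ω : ℝ) - G' ω‖ₑ ∂t.P := by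
  have h := wald t (h := fun p => ‖(G p.1 : ℝ) - G' p.1‖ₑ) (by fun_prop)
  rw [lintegral_prod _ (by fun_prop)] at h
  simp only [lintegral_const, measure_univ, mul_one] at h
  rw [← h]
  refine lintegral_mono fun ω => ?_
  simp only [LW, Tree.S, NNReal.coe_sum, ← Finset.sum_sub_distrib]
  refine (enorm_sum_le _ _).trans (Finset.sum_le_sum fun k _ => ?_)
  rw [NNReal.coe_mul, NNReal.coe_mul, ← mul_sub, enorm_mul]
  refine mul_le_of_le_one_left' ?_
  simpa using vv_le_one q _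

theorem exists_W {q : ℝ≥0} (hq : 2⁻¹ ≤ q)
    (hm : ∀ n, 1 ≤ mm r D (t.P.map (sS 1 t)) q n ∧ mm r D (t.P.map (sS 1 t)) q n ≤ 2) :
    ∃ W : t.Ω → ℝ≥0, Measurable W ∧ LW t q W =ᵐ[t.P] W ∧ 1 ≤ ∫⁻ ω, W ω ∂t.P ∧
      ∫⁻ ω, W ω ∂t.P ≠ ⊤ := by
  obtain ⟨B, hB⟩ := second_moment t h1 hq fun n => (hm n).2
  have hy := measurable_WN t q
  have hsn : ∀ n, eLpNorm (fun ω => (WN t q n ω : ℝ)) 2 t.P ≤ (B : ℝ≥0∞) ^ (1 / 2 : ℝ) := by
    intro n
    rw [eLpNorm_eq_lintegral_rpow_enorm_toReal two_ne_zero ENNReal.ofNat_ne_top]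
    simp only [ENNReal.toReal_ofNat, NNReal.enorm_eq, ENNReal.rpow_two]
    gcongr
    exact hB n
  have hmem : ∀ n, MemLp (fun ω => (WN t q n ω : ℝ)) 2 t.P := fun n =>
    ⟨by have := hy n; fun_prop, (hsn n).trans_lt
      (ENNReal.rpow_lt_top_of_nonneg (by norm_num) ENNReal.coe_ne_top)⟩
  let C : ℕ → Set (Lp ℝ 2 t.P) := fun N => {f | ∃ G : t.Ω → ℝ≥0, Measurable G ∧
    f =ᵐ[t.P] (fun ω => (G ω : ℝ)) ∧ 1 ≤ ∫⁻ ω, G ω ∂t.P ∧
      ∫⁻ ω, ‖(LW t q G ω : ℝ) - G ω‖ₑ ∂t.P ≤ 3 * ((N : ℝ≥0∞) + 1)⁻¹}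
  obtain ⟨z, hz, z0, hz0⟩ := exists_tendsto_of_convex C (by
    rintro N M hNM f ⟨G, a1, a2, a3, a4⟩
    exact ⟨G, a1, a2, a3, a4.trans (by gcongr)⟩) (by
    rintro N f ⟨G, a1, a2, a3, a4⟩ f' ⟨G', b1, b2, b3, b4⟩
    have c1 := measurable_LW t q a1
    have c2 := measurable_LW t q b1
    refine ⟨fun ω => 2⁻¹ * (G ω + G' ω), by fun_prop, ?_, ?_, ?_⟩
    · filter_upwards [Lp.coeFn_smul (2⁻¹ : ℝ) (f + f'), Lp.coeFn_add f f', a2, b2]
        with ω e1 e2 e3 e4
      rw [e1, Pi.smul_apply, e2, Pi.add_apply, e3, e4]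
      simp
    · simp only [ENNReal.coe_mul, ENNReal.coe_add]
      rw [lintegral_const_mul _ (by fun_prop), lintegral_add_left (by fun_prop)]
      calc (1 : ℝ≥0∞) = ((2⁻¹ : ℝ≥0) : ℝ≥0∞) * (1 + 1) := by
            rw [one_add_one_eq_two, ← ENNReal.coe_two, ← ENNReal.coe_mul]; simp
        _ ≤ _ := by gcongr
    · have c3 : ∀ ω, (LW t q (fun ω => 2⁻¹ * (G ω + G' ω)) ω : ℝ) - (2⁻¹ * (G ω + G' ω) : ℝ≥0) =
          2⁻¹ * (((LW t q G ω : ℝ) - G ω) + ((LW t q G' ω : ℝ) - G' ω)) := by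
        intro ω
        have : LW t q (fun ω => 2⁻¹ * (G ω + G' ω)) ω = 2⁻¹ * (LW t q G ω + LW t q G' ω) := by
          simp only [LW, Tree.S, ← Finset.sum_add_distrib, Finset.mul_sum]
          exact Finset.sum_congr rfl fun k _ => by ring
        rw [this]
        push_cast
        ring
      simp_rw [c3, enorm_mul]
      rw [lintegral_const_mul _ (by fun_prop)]
      calc _ ≤ ‖(2⁻¹ : ℝ)‖ₑ * (∫⁻ ω, ‖(LW t q G ω : ℝ) - G ω‖ₑ ∂t.P +
            ∫⁻ ω, ‖(LW t q G' ω : ℝ) - G' ω‖ₑ ∂t.P) := by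
            rw [← lintegral_add_left (by fun_prop)]
            gcongr with ω
            exact enorm_add_le _ _
        _ ≤ ‖(2⁻¹ : ℝ)‖ₑ * (3 * ((N : ℝ≥0∞) + 1)⁻¹ + 3 * ((N : ℝ≥0∞) + 1)⁻¹) := by gcongr
        _ = _ := by
            rw [← two_mul, ← mul_assoc, enorm_inv (by simp),
              show ‖(2 : ℝ)‖ₑ = 2 by simp [← ofReal_norm], ENNReal.inv_mul_cancel (by simp) (by simp), one_mul]) ((B : ℝ≥0∞) ^ (1 / 2 : ℝ)).toReal (by
    intro N
    refine ⟨((N : ℝ) + 1)⁻¹ • ∑ n ∈ Finset.range (N + 1), (hmem n).toLp _,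
      ⟨fun ω => ((N : ℝ≥0) + 1)⁻¹ * ∑ n ∈ Finset.range (N + 1), WN t q n ω, by fun_prop, ?_, ?_,
        ?_⟩, ?_⟩
    · filter_upwards [Lp.coeFn_smul ((N : ℝ) + 1)⁻¹ (∑ n ∈ Finset.range (N + 1), (hmem n).toLp _),
        Lp.coeFn_finsetSum (Finset.range (N + 1)) (fun n => (hmem n).toLp _),
        ae_all_iff.mpr fun n => (hmem n).coeFn_toLp] with ω e1 e2 e3
      rw [e1, Pi.smul_apply, e2]
      simp [e3]
    · simp only [ENNReal.coe_mul, ENNReal.ofNNReal_finsetSum]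
      rw [lintegral_const_mul _ (by fun_prop), lintegral_finsetSum _ (fun n _ => by fun_prop)]
      calc (1 : ℝ≥0∞) = ((((N : ℝ≥0) + 1)⁻¹ : ℝ≥0) : ℝ≥0∞) * ∑ n ∈ Finset.range (N + 1), 1 := by
            rw [Finset.sum_const, Finset.card_range, nsmul_one, ← ENNReal.coe_natCast,
              ← ENNReal.coe_mul, Nat.cast_succ, inv_mul_cancel₀ (by positivity), ENNReal.coe_one]
        _ ≤ _ := by
            gcongr with n
            rw [lintegral_WN]
            exact (hm n).1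
    · have c3 : ∀ ω, (LW t q (fun ω => ((N : ℝ≥0) + 1)⁻¹ *
          ∑ n ∈ Finset.range (N + 1), WN t q n ω) ω : ℝ) -
          (((N : ℝ≥0) + 1)⁻¹ * ∑ n ∈ Finset.range (N + 1), WN t q n ω : ℝ≥0) =
          (((N : ℝ≥0) + 1)⁻¹ : ℝ≥0) * ((WN t q (N + 1) ω : ℝ) - WN t q 0 ω) := by
        intro ω
        have : LW t q (fun ω => ((N : ℝ≥0) + 1)⁻¹ * ∑ n ∈ Finset.range (N + 1), WN t q n ω) ω =
            ((N : ℝ≥0) + 1)⁻¹ * ∑ n ∈ Finset.range (N + 1), WN t q (n + 1) ω := by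
          simp only [WN, LW, Tree.S, Finset.mul_sum]
          rw [Finset.sum_comm]
          exact Finset.sum_congr rfl fun n _ => Finset.sum_congr rfl fun k _ => by ring
        rw [this, NNReal.coe_mul, NNReal.coe_mul, ← mul_sub, NNReal.coe_sum, NNReal.coe_sum,
          ← Finset.sum_sub_distrib, Finset.sum_range_sub (fun n => (WN t q n ω : ℝ))]
      simp_rw [c3, enorm_mul]
      rw [lintegral_const_mul _ (by have := hy (N + 1); have := hy 0; fun_prop), mul_comm,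
        NNReal.enorm_eq, ENNReal.coe_inv (by positivity)]
      gcongr
      · calc _ ≤ ∫⁻ ω, WN t q (N + 1) ω ∂t.P + ∫⁻ ω, WN t q 0 ω ∂t.P := by
              rw [← lintegral_add_left (by have := hy (N + 1); fun_prop)]
              exact lintegral_mono fun ω => enorm_sub_le.trans_eq (by simp)
          _ ≤ 2 + 1 := by
              rw [lintegral_WN, lintegral_WN, mm_zero]
              gcongr
              exact (hm _).2
          _ = 3 := by norm_num
      · simp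
    · rw [norm_smul, Real.norm_of_nonneg (by positivity), inv_mul_le_iff₀ (by positivity)]
      refine (norm_sum_le _ _).trans ?_
      calc _ ≤ ∑ n ∈ Finset.range (N + 1), ((B : ℝ≥0∞) ^ (1 / 2 : ℝ)).toReal := by
            refine Finset.sum_le_sum fun n _ => ?_
            rw [Lp.norm_toLp]
            exact ENNReal.toReal_mono
              (ENNReal.rpow_lt_top_of_nonneg (by norm_num) ENNReal.coe_ne_top).ne (hsn n)
        _ = _ := by simp)
  choose G hG1 hG2 hG3 hG4 using hz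
  have hz0m : Measurable z0 := (Lp.stronglyMeasurable z0).measurable
  have hW : Measurable fun ω => (z0 ω).toNNReal := by fun_prop
  have hε : Tendsto (fun N => ∫⁻ ω, ‖(G N ω : ℝ) - (z0 ω).toNNReal‖ₑ ∂t.P) atTop (𝓝 0) := by
    refine tendsto_of_tendsto_of_tendsto_of_le_of_le tendsto_const_nhds
      ((Lp.tendsto_Lp_iff_tendsto_eLpNorm' _ _).mp hz0) (fun _ => zero_le) fun N => ?_
    refine le_trans ?_ (eLpNorm_le_eLpNorm_of_exponent_le one_le_two
      ((Lp.aestronglyMeasurable _).sub (Lp.aestronglyMeasurable _)))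
    rw [eLpNorm_one_eq_lintegral_enorm]
    refine lintegral_mono_ae ?_
    filter_upwards [hG2 N] with ω hω
    rw [Pi.sub_apply, hω, ← ofReal_norm, ← ofReal_norm]
    refine ENNReal.ofReal_le_ofReal ?_
    have := abs_max_sub_max_le_abs (G N ω : ℝ) (z0 ω) 0
    rwa [max_eq_left (NNReal.coe_nonneg _)] at this
  refine ⟨fun ω => (z0 ω).toNNReal, hW, ?_, ?_, ?_⟩
  · have hL := measurable_LW t q hW
    have h2 : ∫⁻ ω, ‖(LW t q (fun ω => (z0 ω).toNNReal) ω : ℝ) - (z0 ω).toNNReal‖ₑ ∂t.P = 0 := by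
      have h3 := ((ENNReal.Tendsto.const_mul (a := r) hε (Or.inr (by simp))).add
        (ENNReal.Tendsto.const_mul (a := 3) (ENNReal.tendsto_inv_nat_nhds_zero.comp
          (tendsto_add_atTop_nat 1)) (Or.inr (by simp)))).add hε
      simp only [mul_zero, add_zero] at h3
      refine nonpos_iff_eq_zero.mp (ge_of_tendsto' h3 fun N => ?_)
      have hL' := measurable_LW t q (hG1 N)
      have := hG1 N
      calc _ ≤ ∫⁻ ω, ‖(LW t q (G N) ω : ℝ) - LW t q (fun ω => (z0 ω).toNNReal) ω‖ₑ +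
            ‖(LW t q (G N) ω : ℝ) - G N ω‖ₑ + ‖(G N ω : ℝ) - (z0 ω).toNNReal‖ₑ ∂t.P := by
            refine lintegral_mono fun ω => ?_
            beta_reduce
            rw [enorm_sub_rev (LW t q (G N) ω : ℝ)]
            refine le_trans (le_of_eq ?_) ((enorm_add_le _ _).trans
              (add_le_add_left (enorm_add_le _ _) _))
            congr 1
            ring
        _ ≤ _ := by
            rw [lintegral_add_left (by fun_prop), lintegral_add_left (by fun_prop)]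
            gcongr
            · exact LW_dist t q (hG1 N) hW
            · simpa using hG4 N
    filter_upwards [(lintegral_eq_zero_iff (by fun_prop)).mp h2] with ω hω
    exact NNReal.eq (sub_eq_zero.mp (enorm_eq_zero.mp hω))
  · have h3 := hε.const_add (∫⁻ ω, (z0 ω).toNNReal ∂t.P)
    rw [add_zero] at h3
    refine ge_of_tendsto' h3 fun N => (hG3 N).trans ?_
    rw [← lintegral_add_left (by fun_prop)]
    refine lintegral_mono fun ω => ?_
    beta_reduce
    rw [← NNReal.enorm_eq, ← NNReal.enorm_eq]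
    refine le_trans (le_of_eq ?_) (enorm_add_le _ _)
    congr 1
    ring
  · have h3 := ((Lp.memLp z0).integrable one_le_two).2
    refine ne_top_of_le_ne_top h3.ne (lintegral_mono fun ω => ?_)
    exact Real.ofReal_le_enorm _

end Pool.Agent.MP_75c26c_pr

end MrgPart5

-- marker of a merged file
example : 731051 + 29423 = 731051 + 29423 := rfl
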