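import Mathlib.Probability.ProductMeasure
import Mathlib.Probability.Distributions.Poisson.Basic

/-!
The map on laws of `(U, X)`.
-/

open MeasureTheory ProbabilityTheory
open scoped NNReal

namespace Pool.Agent.MP_75c26c_pr

/-- `W = 1 + 2 β ξ ^ 2 X` for a sample `((U, X), (ξ, ζ))`. -/
noncomputable def Wk (β : ℝ) (a : (ℝ × ℝ) × (ℝ × ℝ)) : ℝ := 1 + 2 * β * a.2.1 ^ 2 * a.1.2

/-- The new pair built from `R` and the samples `((U_k, X_k), (ξ_k, ζ_k))`. -/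
noncomputable def step (β : ℝ) (p : ℕ × (ℕ → (ℝ × ℝ) × (ℝ × ℝ))) : ℝ × ℝ :=
  (1 - 2 * β * ∑ k ∈ Finset.range p.1,
      (p.2 k).2.1 * (p.2 k).2.2 * (p.2 k).1.1 * (p.2 k).1.2 / Wk β (p.2 k),
    1 / (1 + 2 * β * ∑ k ∈ Finset.range p.1, (p.2 k).2.2 ^ 2 / Wk β (p.2 k)))

/-- The map on laws. -/
noncomputable def Phi (α β : ℝ≥0) (D : Measure ℝ) (π : Measure (ℝ × ℝ)) : Measure (ℝ × ℝ) :=
  ((poissonMeasure (2 * α)).prod (Measure.infinitePi fun _ : ℕ => π.prod (D.prod D))).map (step β)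

/-- Fixed points carried by `ℝ × [0, 1]` whose first coordinate has a finite `p`-th moment. -/
def IsFixedPoint (α β : ℝ≥0) (D : Measure ℝ) (p : ℝ) (π : Measure (ℝ × ℝ)) : Prop :=
  IsProbabilityMeasure π ∧ (∀ᵐ z ∂π, z.2 ∈ Set.Icc (0 : ℝ) 1) ∧
    Integrable (fun z => |z.1| ^ p) π ∧ Phi α β D π = π

/-- The standing assumptions on the parameters. -/
def Admissible (α β : ℝ≥0) (D : Measure ℝ) : Prop :=
  0 < α ∧ 0 < β ∧ IsProbabilityMeasure D ∧ D.map (fun x => -x) = D ∧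
    Integrable (fun x : ℝ => x ^ 2) D

end Pool.Agent.MP_75c26c_pr
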