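import Mathlib.Algebra.Ring.IsFormallyReal
import Mathlib.MeasureTheory.Order.Group.Lattice
import Pool.Agent.MP_75c26c_pr.Mart
import Pool.Agent.MP_75c26c_pr.Stable
import Pool.Agent.MP_75c26c_pr.Defs

-- ======== part 0: formerly Pool.Agent.MP_75c26c_pr.NonUnique
section MrgPart0

/-!
A second fixed point, obtained by adding a stable variable with a random scale.
-/

open MeasureTheory ProbabilityTheory Measure Filter Topology Complex
open scoped ENNReal NNReal

set_option linter.unusedSectionVars false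

namespace Pool.Agent.MP_75c26c_pr

/-- Adding `w ^ (1 / q) * y` to the second coordinate. -/
noncomputable def mx (q : ℝ≥0) (z : (ℝ≥0 × ℝ × ℝ≥0) × ℝ) : ℝ≥0 × ℝ :=
  (z.1.1, z.1.2.1 + (z.1.2.2 : ℝ) ^ (q : ℝ)⁻¹ * z.2)

@[fun_prop] lemma measurable_mx (q : ℝ≥0) : Measurable (mx q) := by unfold mx; fun_prop

lemma norm_char (x : ℝ) : ‖cexp (x * I)‖ ≤ 1 := (norm_exp_ofReal_mul_I x).le

lemma integral_mx {q : ℝ≥0} (hq : q ≠ 0) {c : ℝ} {ν : Measure ℝ} [IsProbabilityMeasure ν]
    (hν : ∀ t, charFun ν t = cexp (-(c * |t| ^ (q : ℝ) : ℝ))) (ρ : Measure (ℝ≥0 × ℝ × ℝ≥0))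
    [IsProbabilityMeasure ρ] {f g : ℝ≥0 → ℝ} (hf : Measurable f) (hg : Measurable g) :
    ∫ z, cexp ((f z.1 + g z.1 * z.2 : ℝ) * I) ∂((ρ.prod ν).map (mx q)) =
      ∫ z, cexp ((f z.1 + g z.1 * z.2.1 : ℝ) * I) *
        cexp (-(c * (|g z.1| ^ (q : ℝ) * z.2.2) : ℝ)) ∂ρ := by
  rw [integral_map (by fun_prop) (Measurable.aestronglyMeasurable (by fun_prop)),
    integral_prod _ (Integrable.of_bound (Measurable.aestronglyMeasurable (by fun_prop)) 1
      (ae_of_all _ fun z => norm_char _))]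
  refine integral_congr_ae (ae_of_all _ fun z => ?_)
  have h1 : |g z.1| ^ (q : ℝ) * z.2.2 = |g z.1 * (z.2.2 : ℝ) ^ (q : ℝ)⁻¹| ^ (q : ℝ) := by
    rw [abs_mul, Real.mul_rpow (abs_nonneg _) (abs_nonneg _),
      abs_of_nonneg (Real.rpow_nonneg (NNReal.coe_nonneg _) _),
      Real.rpow_inv_rpow (NNReal.coe_nonneg _) (by simpa using hq)]
  beta_reduce
  rw [h1, ← hν, charFun_apply_real, ← integral_const_mul]
  refine integral_congr_ae (ae_of_all _ fun y => ?_)
  beta_reduce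
  rw [← Complex.exp_add, mx]
  congr 1
  push_cast
  ring

lemma ext_of_char {π π' : Measure (ℝ≥0 × ℝ)} [IsProbabilityMeasure π] [IsProbabilityMeasure π']
    (h : ∀ a b : ℝ, ∫ z, cexp ((a * z.1 + b * z.2 : ℝ) * I) ∂π =
      ∫ z, cexp ((a * z.1 + b * z.2 : ℝ) * I) ∂π') : π = π' := by
  have hx : Measurable fun z : ℝ≥0 × ℝ => ((z.1 : ℝ), z.2) := by fun_prop
  have := isProbabilityMeasure_map (μ := π) hx.aemeasurable
  have := isProbabilityMeasure_map (μ := π') hx.aemeasurable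
  have hfin : (π.map fun z : ℝ≥0 × ℝ => ((z.1 : ℝ), z.2)) =
      π'.map fun z : ℝ≥0 × ℝ => ((z.1 : ℝ), z.2) := by
    refine Measure.ext_of_charFunDual (funext fun L => ?_)
    have hL : ∀ z : ℝ≥0 × ℝ, L ((z.1 : ℝ), z.2) = L (1, 0) * z.1 + L (0, 1) * z.2 := by
      intro z
      rw [mul_comm, mul_comm (L (0, 1)), ← smul_eq_mul, ← smul_eq_mul, ← map_smul, ← map_smul,
        ← map_add]
      simp
    rw [charFunDual_apply, charFunDual_apply, integral_map hx.aemeasurable (by fun_prop),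
      integral_map hx.aemeasurable (by fun_prop)]
    simp_rw [hL]
    exact h _ _
  have hinv : (fun x : ℝ × ℝ => (x.1.toNNReal, x.2)) ∘
      (fun z : ℝ≥0 × ℝ => ((z.1 : ℝ), z.2)) = id := by
    funext s
    simp
  have h := congrArg (Measure.map fun x : ℝ × ℝ => (x.1.toNNReal, x.2)) hfin
  rwa [Measure.map_map (by fun_prop) hx, Measure.map_map (by fun_prop) hx, hinv, Measure.map_id,
    Measure.map_id] at h

/-- One-edge map for the triple `(s, u, W)`. -/
noncomputable def w3 (q : ℝ≥0) (p : (ℝ≥0 × ℝ × ℝ≥0) × (ℝ × ℝ)) : ℝ≥0 × ℝ × ℝ≥0 :=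
  (rr 1 (p.1.1, p.2), co 1 (p.1.1, p.2) * (1 + p.1.2.1), vv q (p.1.1, p.2) * p.1.2.2)

@[fun_prop] lemma measurable_w3 (q : ℝ≥0) : Measurable (w3 q) := by unfold w3; fun_prop

variable {r : ℝ≥0} {D : Measure ℝ} [IsProbabilityMeasure D]

lemma integral_op_char {E : Type} [AddCommMonoid E] [MeasurableSpace E] [MeasurableAdd₂ E]
    {w : E × (ℝ × ℝ) → E} (hw : Measurable w) (ρ : Measure E) [IsProbabilityMeasure ρ]
    {χ : E → ℂ} (hχ : Measurable χ) (hb : ∀ z, ‖χ z‖ ≤ 1) (h0 : χ 0 = 1)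
    (hmul : ∀ a b, χ (a + b) = χ a * χ b) :
    ∫ z, χ z ∂op r (D.prod D) w ρ =
      cexp (r * (∫ e, ∫ z, χ (w (z, e)) ∂ρ ∂(D.prod D) - 1)) := by
  have := isProbabilityMeasure_map (μ := ρ.prod (D.prod D)) hw.aemeasurable
  rw [op, integral_cp_char r _ hχ hb h0 hmul, integral_map hw.aemeasurable hχ.aestronglyMeasurable,
    integral_prod_symm (fun z => χ (w z)) (Integrable.of_bound (hχ.comp hw).aestronglyMeasurable 1
      (ae_of_all _ fun z => hb _))]

variable (h1 : ∀ᵐ e ∂(D.prod D), aa 1 e = 1 ∧ bb 1 e = 1)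
include h1

lemma op_mx {q : ℝ≥0} (hq : q ≠ 0) {c : ℝ} (hc : 0 ≤ c) {ν : Measure ℝ} [IsProbabilityMeasure ν]
    (hν : ∀ t, charFun ν t = cexp (-(c * |t| ^ (q : ℝ) : ℝ))) (ρ : Measure (ℝ≥0 × ℝ × ℝ≥0))
    [IsProbabilityMeasure ρ] (hρ : op r (D.prod D) (w3 q) ρ = ρ) :
    op r (D.prod D) (ww 1) ((ρ.prod ν).map (mx q)) = (ρ.prod ν).map (mx q) := by
  have := isProbabilityMeasure_map (μ := ρ.prod ν) (measurable_mx q).aemeasurable
  have := op_prob (r := r) (θ := D.prod D) (measurable_ww 1) ((ρ.prod ν).map (mx q))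
  refine ext_of_char fun a b => ?_
  rw [integral_mx hq hν ρ (f := fun s => a * s) (g := fun _ => b) (by fun_prop) (by fun_prop),
    integral_op_char (measurable_ww 1) _ (by fun_prop) (fun z => norm_char _) (by simp)
      (fun z z' => by
        rw [← Complex.exp_add]; congr 1; simp only [Prod.fst_add, Prod.snd_add]; push_cast; ring)]
  conv_rhs => rw [← hρ]
  rw [integral_op_char (measurable_w3 q) _ (by fun_prop) (fun z => ?_) (by simp)
      (fun z z' => by
        simp only [← Complex.exp_add]; congr 1; simp only [Prod.fst_add, Prod.snd_add]; push_cast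
        ring)]
  · congr 3
    refine integral_congr_ae ?_
    filter_upwards [h1] with e he
    have h2 := integral_mx hq hν ρ (f := fun s => a * rr 1 (s, e) + b * co 1 (s, e))
      (g := fun s => b * co 1 (s, e)) (by fun_prop) (by fun_prop)
    have h3 : ∀ s, |co 1 (s, e)| ^ (q : ℝ) = vv q (s, e) := by
      intro s
      have h4 := enorm_co 1 (s, e)
      rw [enorm_eq_nnnorm, ENNReal.coe_inj, ← NNReal.coe_inj, coe_nnnorm, Real.norm_eq_abs] at h4
      rw [h4, vv, NNReal.coe_rpow]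
      congr 2
      simp only [wt, he.1, he.2, one_mul, one_pow, one_div]
      congr 1
      ring
    convert h2 using 4 with z z
    · simp only [ww]
      congr 2
      ring
    · simp only [w3]
      ring_nf
    · simp only [w3]
      rw [abs_mul, Real.mul_rpow (abs_nonneg _) (abs_nonneg _), h3, NNReal.coe_mul, mul_assoc]
  · rw [norm_mul, ← ofReal_neg, norm_exp_ofReal]
    refine mul_le_one₀ (norm_char _) (Real.exp_pos _).le (Real.exp_le_one_iff.mpr ?_)
    rw [neg_nonpos]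
    positivity

omit h1 in
lemma re_charFun_mx {q : ℝ≥0} (hq : q ≠ 0) {c : ℝ} (hc : 0 ≤ c) {ν : Measure ℝ}
    [IsProbabilityMeasure ν] (hν : ∀ t, charFun ν t = cexp (-(c * |t| ^ (q : ℝ) : ℝ)))
    (ρ : Measure (ℝ≥0 × ℝ × ℝ≥0)) [IsProbabilityMeasure ρ] (b : ℝ) :
    1 - (charFun (((ρ.prod ν).map (mx q)).map fun z => 1 + z.2) b).re =
      ∫ z, (1 - Real.cos (b * (1 + z.2.1)) * Real.exp (-(c * (|b| ^ (q : ℝ) * z.2.2)))) ∂ρ := by
  have h2 := integral_mx hq hν ρ (f := fun _ => b) (g := fun _ => b) (by fun_prop) (by fun_prop)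
  have hle : ∀ z : ℝ≥0 × ℝ × ℝ≥0, Real.exp (-(c * (|b| ^ (q : ℝ) * z.2.2))) ≤ 1 := fun z =>
    Real.exp_le_one_iff.mpr (by rw [neg_nonpos]; positivity)
  have h3 : Integrable (fun z : ℝ≥0 × ℝ × ℝ≥0 => cexp ((b + b * z.2.1 : ℝ) * I) *
      cexp (-(c * (|b| ^ (q : ℝ) * z.2.2) : ℝ))) ρ := by
    refine Integrable.of_bound (Measurable.aestronglyMeasurable (by fun_prop)) 1
      (ae_of_all _ fun z => ?_)
    rw [norm_mul, ← ofReal_neg, norm_exp_ofReal]
    exact mul_le_one₀ (norm_char _) (Real.exp_pos _).le (hle z)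
  have h4 : Integrable (fun z : ℝ≥0 × ℝ × ℝ≥0 =>
      Real.cos (b * (1 + z.2.1)) * Real.exp (-(c * (|b| ^ (q : ℝ) * z.2.2)))) ρ := by
    refine Integrable.of_bound (Measurable.aestronglyMeasurable (by fun_prop)) 1
      (ae_of_all _ fun z => ?_)
    rw [norm_mul, Real.norm_of_nonneg (Real.exp_pos _).le]
    exact mul_le_one₀ (Real.abs_cos_le_one _) (Real.exp_pos _).le (hle z)
  rw [charFun_apply_real, integral_map (by fun_prop) (by fun_prop), integral_sub (by simp) h4]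
  have h5 : ∀ z : ℝ≥0 × ℝ, cexp (b * (1 + z.2 : ℝ) * I) = cexp ((b + b * z.2 : ℝ) * I) := by
    intro z
    congr 1
    push_cast
    ring
  simp_rw [h5]
  rw [h2, ← RCLike.re_to_complex, ← integral_re h3]
  simp only [integral_const, probReal_univ, smul_eq_mul, mul_one, RCLike.re_to_complex]
  congr 2
  funext z
  rw [← ofReal_neg, ← ofReal_exp, mul_comm, re_ofReal_mul, exp_ofReal_mul_I_re, mul_comm, mul_add,
    mul_one]

omit h1 in
lemma one_sub_cos_le (x : ℝ) : 1 - Real.cos x ≤ |x| := by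
  have := Real.abs_cos_sub_cos_le 0 x
  rw [Real.cos_zero, zero_sub, abs_neg] at this
  exact (le_abs_self _).trans this

theorem exists_two {p : ℝ} (hp : 0 < p) (hp1 : p < 1) :
    ∃ r : ℝ≥0, r ≠ 0 ∧ ∃ π π' : Measure (ℝ≥0 × ℝ), IsProbabilityMeasure π ∧
      IsProbabilityMeasure π' ∧ op r (D.prod D) (ww 1) π = π ∧ op r (D.prod D) (ww 1) π' = π' ∧
      π ≠ π' ∧ Integrable (fun z => |1 + z.2| ^ p) π ∧ Integrable (fun z => |1 + z.2| ^ p) π' := by
  let q0 : ℝ≥0 := ⟨(1 + p) / 2, by positivity⟩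
  have hq0 : (q0 : ℝ) = (1 + p) / 2 := rfl
  have hq01 : q0 < 1 := by
    rw [← NNReal.coe_lt_coe, hq0]
    push_cast
    linarith
  obtain ⟨r, hr, hr2⟩ := exists_rate hq01
  obtain ⟨t⟩ := nonempty_tree r (D.prod D)
  obtain ⟨q, hq1, hq2, hm⟩ := exists_crit t h1 hq01.le
    (lt_of_lt_of_le (by exact_mod_cast hr2) (mm_one_ge h1 (op_sS 1 t) hr q0))
  have hq1' : (1 + p) / 2 ≤ (q : ℝ) := hq1
  have hq2' : (q : ℝ) < 1 := hq2
  have hq : (0 : ℝ) < q := by linarith
  obtain ⟨W, hW, hW1, hW2, hW3⟩ := exists_W t h1 (q := q) (by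
    rw [← NNReal.coe_le_coe]
    push_cast
    linarith) hm
  obtain ⟨c, hc, ν, _, hν⟩ := exists_stable hq hq2'
  have hD : ∫⁻ e, (aa 1 e ^ 2 : ℝ≥0) ∂(D.prod D) ≠ ⊤ := by
    rw [lintegral_congr_ae (g := fun _ => 1) (by filter_upwards [h1] with e he; simp [he.1])]
    simp
  have hs := measurable_sS 1 t
  have hu := measurable_uS 1 t
  have hG : Measurable fun ω => (sS 1 t ω, uS 1 t ω, W ω) := by fun_prop
  have hG' : Measurable fun ω => (sS 1 t ω, uS 1 t ω) := by fun_prop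
  have := isProbabilityMeasure_map (μ := t.P) hG.aemeasurable
  have hP' := isProbabilityMeasure_map (μ := t.P) hG'.aemeasurable
  set ρ := t.P.map fun ω => (sS 1 t ω, uS 1 t ω, W ω) with hρdef
  have hρ : op r (D.prod D) (w3 q) ρ = ρ := by
    rw [hρdef, ← t.map_S_op (measurable_w3 q) hG]
    refine Measure.map_congr ?_
    filter_upwards [uS_eq t hD, hW1] with ω hω hω'
    simp only [w3]
    rw [S_pair, S_pair, ← sS_eq, ← hω, ← hω']
    rfl
  have hP := isProbabilityMeasure_map (μ := ρ.prod ν) (measurable_mx q).aemeasurable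
  have hq' : q ≠ 0 := fun h => by simp [h] at hq
  have hui : Integrable (fun ω => 1 + uS 1 t ω) t.P :=
    (integrable_const _).add ⟨hu.aestronglyMeasurable, (lintegral_uS_ne_top t hD).lt_top⟩
  have hWi : Integrable (fun ω => (W ω : ℝ)) t.P :=
    ⟨by fun_prop, by simpa [HasFiniteIntegral] using hW3.lt_top⟩
  have hexp : ∀ x : ℝ, 0 ≤ x → Integrable (fun ω => 1 - Real.exp (-(c * (x * W ω)))) t.P := by
    intro x hx
    refine (integrable_const _).sub (Integrable.of_bound (by fun_prop) 1 (ae_of_all _ fun ω => ?_))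
    rw [Real.norm_of_nonneg (Real.exp_pos _).le, Real.exp_le_one_iff, neg_nonpos]
    positivity
  have hre : ∀ b : ℝ, 1 - (charFun (((ρ.prod ν).map (mx q)).map fun z => 1 + z.2) b).re =
      ∫ ω, (1 - Real.cos (b * (1 + uS 1 t ω)) * Real.exp (-(c * (|b| ^ (q : ℝ) * W ω)))) ∂t.P := by
    intro b
    rw [re_charFun_mx hq' hc.le hν ρ b, hρdef, integral_map hG.aemeasurable (by fun_prop)]
  have hint : ∀ b : ℝ, Integrable (fun ω => 1 - Real.cos (b * (1 + uS 1 t ω)) *
      Real.exp (-(c * (|b| ^ (q : ℝ) * W ω)))) t.P := by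
    intro b
    refine (integrable_const _).sub (Integrable.of_bound (by fun_prop) 1 (ae_of_all _ fun ω => ?_))
    rw [norm_mul, Real.norm_of_nonneg (Real.exp_pos _).le]
    refine mul_le_one₀ (Real.abs_cos_le_one _) (Real.exp_pos _).le ?_
    rw [Real.exp_le_one_iff, neg_nonpos]
    positivity
  refine ⟨r, hr, t.P.map fun ω => (sS 1 t ω, uS 1 t ω), (ρ.prod ν).map (mx q), hP', hP,
    op_uS t hD, op_mx h1 hq' hc.le hν ρ hρ, fun heq => ?_, ?_, ?_⟩
  · have hκ : 0 < ∫ ω, (1 - Real.exp (-(c * (1 * W ω)))) ∂t.P := by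
      rw [integral_pos_iff_support_of_nonneg (fun ω => by
        simp only [Pi.zero_apply, sub_nonneg, Real.exp_le_one_iff, neg_nonpos]
        positivity) (hexp 1 zero_le_one), pos_iff_ne_zero]
      intro h0
      have h2 : ∀ᵐ ω ∂t.P, (W ω : ℝ≥0∞) = 0 := by
        filter_upwards [measure_eq_zero_iff_ae_notMem.mp h0] with ω hω
        simpa [sub_eq_zero, eq_comm (a := (1 : ℝ)), hc.ne'] using hω
      rw [lintegral_congr_ae h2] at hW2
      simp at hW2
    have hb : ∀ b : ℝ, 0 < b → b ≤ 1 → ∫ ω, (1 - Real.exp (-(c * (1 * W ω)))) ∂t.P ≤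
        (∫ ω, |1 + uS 1 t ω| ∂t.P) * b ^ (1 - (q : ℝ)) := by
      intro b hb hb1
      have h2 := hre b
      have := isProbabilityMeasure_map (μ := t.P) hui.aemeasurable
      rw [← heq, Measure.map_map (by fun_prop) hG', Function.comp_def, re_charFun,
        integral_map hui.aemeasurable (by fun_prop), abs_of_pos hb] at h2
      have hbq : 0 < b ^ (q : ℝ) := by positivity
      have hbq1 : b ^ (q : ℝ) ≤ 1 := Real.rpow_le_one hb.le hb1 hq.le
      rw [Real.rpow_sub hb, Real.rpow_one, ← mul_div_assoc, le_div_iff₀ hbq, ← integral_mul_const,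
        ← integral_mul_const]
      calc _ ≤ ∫ ω, (1 - Real.cos (b * (1 + uS 1 t ω)) *
            Real.exp (-(c * (b ^ (q : ℝ) * W ω)))) ∂t.P := by
            refine integral_mono ((hexp 1 zero_le_one).mul_const _)
              (by simpa only [abs_of_pos hb] using hint b) fun ω => ?_
            have h3 := convexOn_exp.2 (Set.mem_univ (-(c * (1 * W ω)))) (Set.mem_univ 0) hbq.le
              (sub_nonneg.mpr hbq1) (by ring)
            simp only [smul_eq_mul, mul_zero, add_zero, Real.exp_zero, mul_one] at h3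
            have h4 : b ^ (q : ℝ) * -(c * (1 * W ω)) = -(c * (b ^ (q : ℝ) * W ω)) := by ring
            rw [h4] at h3
            have h5 := mul_le_mul_of_nonneg_right (Real.cos_le_one (b * (1 + uS 1 t ω)))
              (Real.exp_pos (-(c * (b ^ (q : ℝ) * W ω)))).le
            beta_reduce
            linarith
        _ ≤ _ := by
            rw [← h2]
            refine integral_mono_of_nonneg (ae_of_all _ fun ω => by
              simpa using Real.cos_le_one _) (hui.abs.mul_const _) (ae_of_all _ fun ω => ?_)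
            beta_reduce
            refine (one_sub_cos_le _).trans_eq ?_
            rw [abs_mul, abs_of_pos hb, mul_comm]
    have h3 : Tendsto (fun b : ℝ => (∫ ω, |1 + uS 1 t ω| ∂t.P) * b ^ (1 - (q : ℝ))) (𝓝[>] 0)
        (𝓝 0) := by
      have h4 := ((Real.continuousAt_rpow_const 0 (1 - (q : ℝ)) (Or.inr (by linarith))).tendsto
        |>.const_mul (∫ ω, |1 + uS 1 t ω| ∂t.P)).mono_left (nhdsWithin_le_nhds (s := Set.Ioi 0))
      rwa [Real.zero_rpow (by linarith), mul_zero] at h4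
    refine hκ.not_ge (ge_of_tendsto h3 ?_)
    filter_upwards [Ioc_mem_nhdsGT (zero_lt_one' ℝ)] with b hb' using hb b hb'.1 hb'.2
  · rw [integrable_map_measure (Measurable.aestronglyMeasurable (by fun_prop)) hG'.aemeasurable]
    refine ((integrable_const 1).add hui.abs).mono' (Measurable.aestronglyMeasurable (by fun_prop))
      (ae_of_all _ fun ω => ?_)
    simp only [Function.comp_apply, Pi.add_apply]
    rw [Real.norm_of_nonneg (by positivity)]
    rcases le_total |1 + uS 1 t ω| 1 with h | h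
    · exact (Real.rpow_le_one (abs_nonneg _) h hp.le).trans (le_add_of_nonneg_right (abs_nonneg _))
    · exact (Real.rpow_le_self_of_one_le h hp1.le).trans (le_add_of_nonneg_left zero_le_one)
  · have hx : Measurable fun z : ℝ≥0 × ℝ => 1 + z.2 := by fun_prop
    have := isProbabilityMeasure_map (μ := (ρ.prod ν).map (mx q)) hx.aemeasurable
    have h2 := integrable_rpow_of_charFun (((ρ.prod ν).map (mx q)).map fun z => 1 + z.2) hp hp1
      (q := q) (C := ∫ ω, (|1 + uS 1 t ω| + c * W ω) ∂t.P) (by linarith) (fun b hb => by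
        rw [hre, ← integral_mul_const]
        refine integral_mono (hint b) ((hui.abs.add (hWi.const_mul c)).mul_const _) fun ω => ?_
        have h3 := one_sub_cos_le (b * (1 + uS 1 t ω))
        have h4 := Real.add_one_le_exp (-(c * (b ^ (q : ℝ) * W ω)))
        have h5 : Real.exp (-(c * (b ^ (q : ℝ) * W ω))) ≤ 1 := by
          have := hb.1
          rw [Real.exp_le_one_iff, neg_nonpos]
          positivity
        have h6 := mul_nonneg (sub_nonneg.mpr h5)
          (sub_nonneg.mpr (Real.cos_le_one (b * (1 + uS 1 t ω))))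
        have h7 := mul_le_mul_of_nonneg_right (Real.self_le_rpow_of_le_one hb.1.le hb.2 hq2'.le)
          (abs_nonneg (1 + uS 1 t ω))
        rw [abs_mul, abs_of_pos hb.1] at h3
        simp only [abs_of_pos hb.1]
        nlinarith)
    exact (integrable_map_measure (Measurable.aestronglyMeasurable (by fun_prop))
      hx.aemeasurable).mp h2

end Pool.Agent.MP_75c26c_pr

end MrgPart0

-- ======== part 1: formerly Pool.Agent.MP_75c26c_pr.LTwo
section MrgPart1

/-!
Second moment of the integrable fixed point for a symmetric edge law, and failure of higher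
moments.
-/

open MeasureTheory ProbabilityTheory Measure Filter Topology
open scoped ENNReal NNReal

set_option linter.unusedSectionVars false

namespace Pool.Agent.MP_75c26c_pr

lemma cpow_sq (η : Measure (ℝ≥0 × ℝ × ℝ≥0)) [IsProbabilityMeasure η]
    (h : ∀ (x : ℝ) (g : ℝ≥0 → ℝ≥0∞), Measurable g →
      ∫⁻ y, ‖x + y.2.1‖ₑ ^ 2 * g y.1 ∂η = ∫⁻ y, (‖x‖ₑ ^ 2 + y.2.2) * g y.1 ∂η) (n : ℕ) :
    ∀ (x : ℝ) (g : ℝ≥0 → ℝ≥0∞), Measurable g →
      ∫⁻ y, ‖x + y.2.1‖ₑ ^ 2 * g y.1 ∂cpow η n = ∫⁻ y, (‖x‖ₑ ^ 2 + y.2.2) * g y.1 ∂cpow η n := by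
  induction n with
  | zero =>
    intro x g hg
    rw [cpow_zero, lintegral_dirac' _ (by fun_prop), lintegral_dirac' _ (by fun_prop)]
    simp
  | succ n ih =>
    intro x g hg
    rw [lintegral_cpow_succ η n (by fun_prop), lintegral_cpow_succ η n (by fun_prop)]
    simp only [Prod.fst_add, Prod.snd_add, ENNReal.coe_add]
    have h1 : ∀ y : ℝ≥0 × ℝ × ℝ≥0, ∫⁻ s, ‖x + (s.2.1 + y.2.1)‖ₑ ^ 2 * g (s.1 + y.1) ∂cpow η n =
        ∫⁻ s, (‖x + y.2.1‖ₑ ^ 2 + s.2.2) * g (s.1 + y.1) ∂cpow η n := by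
      intro y
      rw [← ih (x + y.2.1) (fun s => g (s + y.1)) (by fun_prop)]
      simp_rw [add_assoc, add_comm y.2.1]
    simp_rw [h1]
    rw [lintegral_lintegral_swap (by fun_prop), lintegral_lintegral_swap (μ := η) (by fun_prop)]
    refine lintegral_congr fun s => ?_
    have h2 := h x (fun y => g (s.1 + y)) (by fun_prop)
    simp_rw [add_mul] at h2 ⊢
    rw [lintegral_add_left (by fun_prop), h2, ← lintegral_add_left (by fun_prop)]
    exact lintegral_congr fun y => by ring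

variable {r γ : ℝ≥0} {D : Measure ℝ} [IsProbabilityMeasure D]

/-- One-edge map that also records the square of the increment. -/
noncomputable def w4 (γ : ℝ≥0) (p : (ℝ≥0 × ℝ × ℝ≥0) × (ℝ × ℝ)) : ℝ≥0 × ℝ × ℝ≥0 :=
  (rr γ (p.1.1, p.2), co γ (p.1.1, p.2) * (1 + p.1.2.1), ‖co γ (p.1.1, p.2) * (1 + p.1.2.1)‖₊ ^ 2)

@[fun_prop] lemma measurable_w4 (γ : ℝ≥0) : Measurable (w4 γ) := by unfold w4; fun_prop

lemma op_sq (hsym : D.map (fun x => -x) = D) (ρ : Measure (ℝ≥0 × ℝ × ℝ≥0))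
    [IsProbabilityMeasure ρ] {g : ℝ≥0 → ℝ≥0∞} (hg : Measurable g) :
    ∫⁻ y, ‖1 + y.2.1‖ₑ ^ 2 * g y.1 ∂op r (D.prod D) (w4 γ) ρ =
      ∫⁻ y, (1 + y.2.2) * g y.1 ∂op r (D.prod D) (w4 γ) ρ := by
  have hw := measurable_w4 γ
  have := isProbabilityMeasure_map (μ := ρ.prod (D.prod D)) hw.aemeasurable
  rw [op, lintegral_cp r _ (by fun_prop), lintegral_cp r _ (by fun_prop)]
  refine tsum_congr fun n => ?_
  rw [cpow_sq _ (fun x g hg => ?_) n 1 g hg]
  · simp
  rw [lintegral_map (by fun_prop) hw, lintegral_map (by fun_prop) hw,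
    lintegral_prod _ (by fun_prop), lintegral_prod _ (by fun_prop)]
  refine lintegral_congr fun z => ?_
  have hm : MeasurePreserving (Prod.map id fun x : ℝ => -x) (D.prod D) (D.prod D) :=
    (MeasurePreserving.id D).prod ⟨by fun_prop, hsym⟩
  have h1 := hm.lintegral_comp (f := fun e => ‖x + (w4 γ (z, e)).2.1‖ₑ ^ 2 * g (w4 γ (z, e)).1)
    (by fun_prop)
  rw [← ENNReal.mul_right_inj (a := 2) (by simp) (by simp), two_mul]
  nth_rw 1 [← h1]
  rw [← lintegral_add_left (by fun_prop), ← lintegral_const_mul _ (by fun_prop)]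
  refine lintegral_congr fun e => ?_
  have h2 : (w4 γ (z, Prod.map id (fun x : ℝ => -x) e)).1 = (w4 γ (z, e)).1 := by
    simp [w4, rr, aa, bb]
  have h3 : (w4 γ (z, Prod.map id (fun x : ℝ => -x) e)).2.1 = -(w4 γ (z, e)).2.1 := by
    simp only [w4, co, Prod.map_fst, Prod.map_snd, id]
    ring
  rw [h2, h3, ← add_mul, ← mul_assoc]
  congr 1
  simp only [w4, enorm_eq_nnnorm, ← ENNReal.coe_pow, ← ENNReal.coe_add, ← ENNReal.coe_two,
    ← ENNReal.coe_mul, ENNReal.coe_inj, ← NNReal.coe_inj]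
  push_cast
  simp only [Real.norm_eq_abs, sq_abs]
  ring

variable (γ) (t : Tree r (D.prod D))

/-- Truncation of `U - 1` to the first `n` generations. -/
noncomputable def uN : ℕ → t.Ω → ℝ
  | 0 => fun _ => 0
  | n + 1 => t.S fun p => co γ (sS γ t p.1, p.2) * (1 + uN n p.1)

lemma measurable_uN (n : ℕ) : Measurable (uN γ t n) := by
  have := measurable_sS γ t
  induction n with
  | zero => exact measurable_const
  | succ n ih => exact t.measurable_S (by fun_prop)

lemma uN_eq (n : ℕ) (ω : t.Ω) : uN γ t n ω = ∑ k ∈ Finset.range n, yN γ t (k + 1) ω := by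
  induction n generalizing ω with
  | zero => simp [uN]
  | succ n ih =>
    simp only [uN, Tree.S, ih]
    conv_rhs => simp only [yN, Tree.S]
    rw [Finset.sum_comm]
    refine Finset.sum_congr rfl fun k _ => ?_
    rw [← Finset.mul_sum, Finset.sum_range_succ', add_comm]
    rfl

lemma lintegral_uN (hsym : D.map (fun x => -x) = D) (n : ℕ) : ∀ g : ℝ≥0 → ℝ≥0∞, Measurable g →
    ∫⁻ ω, ‖1 + uN γ t n ω‖ₑ ^ 2 * g (sS γ t ω) ∂t.P ≤
      ∫⁻ s, (1 + s) * g s ∂(t.P.map (sS γ t)) := by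
  have hs := measurable_sS γ t
  induction n with
  | zero =>
    intro g hg
    rw [lintegral_map (by fun_prop) hs]
    refine lintegral_mono fun ω => mul_le_mul_left ?_ _
    simp [uN]
  | succ n ih =>
    intro g hg
    have hy := measurable_uN γ t n
    have hw := measurable_w4 γ
    have hG : Measurable fun ω => (sS γ t ω, uN γ t n ω, (0 : ℝ≥0)) := by fun_prop
    have := isProbabilityMeasure_map (μ := t.P) hG.aemeasurable
    have hv : Measurable fun p => ‖co γ p‖₊ ^ 2 := by fun_prop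
    have hρ : (t.P.map fun ω => (sS γ t ω, uN γ t n ω, (0 : ℝ≥0))).map (AddMonoidHom.fst _ _) =
        t.P.map (sS γ t) := by
      rw [Measure.map_map (by exact measurable_fst) hG]; rfl
    have h1 := mecke_KK (op_sS γ t) hw (AddMonoidHom.fst _ _) measurable_fst (fun _ _ => rfl) _ hρ
      (l := fun z => z.2.2) (l' := fun z => ‖1 + z.2.1‖ₑ ^ 2) (by fun_prop) (by simp)
      (fun a b => by simp) hv
      (fun z e => by simp [w4, enorm_eq_nnnorm, mul_pow, mul_comm]) hg
    have h2 := mecke_KK (op_sS γ t) (measurable_rr γ) (AddMonoidHom.id _) measurable_id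
      (fun _ _ => rfl) (t.P.map (sS γ t)) (by simp)
      (l := fun z => z) (l' := fun _ => 1) (by fun_prop) (by simp)
      (fun a b => by simp) (measurable_rr γ) (fun z e => by simp) hg
    have h3 := map_op_phi (op_sS γ t) hw (AddMonoidHom.fst _ _) measurable_fst (fun _ _ => rfl) _ hρ
    have h4 := op_sq (r := r) (γ := γ) hsym
      (t.P.map fun ω => (sS γ t ω, uN γ t n ω, (0 : ℝ≥0))) hg
    have hm := measurable_KK (r := r) (γ := γ) (D := D) (σ := t.P.map (sS γ t)) hv hg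
    simp only [AddMonoidHom.coe_fst, AddMonoidHom.id_apply, one_mul] at h1 h2 h3
    rw [op_sS] at h2
    simp_rw [add_mul, one_mul] at h4 ⊢
    rw [lintegral_add_left (by fun_prop), h1, ← lintegral_map hg measurable_fst, h3,
      ← t.map_S_op hw hG, lintegral_map (by fun_prop) (t.measurable_S (by fun_prop)),
      lintegral_map (by fun_prop) hG] at h4
    rw [lintegral_add_left hg, h2]
    refine le_trans (le_of_eq (lintegral_congr fun ω => ?_)) (h4.trans_le (add_le_add le_rfl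
      ((ih _ hm).trans (lintegral_mono fun s => ?_))))
    · simp only [w4]
      rw [S_pair, S_pair, ← sS_eq]
      rfl
    · simp only [KK]
      rw [mul_left_comm, ← lintegral_const_mul _ (by fun_prop)]
      refine mul_le_mul_right (lintegral_mono fun e => ?_) _
      beta_reduce
      rw [← mul_assoc]
      refine mul_le_mul_left ?_ _
      have h5 := enorm_co γ (s, e)
      rw [enorm_eq_nnnorm, ENNReal.coe_inj] at h5
      rw [h5, ← ENNReal.coe_one, ← ENNReal.coe_add, ← ENNReal.coe_mul, ENNReal.coe_le_coe, wt, rr,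
        div_pow, ← mul_div_assoc, div_le_div_iff₀ (by positivity) (by positivity)]
      calc _ = aa γ e ^ 2 * (1 + s) * (bb γ e ^ 2 * (1 + s + bb γ e ^ 2)) := by ring
        _ ≤ aa γ e ^ 2 * (1 + s) * ((1 + s + bb γ e ^ 2) * (1 + s + bb γ e ^ 2)) := by
            gcongr
            exact le_add_self
        _ = _ := by ring

theorem lintegral_uS_sq (hD : ∫⁻ e, (aa γ e ^ 2 : ℝ≥0) ∂(D.prod D) ≠ ⊤)
    (hsym : D.map (fun x => -x) = D) : ∫⁻ ω, ‖1 + uS γ t ω‖ₑ ^ 2 ∂t.P ≠ ⊤ := by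
  have h2 : ∫⁻ s, (s : ℝ≥0∞) ∂(t.P.map (sS γ t)) ≠ ⊤ := by
    have h := mecke_op (r := r) (θ := D.prod D) (measurable_rr γ) (t.P.map (sS γ t))
      (l := fun s => (s : ℝ≥0∞)) (F := fun _ => 1) (by fun_prop) (by simp) (by simp) (by fun_prop)
    rw [op_sS] at h
    simp only [mul_one, lintegral_const, measure_univ] at h
    rw [h]
    refine ENNReal.mul_ne_top (by simp) (ne_top_of_le_ne_top hD ?_)
    calc _ ≤ ∫⁻ _, ∫⁻ e, (aa γ e ^ 2 : ℝ≥0) ∂(D.prod D) ∂(t.P.map (sS γ t)) :=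
          lintegral_mono fun z => lintegral_mono fun e => ENNReal.coe_le_coe.mpr (rr_le γ (z, e))
      _ = _ := by simp
  have h3 : ∀ᵐ ω ∂t.P, ‖1 + uS γ t ω‖ₑ ^ 2 = liminf (fun n => ‖1 + uN γ t n ω‖ₑ ^ 2) atTop := by
    filter_upwards [ae_summable_yN t hD] with ω hω
    have h4 := ((summable_nat_add_iff 1).mpr hω).hasSum.tendsto_sum_nat
    simp_rw [← uN_eq] at h4
    exact (ENNReal.Tendsto.pow (n := 2) (h4.const_add 1).enorm).liminf_eq.symm
  rw [lintegral_congr_ae h3]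
  refine ne_top_of_le_ne_top (b := 1 + ∫⁻ s, (s : ℝ≥0∞) ∂(t.P.map (sS γ t))) (by simpa using h2)
    ((lintegral_liminf_le fun n => by have := measurable_uN γ t n; fun_prop).trans
      (liminf_le_of_frequently_le' (Frequently.of_forall fun n => ?_)))
  have h5 := lintegral_uN γ t hsym n (fun _ => 1) measurable_const
  simp only [mul_one] at h5
  rwa [lintegral_add_left measurable_const, lintegral_const, measure_univ, mul_one] at h5

omit t in
theorem no_moment {p : ℝ} (hp : 1 ≤ p) (hr : r ≠ 0) (hγ : γ ≠ 0) (hD0 : ∀ᵐ x ∂D, x ≠ 0)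
    (hDp : ∫⁻ x, ‖x‖ₑ ^ p ∂D = ⊤) {π : Measure (ℝ≥0 × ℝ)} [IsProbabilityMeasure π]
    (h : op r (D.prod D) (ww γ) π = π) : ∫⁻ z, ‖1 + z.2‖ₑ ^ p ∂π = ⊤ := by
  have hw := measurable_ww γ
  have := isProbabilityMeasure_map (μ := π.prod (D.prod D)) hw.aemeasurable
  have hP : ∀ n, poissonMeasure r {n} ≠ 0 := fun n => by
    rw [poissonMeasure_singleton, Ne, ENNReal.ofReal_eq_zero, not_le]
    positivity
  have h0 : ∀ (F : ℝ≥0 × ℝ → ℝ≥0∞), Measurable F → ∀ n,
      ∫⁻ z, F z ∂cpow ((π.prod (D.prod D)).map (ww γ)) n = ⊤ → ∫⁻ z, F z ∂π = ⊤ := by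
    intro F hF n hn
    rw [← h, op, lintegral_cp r _ hF]
    exact ENNReal.tsum_eq_top_of_eq_top ⟨n, by rw [hn, ENNReal.top_mul (hP n)]⟩
  refine h0 _ (by fun_prop) 1 ?_
  rw [lintegral_cpow_succ _ 0 (by fun_prop), cpow_zero]
  simp_rw [lintegral_dirac, zero_add]
  rw [lintegral_map (by fun_prop) hw, lintegral_prod _ (by fun_prop)]
  refine h0 _ (by fun_prop) 0 ?_
  rw [cpow_zero, lintegral_dirac, lintegral_prod _ (by fun_prop),
    lintegral_congr_ae (g := fun _ => ⊤)]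
  · simp
  filter_upwards [hD0] with x hx
  by_contra hne
  set c : ℝ := -(γ * x) / (1 + γ * x ^ 2) with hc
  have hc0 : c ≠ 0 := div_ne_zero (by simp [hγ, hx]) (by positivity)
  have h1 : ∀ y, (ww γ (0, x, y)).2 = c * y := fun y => by
    simp only [ww, co, hc, Prod.fst_zero, Prod.snd_zero, NNReal.coe_zero, add_zero]
    ring
  simp_rw [h1] at hne
  have h2 : ∀ y, ‖c‖ₑ ^ p * ‖y‖ₑ ^ p ≤ 2 ^ (p - 1) * (‖1 + c * y‖ₑ ^ p + 1) := fun y => by
    rw [← ENNReal.mul_rpow_of_nonneg _ _ (by linarith), ← enorm_mul]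
    calc _ ≤ (‖1 + c * y‖ₑ + 1) ^ p := by
          gcongr
          simpa using enorm_sub_le (a := 1 + c * y) (b := 1)
      _ ≤ _ := by simpa using ENNReal.rpow_add_le_mul_rpow_add_rpow ‖1 + c * y‖ₑ 1 hp
  have h3 := lintegral_mono (μ := D) h2
  rw [lintegral_const_mul _ (by fun_prop), lintegral_const_mul _ (by fun_prop), hDp,
    ENNReal.mul_top (by simp [hc0]), lintegral_add_right _ (by fun_prop), top_le_iff] at h3
  exact ENNReal.mul_ne_top (ENNReal.rpow_ne_top_of_nonneg (by linarith) (by simp))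
    (ENNReal.add_ne_top.mpr ⟨hne, by simp⟩) h3

theorem exists_heavy {p : ℝ} (hp : 2 < p) : ∃ D : Measure ℝ, IsProbabilityMeasure D ∧
    D.map (fun x => -x) = D ∧ Integrable (fun x : ℝ => x ^ 2) D ∧ (∀ᵐ x ∂D, x ≠ 0) ∧
    ∫⁻ x, ‖x‖ₑ ^ p ∂D = ⊤ := by
  set τ : ℝ≥0 := 2 ^ p⁻¹ with hτ
  have hτ0 : τ ≠ 0 := by positivity
  let D : Measure ℝ := Measure.sum fun n : ℕ =>
    ((2⁻¹ : ℝ≥0∞) ^ (n + 2)) • (dirac ((τ ^ n : ℝ≥0) : ℝ) + dirac (-((τ ^ n : ℝ≥0) : ℝ)))
  have hF : ∀ F : ℝ → ℝ≥0∞, ∫⁻ x, F x ∂D =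
      ∑' n : ℕ, (2⁻¹ : ℝ≥0∞) ^ (n + 2) * (F (τ ^ n : ℝ≥0) + F (-(τ ^ n : ℝ≥0))) := by
    intro F
    simp only [D, lintegral_sum_measure, lintegral_smul_measure, lintegral_add_measure,
      lintegral_dirac, smul_eq_mul]
  have h2 : (2⁻¹ : ℝ≥0∞) * 2 = 1 := ENNReal.inv_mul_cancel (by simp) (by simp)
  have hG : ∀ (n : ℕ) (a : ℝ≥0∞), (2⁻¹ : ℝ≥0∞) ^ (n + 2) * (a ^ n + a ^ n) =
      2⁻¹ * (2⁻¹ * a) ^ n := by
    intro n a
    calc _ = 2⁻¹ * (2⁻¹ * a) ^ n * (2⁻¹ * 2) := by ring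
      _ = _ := by rw [h2, mul_one]
  refine ⟨D, ⟨?_⟩, ?_, ⟨by fun_prop, ?_⟩, ?_, ?_⟩
  · rw [← lintegral_one, hF]
    have h3 := fun n => hG n 1
    simp only [one_pow, mul_one] at h3
    simp_rw [h3]
    rw [ENNReal.tsum_mul_left, ENNReal.tsum_geometric, ENNReal.one_sub_inv_two, inv_inv, h2]
  · refine Measure.ext_of_lintegral _ fun f hf => ?_
    rw [lintegral_map hf (by fun_prop), hF, hF]
    simp_rw [neg_neg, add_comm]
  · rw [HasFiniteIntegral, hF]
    simp_rw [neg_sq, enorm_pow, NNReal.enorm_eq, ENNReal.coe_pow, ← pow_mul, mul_comm _ 2, pow_mul,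
      hG]
    rw [ENNReal.tsum_mul_left]
    refine ENNReal.mul_lt_top (by simp) (tsum_geometric_lt_top.mpr ?_)
    rw [← h2, ENNReal.mul_lt_mul_iff_right (by simp) (by simp), ← ENNReal.coe_pow,
      ← ENNReal.coe_two, ENNReal.coe_lt_coe, hτ, ← NNReal.rpow_natCast, ← NNReal.rpow_mul]
    conv_rhs => rw [← NNReal.rpow_one 2]
    refine NNReal.rpow_lt_rpow_of_exponent_lt (by norm_num) ?_
    rw [inv_mul_lt_iff₀ (by linarith)]
    simpa using hp
  · rw [ae_iff, ← lintegral_indicator_one (by measurability), hF]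
    simp [hτ0]
  · rw [hF]
    have h3 : (τ : ℝ≥0∞) ^ p = 2 := by
      rw [← ENNReal.coe_rpow_of_ne_zero hτ0, hτ, NNReal.rpow_inv_rpow (by linarith)]
      rfl
    simp_rw [enorm_neg, NNReal.enorm_eq, ENNReal.coe_pow, ← ENNReal.rpow_natCast (τ : ℝ≥0∞),
      ← ENNReal.rpow_mul, mul_comm _ p, ENNReal.rpow_mul, h3, ENNReal.rpow_natCast, hG, h2, one_pow]
    exact ENNReal.tsum_const_eq_top_of_ne_zero (by simp)

end Pool.Agent.MP_75c26c_pr

end MrgPart1

-- ======== part 2: formerly Pool.Agent.MP_75c26c_pr.Transfer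
section MrgPart2

/-!
Change of variables `(s, u) = (1 / X - 1, U - 1)`.
-/

open MeasureTheory ProbabilityTheory Measure Filter Topology
open scoped ENNReal NNReal

set_option linter.unusedSectionVars false

namespace Pool.Agent.MP_75c26c_pr

/-- The change of variables. -/
noncomputable def emb (z : ℝ≥0 × ℝ) : ℝ × ℝ := (1 + z.2, 1 / (1 + z.1))

@[fun_prop] lemma measurable_emb : Measurable emb := by unfold emb; fun_prop

lemma map_emb_inj {π π' : Measure (ℝ≥0 × ℝ)} (h : π.map emb = π'.map emb) : π = π' := by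
  have hinv : (fun x : ℝ × ℝ => ((1 / x.2 - 1).toNNReal, x.1 - 1)) ∘ emb = id := by
    funext s
    simp [emb]
  have h := congrArg (Measure.map fun x : ℝ × ℝ => ((1 / x.2 - 1).toNNReal, x.1 - 1)) h
  rwa [Measure.map_map (by fun_prop) measurable_emb, Measure.map_map (by fun_prop) measurable_emb,
    hinv, Measure.map_id, Measure.map_id] at h

/-- The increment produced by one sample. -/
noncomputable def inc (β : ℝ≥0) (a : (ℝ × ℝ) × (ℝ × ℝ)) : ℝ≥0 × ℝ :=
  ((2 * β * (a.2.2 ^ 2 / Wk β a)).toNNReal, -(2 * β * (a.2.1 * a.2.2 * a.1.1 * a.1.2 / Wk β a)))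

@[fun_prop] lemma measurable_Wk (β : ℝ) : Measurable (Wk β) := by unfold Wk; fun_prop

@[fun_prop] lemma measurable_inc (β : ℝ≥0) : Measurable (inc β) := by unfold inc; fun_prop

lemma measurable_step (β : ℝ) : Measurable (step β) :=
  measurable_from_prod_countable_right fun n => by
    simp only [step]
    fun_prop

variable {α β : ℝ≥0} {D : Measure ℝ} [IsProbabilityMeasure D]

lemma Phi_eq {π : Measure (ℝ × ℝ)} [IsProbabilityMeasure π]
    (hπ : ∀ᵐ z ∂π, z.2 ∈ Set.Icc (0 : ℝ) 1) :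
    Phi α β D π = (cp (2 * α) ((π.prod (D.prod D)).map (inc β))).map emb := by
  have h := infinitePi_map_pi (fun _ : ℕ => π.prod (D.prod D)) (f := fun _ => inc β)
    (fun _ => measurable_inc β)
  rw [cp, ← h]
  conv_rhs => rw [← Measure.map_id (μ := poissonMeasure (2 * α))]
  rw [Measure.map_prod_map _ _ measurable_id (by fun_prop),
    Measure.map_map measurable_sumUpTo (by fun_prop),
    Measure.map_map measurable_emb (measurable_sumUpTo.comp (by fun_prop)), Phi]
  refine Measure.map_congr ?_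
  have h1 : ∀ᵐ ω ∂(infinitePi fun _ : ℕ => π.prod (D.prod D)), ∀ k, (ω k).1.2 ∈ Set.Icc (0 : ℝ) 1 :=
    ae_all_iff.mpr fun k => (measurePreserving_eval_infinitePi
      (fun _ : ℕ => π.prod (D.prod D)) k).quasiMeasurePreserving.ae
        ((quasiMeasurePreserving_fst (ν := D.prod D)).ae hπ)
  filter_upwards [(quasiMeasurePreserving_snd (μ := poissonMeasure (2 * α))).ae h1] with p hp
  simp only [step, Function.comp_apply, emb, sumUpTo, Prod.map_fst, Prod.map_snd, id, Prod.fst_sum,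
    Prod.snd_sum, inc, NNReal.coe_sum, Finset.sum_neg_distrib, Finset.mul_sum, sub_eq_add_neg]
  congr 3
  refine Finset.sum_congr rfl fun k _ => (Real.coe_toNNReal _ ?_).symm
  have := (hp k).1
  unfold Wk
  positivity

lemma inc_emb (z : ℝ≥0 × ℝ) (e : ℝ × ℝ) : inc β (emb z, e) = ww (2 * β) (z, e) := by
  refine Prod.ext ?_ ?_
  · simp only [inc, ww]
    rw [← Real.toNNReal_coe (r := rr _ _)]
    congr 1
    simp only [rr, Wk, emb]
    push_cast
    rw [aa_sq, bb_sq]
    push_cast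
    field_simp
  · simp only [inc, ww, co, Wk, emb]
    push_cast
    field_simp

lemma ae_emb (π : Measure (ℝ≥0 × ℝ)) : ∀ᵐ z ∂π.map emb, z.2 ∈ Set.Icc (0 : ℝ) 1 := by
  rw [ae_map_iff measurable_emb.aemeasurable (measurable_snd measurableSet_Icc)]
  refine ae_of_all _ fun z => ⟨by simp only [emb]; positivity, ?_⟩
  simp only [emb]
  rw [div_le_one (by positivity)]
  simp

lemma Phi_map_emb (π : Measure (ℝ≥0 × ℝ)) [IsProbabilityMeasure π] :
    Phi α β D (π.map emb) = (op (2 * α) (D.prod D) (ww (2 * β)) π).map emb := by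
  have := isProbabilityMeasure_map (μ := π) measurable_emb.aemeasurable
  have h := Measure.map_prod_map π (D.prod D) measurable_emb measurable_id
  rw [Measure.map_id] at h
  rw [Phi_eq (ae_emb π), op, h, Measure.map_map (measurable_inc β) (by fun_prop)]
  congr 3
  funext p
  exact inc_emb p.1 p.2

lemma isFixedPoint_iff {p : ℝ} {π : Measure (ℝ × ℝ)} : IsFixedPoint α β D p π ↔
    ∃ ρ : Measure (ℝ≥0 × ℝ), IsProbabilityMeasure ρ ∧ op (2 * α) (D.prod D) (ww (2 * β)) ρ = ρ ∧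
      Integrable (fun z => |1 + z.2| ^ p) ρ ∧ π = ρ.map emb := by
  have hm : Measurable fun z : ℝ × ℝ => |z.1| ^ p := by fun_prop
  constructor
  · rintro ⟨_, h1, h2, h3⟩
    have := isProbabilityMeasure_map (μ := π.prod (D.prod D)) (measurable_inc β).aemeasurable
    have h4 := h3.symm.trans (Phi_eq h1)
    refine ⟨_, inferInstance, map_emb_inj ?_, ?_, h4⟩
    · rw [← Phi_map_emb, ← h4, h3]
    · rw [h4] at h2
      exact (integrable_map_measure hm.aestronglyMeasurable measurable_emb.aemeasurable).mp h2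
  · rintro ⟨ρ, _, h1, h2, rfl⟩
    exact ⟨isProbabilityMeasure_map measurable_emb.aemeasurable, ae_emb ρ,
      (integrable_map_measure hm.aestronglyMeasurable measurable_emb.aemeasurable).mpr h2,
      by rw [Phi_map_emb, h1]⟩

lemma integrable_rpow_mono {X : Type*} [MeasurableSpace X] {μ : Measure X} [IsFiniteMeasure μ]
    {f : X → ℝ} (hf : Measurable f) {p q : ℝ} (hp : 0 ≤ p) (hpq : p ≤ q)
    (h : Integrable (fun x => |f x| ^ q) μ) : Integrable (fun x => |f x| ^ p) μ := by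
  refine ((integrable_const 1).add h).mono' (Measurable.aestronglyMeasurable (by fun_prop))
    (ae_of_all _ fun x => ?_)
  simp only [Pi.add_apply]
  rw [Real.norm_of_nonneg (by positivity)]
  rcases le_total |f x| 1 with h | h
  · exact (Real.rpow_le_one (abs_nonneg _) h hp).trans (le_add_of_nonneg_right (by positivity))
  · exact (Real.rpow_le_rpow_of_exponent_le h hpq).trans (le_add_of_nonneg_left zero_le_one)

lemma integrable_rpow_iff {X : Type*} [MeasurableSpace X] {μ : Measure X}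
    {f : X → ℝ} (hf : Measurable f) {p : ℝ} (hp : 0 ≤ p) :
    Integrable (fun x => |f x| ^ p) μ ↔ ∫⁻ x, ‖f x‖ₑ ^ p ∂μ ≠ ⊤ := by
  have h : ∀ x, ‖|f x| ^ p‖ₑ = ‖f x‖ₑ ^ p := fun x => by
    rw [Real.enorm_rpow_of_nonneg (abs_nonneg _) hp, Real.enorm_abs]
  rw [Integrable, HasFiniteIntegral, and_iff_right (Measurable.aestronglyMeasurable (by fun_prop)),
    lt_top_iff_ne_top]
  simp_rw [h]

lemma IsFixedPoint.mono {p q : ℝ} (hp : 0 ≤ p) (hpq : p ≤ q) {π : Measure (ℝ × ℝ)}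
    (h : IsFixedPoint α β D q π) : IsFixedPoint α β D p π := by
  obtain ⟨_, h1, h2, h3⟩ := h
  exact ⟨inferInstance, h1, integrable_rpow_mono (by fun_prop) hp hpq h2, h3⟩

theorem existsUnique_fixedPoint {p : ℝ} (hp1 : 1 ≤ p) (hp2 : p ≤ 2)
    (hsym : D.map (fun x => -x) = D) (h2 : Integrable (fun x : ℝ => x ^ 2) D) :
    ∃! π, IsFixedPoint α β D p π := by
  obtain ⟨t⟩ := nonempty_tree (2 * α) (D.prod D)
  have hD : ∫⁻ e, (aa (2 * β) e ^ 2 : ℝ≥0) ∂(D.prod D) ≠ ⊤ := by
    have h3 : Integrable (fun e : ℝ × ℝ => ((2 * β : ℝ≥0) : ℝ) * e.2 ^ 2) (D.prod D) :=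
      (h2.comp_snd D).const_mul _
    refine ne_of_eq_of_ne (lintegral_congr fun e => ?_) h3.2.ne
    beta_reduce
    rw [← aa_sq, ← NNReal.coe_pow, NNReal.enorm_eq]
  have hs := measurable_sS (2 * β) t
  have hu := measurable_uS (2 * β) t
  have hG : Measurable fun ω => (sS (2 * β) t ω, uS (2 * β) t ω) := by fun_prop
  have hP := isProbabilityMeasure_map (μ := t.P) hG.aemeasurable
  refine ⟨_, isFixedPoint_iff.mpr ⟨_, hP, op_uS t hD, ?_, rfl⟩, fun π hπ => ?_⟩
  · refine integrable_rpow_mono (by fun_prop) (by linarith) hp2 ?_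
    rw [integrable_rpow_iff (by fun_prop) zero_le_two, lintegral_map (by fun_prop) hG]
    simpa using lintegral_uS_sq (2 * β) t hD hsym
  · obtain ⟨ρ, _, h3, h4, rfl⟩ := isFixedPoint_iff.mp hπ
    congr 1
    refine joint_unique t hD h3 (op_uS t hD) ?_ ?_
    · have h5 := integrable_rpow_mono (by fun_prop) zero_le_one hp1 h4
      simp only [Real.rpow_one] at h5
      have h6 := ((integrable_norm_iff (f := fun z : ℝ≥0 × ℝ => 1 + z.2) (by fun_prop)).mp h5).sub
        (integrable_const 1)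
      simpa using h6.2.ne
    · rw [lintegral_map (by fun_prop) hG]
      exact lintegral_uS_ne_top t hD

theorem exists_not_unique {p : ℝ} (hp0 : 0 ≤ p) (hp1 : p < 1) :
    ∃ (α β : ℝ≥0) (D : Measure ℝ), 0 < α ∧ 0 < β ∧ IsProbabilityMeasure D ∧
      D.map (fun x => -x) = D ∧ Integrable (fun x : ℝ => x ^ 2) D ∧
      ∃ π π', IsFixedPoint α β D p π ∧ IsFixedPoint α β D p π' ∧ π ≠ π' := by
  let D : Measure ℝ := (2⁻¹ : ℝ≥0∞) • (dirac 1 + dirac (-1))
  have hD : IsProbabilityMeasure D := ⟨by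
    simp only [D, Measure.smul_apply, Measure.add_apply, measure_univ, smul_eq_mul]
    rw [one_add_one_eq_two, ENNReal.inv_mul_cancel (by simp) (by simp)]⟩
  have h0 : ∀ᵐ x ∂D, ‖x‖₊ = 1 := ae_smul_measure (by simp [ae_add_measure_iff]) _
  have h1 : ∀ᵐ e ∂(D.prod D), aa 1 e = 1 ∧ bb 1 e = 1 := by
    filter_upwards [(quasiMeasurePreserving_fst (ν := D)).ae h0,
      (quasiMeasurePreserving_snd (μ := D)).ae h0] with e a b
    simp [aa, bb, a, b]
  obtain ⟨r, hr, π, π', a1, a2, a3, a4, a5, a6, a7⟩ :=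
    exists_two h1 (p := (1 + p) / 2) (by linarith) (by linarith)
  have e1 : 2 * (r / 2) = r := by field_simp
  have e2 : (2 : ℝ≥0) * 2⁻¹ = 1 := by simp
  refine ⟨r / 2, 2⁻¹, D, by positivity, by simp, hD, ?_, ?_, π.map emb, π'.map emb,
    isFixedPoint_iff.mpr ⟨π, a1, by rwa [e1, e2], ?_, rfl⟩,
    isFixedPoint_iff.mpr ⟨π', a2, by rwa [e1, e2], ?_, rfl⟩, fun h => a5 (map_emb_inj h)⟩
  · simp only [D]
    rw [Measure.map_smul, Measure.map_add _ _ (by fun_prop), map_dirac, map_dirac, neg_neg,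
      add_comm]
  · refine Integrable.of_bound (by fun_prop) 1 ?_
    filter_upwards [h0] with x hx
    rw [norm_pow, ← coe_nnnorm, hx]
    simp
  · exact integrable_rpow_mono (by fun_prop) hp0 (by linarith) a6
  · exact integrable_rpow_mono (by fun_prop) hp0 (by linarith) a7

theorem exists_none {p : ℝ} (hp : 2 < p) {α β : ℝ≥0} (hα : 0 < α) (hβ : 0 < β) :
    ∃ D : Measure ℝ, IsProbabilityMeasure D ∧ D.map (fun x => -x) = D ∧
      Integrable (fun x : ℝ => x ^ 2) D ∧ ∀ π, ¬ IsFixedPoint α β D p π := by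
  obtain ⟨D, a1, a2, a3, a4, a5⟩ := exists_heavy hp
  refine ⟨D, a1, a2, a3, fun π hπ => ?_⟩
  obtain ⟨ρ, _, h3, h4, -⟩ := isFixedPoint_iff.mp hπ
  exact (integrable_rpow_iff (by fun_prop) (by linarith)).mp h4
    (no_moment _ (by linarith) (by positivity) (by positivity) a4 a5 h3)

end Pool.Agent.MP_75c26c_pr

end MrgPart2

-- marker of a merged file
example : 731051 + 471681 = 731051 + 471681 := rfl
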